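import Pool.Agent.H694R4.Law.Defs

/-!
# Words with alternating exponents: basic facts
-/

set_option autoImplicit false

namespace Pool.Agent.H694R4.Law

/-- the side after `n` letters -/
def sd : Bool → ℕ → Bool
  | s, 0 => s
  | s, n + 1 => sd (!s) n

theorem sd_add (s : Bool) (m n : ℕ) : sd s (m + n) = sd (sd s m) n := by
  induction m generalizing s with
  | zero => simp [sd]
  | succ m ih => rw [Nat.succ_add]; simp only [sd]; exact ih _

theorem sd_not (s : Bool) (n : ℕ) : sd (!s) n = !(sd s n) := by
  induction n generalizing s with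
  | zero => rfl
  | succ n ih => simp only [sd]; exact ih _

theorem sd_even (s : Bool) (n : ℕ) (h : n % 2 = 0) : sd s n = s := by
  obtain ⟨m, rfl⟩ : ∃ m, n = 2 * m := ⟨n / 2, by omega⟩
  clear h
  induction m with
  | zero => rfl
  | succ m ih =>
    rw [show 2 * (m + 1) = 2 * m + 1 + 1 by ring]
    simp only [sd, Bool.not_not]
    exact ih

theorem sd_odd (s : Bool) (n : ℕ) (h : n % 2 = 1) : sd s n = !s := by
  obtain ⟨m, rfl⟩ : ∃ m, n = m + 1 := ⟨n - 1, by omega⟩
  simp only [sd]
  exact sd_even _ _ (by omega)

variable {Γ : Type*} [Group Γ] {t : ℕ → Γ}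

theorem val_nil (s : Bool) : val t s [] = 1 := by cases s <;> rfl

/-- one letter -/
def vl (t : ℕ → Γ) (s : Bool) (i : ℕ) : Γ := bif s then t i else (t i)⁻¹

theorem val_cons (s : Bool) (i : ℕ) (u : List ℕ) :
    val t s (i :: u) = vl t s i * val t (!s) u := by
  cases s <;> rfl

theorem vl_not (s : Bool) (i : ℕ) : vl t (!s) i = (vl t s i)⁻¹ := by
  cases s <;> simp [vl]

theorem val_append (s : Bool) (u v : List ℕ) :
    val t s (u ++ v) = val t s u * val t (sd s u.length) v := by
  induction u generalizing s with
  | nil => simp [val_nil, sd]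
  | cons i u ih =>
    rw [List.cons_append, val_cons, ih, val_cons, mul_assoc]
    rfl

theorem val_reverse (s : Bool) (u : List ℕ) :
    val t (sd s u.length) u.reverse = (val t s u)⁻¹ := by
  induction u generalizing s with
  | nil => simp [val_nil, sd]
  | cons i u ih =>
    have h1 := ih (!s)
    rw [List.reverse_cons, val_append, List.length_reverse, List.length_cons]
    have h2 : sd s (u.length + 1) = sd (!s) u.length := rfl
    rw [h2, h1, val_cons, val_cons, val_nil, mul_one, mul_inv_rev]
    congr 1
    rw [sd_not, sd_not, ← sd_add, sd_even _ (u.length + u.length) (by omega), vl_not]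

/-- chain reduced -/
def Red (u : List ℕ) : Prop := List.IsChain (· ≠ ·) u

/-- no short closed words: all closed cyclically reduced words of even length less than `ℓ` with
labels less than `M` are empty -/
def NoShort (t : ℕ → Γ) (M ℓ : ℕ) : Prop :=
  ∀ (s : Bool) (a b : ℕ) (u : List ℕ), (a :: u ++ [b]).length < ℓ →
    (a :: u ++ [b]).length % 2 = 0 → Red (a :: u ++ [b]) → a ≠ b →
    (∀ i ∈ a :: u ++ [b], i < M) → val t s (a :: u ++ [b]) ≠ 1

/-- G0: reduced nonempty words are not closed -/
theorem NoShort.ne {M ℓ : ℕ} (h : NoShort t M ℓ) : ∀ (n : ℕ) (s : Bool) (u : List ℕ),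
    u.length = n → u ≠ [] → u.length < ℓ → u.length % 2 = 0 → Red u → (∀ i ∈ u, i < M) →
    val t s u ≠ 1 := by
  intro n
  induction n using Nat.strong_induction_on with
  | _ n ih =>
    intro s u hn hne hl he hr hM hv
    obtain ⟨a, u1, rfl⟩ := List.exists_cons_of_ne_nil hne
    have h1 : u1 ≠ [] := by
      rintro rfl
      simp at he
    obtain ⟨m, b, rfl⟩ := List.eq_nil_or_concat' u1 |>.resolve_left h1
    by_cases hab : a = b
    · subst hab
      by_cases hm : m = []
      · subst hm
        simp [Red] at hr
      · have h2 : val t (!s) m = 1 := by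
          rw [val_cons, val_append, val_cons, val_nil, mul_one] at hv
          have h3 : sd (!s) m.length = !s := sd_even _ _ (by
            simp only [List.length_cons, List.length_append] at he
            simp at he
            omega)
          rw [h3, vl_not, ← mul_assoc, mul_inv_eq_one] at hv
          exact mul_eq_left.mp hv
        refine ih m.length ?_ (!s) m rfl hm ?_ ?_ ?_ ?_ h2
        · rw [← hn]; simp
        · simp only [List.length_cons, List.length_append] at hl
          omega
        · simp only [List.length_cons, List.length_append, List.length_nil] at he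
          omega
        · unfold Red at hr ⊢
          have := hr.tail
          simp only [List.tail_cons] at this
          exact (List.isChain_append.mp this).1
        · intro i hi
          exact hM i (by simp [hi])
    · exact h s a b m hl he hr hab hM hv

/-- short reduced words with the same value are equal -/
theorem NoShort.eq {M ℓ : ℕ} (h : NoShort t M ℓ) : ∀ (Q Q' : List ℕ) (s : Bool), Red Q → Red Q' →
    Q.length + Q'.length < ℓ → (Q.length + Q'.length) % 2 = 0 → (∀ i ∈ Q, i < M) →
    (∀ i ∈ Q', i < M) → val t s Q = val t s Q' → Q = Q' := by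
  intro Q
  induction Q with
  | nil =>
    intro Q' s _ hr' hl he _ hM' hv
    by_contra hne
    exact h.ne _ s Q' rfl (fun hh => hne hh.symm) (by simpa using hl) (by simpa using he) hr' hM'
      (by rw [← hv, val_nil])
  | cons a Q ih =>
    intro Q' s hr hr' hl he hM hM' hv
    rcases Q' with _ | ⟨b, Q'⟩
    · exact absurd (by rw [hv, val_nil])
        (h.ne _ s (a :: Q) rfl (List.cons_ne_nil _ _) (by simpa using hl) (by simpa using he) hr hM)
    · by_cases hab : a = b
      · subst hab
        rw [val_cons, val_cons] at hv
        have h1 := mul_left_cancel hv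
        rw [ih Q' (!s) hr.tail hr'.tail (by simp at hl ⊢; omega) (by simp at he ⊢; omega)
          (fun i hi => hM i (List.mem_cons_of_mem _ hi))
          (fun i hi => hM' i (List.mem_cons_of_mem _ hi)) h1]
      · exfalso
        refine h.ne _ (sd s (a :: Q).length) ((a :: Q).reverse ++ (b :: Q')) rfl (by simp) ?_ ?_ ?_
          ?_ ?_
        · simp only [List.length_append, List.length_reverse]
          exact hl
        · simp only [List.length_append, List.length_reverse]
          exact he
        · unfold Red at hr hr' ⊢
          rw [List.isChain_append]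
          refine ⟨?_, hr', ?_⟩
          · rw [List.isChain_reverse]
            exact hr.imp fun _ _ hh => hh.symm
          · intro x hx y hy
            simp at hx hy
            rw [← hx, ← hy]
            exact hab
        · intro i hi
          rw [List.mem_append, List.mem_reverse] at hi
          exact hi.elim (hM i) (hM' i)
        · rw [val_append, val_reverse, List.length_reverse, ← sd_add,
            sd_even _ _ (show ((a :: Q).length + (a :: Q).length) % 2 = 0 by omega), hv,
            inv_mul_cancel]

theorem red_map {u : List ℕ} {f : ℕ → ℕ} (hu : Red u)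
    (hf : ∀ i ∈ u, ∀ j ∈ u, i < j → f i < f j) : Red (u.map f) := by
  unfold Red at hu ⊢
  rw [List.isChain_iff_getElem] at hu ⊢
  intro i hi
  rw [List.length_map] at hi
  rw [List.getElem_map, List.getElem_map]
  have h1 := hu i hi
  intro h2
  rcases Nat.lt_or_gt_of_ne h1 with h3 | h3
  · have := hf _ (List.getElem_mem _) _ (List.getElem_mem _) h3
    omega
  · have := hf _ (List.getElem_mem _) _ (List.getElem_mem _) h3
    omega

/-- the criterion -/
theorem crit {M q ℓ : ℕ} (hH : Homo t M q) (hN : NoShort t M ℓ) (s : Bool) (A Q : List ℕ) (c : ℕ)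
    (hr : Red (c :: Q)) (hl : 2 * (c :: Q).length < ℓ) (hc : c ∉ A)
    (hc1 : c + 1 ∉ A ++ (c :: Q)) (hq : (A ++ (c :: Q)).length ≤ q)
    (hM : ∀ i ∈ A ++ (c :: Q), i < M) (hcM : c + 1 < M) : val t s (A ++ (c :: Q)) ≠ 1 := by
  intro hv
  set f : ℕ → ℕ := fun i => if i = c then c + 1 else i with hf
  have hmono : ∀ i ∈ A ++ (c :: Q), ∀ j ∈ A ++ (c :: Q), i < j → f i < f j := by
    intro i hi j hj hij
    simp only [hf]
    have h1 : j ≠ c + 1 := fun hh => hc1 (hh ▸ hj)
    split_ifs <;> omega
  have hfM : ∀ i ∈ A ++ (c :: Q), f i < M := by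
    intro i hi
    have := hM i hi
    simp only [hf]
    split_ifs <;> omega
  have hA : A.map f = A := by
    conv_rhs => rw [← List.map_id A]
    apply List.map_congr_left
    intro i hi
    simp only [hf, id]
    rw [if_neg (fun hh : i = c => hc (hh ▸ hi))]
  have h2 := (hH s (A ++ (c :: Q)) f hq hM hfM hmono).mp hv
  rw [List.map_append, hA, val_append] at h2
  rw [val_append] at hv
  have h3 := mul_left_cancel (hv.trans h2.symm)
  have hmono' : ∀ i ∈ c :: Q, ∀ j ∈ c :: Q, i < j → f i < f j := fun i hi j hj =>
    hmono i (List.mem_append_right _ hi) j (List.mem_append_right _ hj)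
  have h4 := hN.eq (c :: Q) ((c :: Q).map f) _ hr (red_map hr hmono')
    (by rw [List.length_map]; omega) (by rw [List.length_map]; omega)
    (fun i hi => hM i (List.mem_append_right _ hi)) (by
      intro i hi
      obtain ⟨j, hj, rfl⟩ := List.mem_map.mp hi
      exact hfM j (List.mem_append_right _ hj)) h3
  rw [List.map_cons, List.cons.injEq] at h4
  have h5 : f c = c + 1 := by simp [hf]
  omega

end Pool.Agent.H694R4.Law
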