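import Pool.Agent.H694R4.Law.Glue

/-!
# Words without closed parts of any parity: statements
-/

set_option autoImplicit false

namespace Pool.Agent.H694R4.Law

/-- no proper part is closed (all parities) -/
def SimpA {Γ : Type*} [Group Γ] (t : ℕ → Γ) (s : Bool) (R : List ℕ) : Prop :=
  ∀ C A E : List ℕ, R = C ++ A ++ E → A ≠ [] → C ++ E ≠ [] → val t (sd s C.length) A ≠ 1

/-- the criterion, for even labels -/
def CritP {Γ : Type*} [Group Γ] (t : ℕ → Γ) (M q h : ℕ) : Prop :=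
  ∀ (s : Bool) (A Q : List ℕ) (c : ℕ), Red (c :: Q) → (c :: Q).length ≤ h → c ∉ A →
    (∀ i ∈ A ++ (c :: Q), i % 2 = 0 ∧ i + 1 < M) → (A ++ (c :: Q)).length ≤ q →
    val t s (A ++ (c :: Q)) ≠ 1

theorem critP {Γ : Type*} [Group Γ] {t : ℕ → Γ} {M q h : ℕ} (hH : Homo t M q)
    (hN : NoShort t M (2 * h + 2)) : CritP t M q h := by
  intro s A Q c h1 h2 h3 h4 h5
  refine crit hH hN s A Q c h1 (by omega) h3 (fun h6 => ?_) h5 (fun i hi => ?_) ?_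
  · have h7 := (h4 _ h6).1
    have h8 := (h4 c (by simp)).1
    omega
  · have := (h4 i hi).2
    omega
  · exact (h4 c (by simp)).2

/-- INA: the boundary of the wheel without the first edge of `m12` has no closed part -/
def StINA : Prop := ∀ (Γ : Type) [Group Γ] (t : ℕ → Γ) (M q h : ℕ) (g : Bool) (x1 x2 x3 : ℕ)
  (m12 m23 m13 : List ℕ), Wh t M h g x1 x2 x3 m12 m23 m13 → CritP t M q h →
  (∀ i < M, t i ≠ 1) → 4 * h + 4 ≤ q →
  (∀ i, (i ∈ x1 :: (m12 ++ [x2]) ∨ i ∈ x2 :: (m23 ++ [x3]) ∨ i ∈ x1 :: (m13 ++ [x3])) →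
    i % 2 = 0 ∧ i + 1 < M) →
  ∀ Y A E : List ℕ, m13 ++ (m23.reverse ++ m12.tail.reverse) = Y ++ A ++ E → A ≠ [] →
  val t (sd (!g) Y.length) A ≠ 1

def StStepA : Prop := ∀ (Γ : Type) [Group Γ] (t : ℕ → Γ) (M q q0 h : ℕ), 1 ≤ h → Homo t M q →
  NoShort t M (2 * h + 2) → Rel t q0 h → (∀ i < M, t i ≠ 1) →
  ∀ (s : Bool) (z B : ℕ) (R1 : List ℕ), (z :: R1).length % 2 = 0 →
    (∀ i ∈ z :: R1, i < B) → val t s (z :: R1) = 1 → SimpA t s (z :: R1) →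
    (z :: R1).length + (2 * h + 2) ≤ q → 4 * q0 * (B + 2) < M →
    ∃ R' : List ℕ, R'.length = (z :: R1).length + 2 * h ∧ (∀ i ∈ R', i < 4 * q0 * (B + 2)) ∧
      val t (!s) R' = 1 ∧ SimpA t (!s) R'

def StBaseA : Prop := ∀ (Γ : Type) [Group Γ] (t : ℕ → Γ) (M q q0 h : ℕ), 1 ≤ h → Homo t M q →
  NoShort t M (2 * h + 2) → Rel t q0 h → (∀ i < M, t i ≠ 1) → 4 * q0 < M → 2 * h + 2 ≤ q →
  ∃ (z : ℕ) (R : List ℕ), (z :: R).length = 2 * h + 2 ∧ (∀ i ∈ z :: R, i < 4 * q0) ∧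
    val t true (z :: R) = 1 ∧ SimpA t true (z :: R)

def StWheelA : Prop := StINA → StCR → ∀ (Γ : Type) [Group Γ] (t : ℕ → Γ) (M q q0 h : ℕ), 2 ≤ h →
  Homo t M q → NoShort t M (2 * h + 2) → Rel t q0 h → (∀ i < M, t i ≠ 1) →
  ∀ (g : Bool) (z B : ℕ) (R1 : List ℕ), (z :: R1).length % 2 = 0 →
    (∀ i ∈ z :: R1, i < B) → val t (!g) (z :: R1) = 1 → SimpA t (!g) (z :: R1) →
    (z :: R1).length + (6 * h) ≤ q → 16 * q0 * (q0 + 1) * (B + 2) < M →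
    ∃ R' : List ℕ, R'.length = (z :: R1).length + (6 * h - 2) ∧
      (∀ i ∈ R', i < 16 * q0 * (q0 + 1) * (B + 2)) ∧ val t g R' = 1 ∧ SimpA t g R'

end Pool.Agent.H694R4.Law
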