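import Mathlib

/-!
# Words with alternating exponents
-/

set_option autoImplicit false

namespace Pool.Agent.H694R4.Law

/-- product of the labels with alternating exponents; `true`: the first exponent is `1` -/
def val {Γ : Type*} [Group Γ] (t : ℕ → Γ) : Bool → List ℕ → Γ
  | _, [] => 1
  | true, i :: u => t i * val t false u
  | false, i :: u => (t i)⁻¹ * val t true u

/-- homogeneous sequences -/
def Homo {Γ : Type*} [Group Γ] (t : ℕ → Γ) (M q : ℕ) : Prop :=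
  ∀ (s : Bool) (u : List ℕ) (f : ℕ → ℕ), u.length ≤ q → (∀ i ∈ u, i < M) →
    (∀ i ∈ u, f i < M) → (∀ i ∈ u, ∀ j ∈ u, i < j → f i < f j) →
    (val t s u = 1 ↔ val t s (u.map f) = 1)

def StP1 : Prop := ∀ M q : ℕ, ∃ N : ℕ, ∀ (Γ : Type) [Group Γ] (T : Finset Γ), N ≤ T.card →
  ∃ t : ℕ → Γ, (∀ i < M, t i ∈ T) ∧ (∀ i < M, ∀ j < M, t i = t j → i = j) ∧ Homo t M q

def StP2 : Prop := ∀ w : FreeGroup (Fin 2), w ≠ 1 → ∃ u : List ℕ,
  u.length = 2 * w.toWord.length ∧ (∀ i ∈ u, i < 3) ∧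
  (∀ (Γ : Type) [Group Γ], (∀ φ : FreeGroup (Fin 2) →* Γ, φ w = 1) →
    ∀ t : ℕ → Γ, val t true u = 1) ∧
  val (fun i : ℕ => FreeGroup.of i) true u ≠ 1

end Pool.Agent.H694R4.Law
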