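import Pool.Agent.H694R4.Law.Defs
import Pool.Agent.H685R2.DIM.Ramsey

/-!
# Homogeneous sequences from the finite Ramsey theorem
-/

set_option autoImplicit false

namespace Pool.Agent.H694R4.Law

theorem P1_val_map {Γ : Type*} [Group Γ] (t : ℕ → Γ) (g : ℕ → ℕ) (s : Bool) (P : List ℕ) :
    val t s (P.map g) = val (fun i => t (g i)) s P := by
  induction P generalizing s with
  | nil => cases s <;> rfl
  | cons a P ih =>
    cases s
    · simp only [List.map_cons, val, ih]
    · simp only [List.map_cons, val, ih]

theorem P1_val_congr {Γ : Type*} [Group Γ] (t t' : ℕ → Γ) (s : Bool) (P : List ℕ)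
    (h : ∀ x ∈ P, t x = t' x) : val t s P = val t' s P := by
  induction P generalizing s with
  | nil => cases s <;> rfl
  | cons a P ih =>
    have h1 := h a List.mem_cons_self
    have h2 := fun s => ih s (fun x hx => h x (List.mem_cons_of_mem a hx))
    cases s
    · simp only [val, h1, h2]
    · simp only [val, h1, h2]

/-- the pattern coded by `n` and `p` -/
def P1_pat (q : ℕ) (n : Fin (q + 1)) (p : Fin q → Fin q) : List ℕ :=
  ((List.ofFn p).take n).map (fun x : Fin q => (x : ℕ))

theorem P1_exists_pat (q : ℕ) (P : List ℕ) (h1 : P.length ≤ q) (h2 : ∀ x ∈ P, x < q) :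
    ∃ n p, P1_pat q n p = P := by
  refine ⟨⟨P.length, by omega⟩,
    fun i => if h : P.getD (i : ℕ) 0 < q then ⟨P.getD (i : ℕ) 0, h⟩ else i, ?_⟩
  unfold P1_pat
  apply List.ext_getElem
  · rw [List.length_map, List.length_take, List.length_ofFn]
    exact min_eq_left h1
  · intro i hi1 hi2
    have h3 : P.getD i 0 = P[i] := List.getD_eq_getElem _ _ hi2
    have h4 : P[i] < q := h2 _ (List.getElem_mem hi2)
    simp only [List.getElem_map, List.getElem_take, List.getElem_ofFn]
    rw [dif_pos (by rw [h3]; exact h4)]
    exact h3

theorem p1 : StP1 := by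
  classical
  intro M q
  obtain ⟨N, hN⟩ := Pool.Agent.H685R2.DIM.ramsey_gen
    ((Bool × Fin (q + 1) × (Fin q → Fin q)) → Bool) q (M + q)
  refine ⟨N, fun Γ _ T hT => ?_⟩
  -- enumeration of `T`
  obtain ⟨e, he1, he2⟩ : ∃ e : ℕ → Γ, (∀ i < N, e i ∈ T) ∧
      (∀ i < N, ∀ j < N, e i = e j → i = j) := by
    refine ⟨fun i => if h : i < T.card then (T.equivFin.symm ⟨i, h⟩ : Γ) else 1, ?_, ?_⟩
    · intro i hi
      simp only []
      rw [dif_pos (by omega)]
      exact (T.equivFin.symm ⟨i, by omega⟩).2
    · intro i hi j hj hij
      simp only [] at hij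
      rw [dif_pos (by omega), dif_pos (by omega)] at hij
      have := T.equivFin.symm.injective (Subtype.ext hij)
      simpa using this
  obtain ⟨T', hT'S, hT'c, k, hk⟩ := hN (Finset.range N)
    (fun l => fun x => decide (val (fun i => e (l.getD i 0)) x.1 (P1_pat q x.2.1 x.2.2) = 1))
    (by simp)
  -- the increasing enumeration of `T'`
  obtain ⟨θ, hθ1, hθ2⟩ : ∃ θ : ℕ → ℕ, (∀ i < M + q, θ i ∈ T') ∧
      (∀ i < M + q, ∀ j < M + q, i < j → θ i < θ j) := by
    refine ⟨fun i => if h : i < M + q then T'.orderEmbOfFin hT'c ⟨i, h⟩ else 0, ?_, ?_⟩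
    · intro i hi
      simp only []
      rw [dif_pos hi]
      exact Finset.orderEmbOfFin_mem _ _ _
    · intro i hi j hj hij
      simp only []
      rw [dif_pos hi, dif_pos hj]
      exact (T'.orderEmbOfFin hT'c).strictMono hij
  have hθN : ∀ i < M + q, θ i < N := fun i hi => Finset.mem_range.1 (hT'S (hθ1 i hi))
  have hθinj : ∀ i < M + q, ∀ j < M + q, θ i = θ j → i = j := by
    intro i hi j hj h
    rcases lt_trichotomy i j with h1 | h1 | h1
    · exact absurd h (hθ2 i hi j hj h1).ne
    · exact h1
    · exact absurd h (hθ2 j hj i hi h1).ne'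
  refine ⟨fun i => e (θ i), fun i hi => he1 _ (hθN i (by omega)), ?_, ?_⟩
  · intro i hi j hj hij
    exact hθinj i (by omega) j (by omega)
      (he2 _ (hθN i (by omega)) _ (hθN j (by omega)) hij)
  · intro s u f hu1 hu2 hu3 hu4
    set F : List ℕ := u.toFinset.sort (· ≤ ·) with hF
    have hFmem : ∀ x, x ∈ F ↔ x ∈ u := by
      intro x
      rw [hF, Finset.mem_sort, List.mem_toFinset]
    have hFlen : F.length ≤ q := by
      rw [hF, Finset.length_sort]
      exact le_trans (List.toFinset_card_le u) hu1
    have hFp : F.Pairwise (· < ·) := by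
      have := Finset.sortedLT_sort u.toFinset
      exact this.pairwise
    -- general facts on lists of labels
    have key : ∀ G : List ℕ, G.length = F.length → G.Pairwise (· < ·) → (∀ x ∈ G, x < M) →
        (fun x : Bool × Fin (q + 1) × (Fin q → Fin q) => decide (val (fun i =>
          e ((((G ++ List.range' M (q - F.length)).map θ)).getD i 0)) x.1
            (P1_pat q x.2.1 x.2.2) = 1)) = k := by
      intro G hG1 hG2 hG3
      refine hk ((G ++ List.range' M (q - F.length)).map θ) ?_ ?_ ?_
      · rw [List.length_map, List.length_append, List.length_range', hG1]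
        omega
      · rw [List.pairwise_map]
        have h1 : (G ++ List.range' M (q - F.length)).Pairwise (· < ·) := by
          rw [List.pairwise_append]
          refine ⟨hG2, List.pairwise_lt_range', ?_⟩
          intro a ha b hb
          have := hG3 a ha
          rw [List.mem_range'_1] at hb
          omega
        refine h1.imp_of_mem ?_
        intro a b ha hb hab
        refine hθ2 a ?_ b ?_ hab
        · rcases List.mem_append.1 ha with h | h
          · have := hG3 a h; omega
          · rw [List.mem_range'_1] at h; omega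
        · rcases List.mem_append.1 hb with h | h
          · have := hG3 b h; omega
          · rw [List.mem_range'_1] at h; omega
      · intro x hx
        obtain ⟨a, ha, rfl⟩ := List.mem_map.1 hx
        refine hθ1 a ?_
        rcases List.mem_append.1 ha with h | h
        · have := hG3 a h; omega
        · rw [List.mem_range'_1] at h; omega
    have hget : ∀ G : List ℕ, G.length = F.length → ∀ x ∈ u,
        ((G ++ List.range' M (q - F.length)).map θ).getD (F.idxOf x) 0 =
          θ (G.getD (F.idxOf x) 0) := by
      intro G hG x hx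
      have h1 : F.idxOf x < F.length := List.idxOf_lt_length_iff.2 ((hFmem x).2 hx)
      have h2 : F.idxOf x < G.length := by omega
      rw [List.getD_eq_getElem _ _ (by simp; omega), List.getD_eq_getElem _ _ h2,
        List.getElem_map, List.getElem_append_left h2]
    have hgetF : ∀ x ∈ u, F.getD (F.idxOf x) 0 = x := by
      intro x hx
      have h1 : F.idxOf x < F.length := List.idxOf_lt_length_iff.2 ((hFmem x).2 hx)
      rw [List.getD_eq_getElem _ _ h1]
      exact List.getElem_idxOf h1
    have hgetf : ∀ x ∈ u, (F.map f).getD (F.idxOf x) 0 = f x := by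
      intro x hx
      have h1 : F.idxOf x < F.length := List.idxOf_lt_length_iff.2 ((hFmem x).2 hx)
      rw [List.getD_eq_getElem _ _ (by rw [List.length_map]; exact h1), List.getElem_map]
      rw [List.getElem_idxOf h1]
    obtain ⟨n, p, hnp⟩ := P1_exists_pat q (u.map (fun x => F.idxOf x))
      (by rw [List.length_map]; exact hu1) (by
        intro y hy
        obtain ⟨x, hx, rfl⟩ := List.mem_map.1 hy
        have h1 : F.idxOf x < F.length := List.idxOf_lt_length_iff.2 ((hFmem x).2 hx)
        omega)
    have k1 := congrFun (key F rfl hFp (fun x hx => hu2 x ((hFmem x).1 hx))) (s, n, p)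
    have k2 := congrFun (key (F.map f) (by rw [List.length_map]) (by
      rw [List.pairwise_map]
      refine hFp.imp_of_mem ?_
      intro a b ha hb hab
      exact hu4 a ((hFmem a).1 ha) b ((hFmem b).1 hb) hab) (by
      intro x hx
      obtain ⟨y, hy, rfl⟩ := List.mem_map.1 hx
      exact hu3 y ((hFmem y).1 hy))) (s, n, p)
    have k3 := k1.trans k2.symm
    simp only [] at k3
    rw [decide_eq_decide, hnp, P1_val_map, P1_val_map] at k3
    have v1 : val (fun i => e (((F ++ List.range' M (q - F.length)).map θ).getD
        (F.idxOf i) 0)) s u = val (fun i => e (θ i)) s u := by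
      refine P1_val_congr _ _ s u fun x hx => ?_
      rw [hget F rfl x hx, hgetF x hx]
    have v2 : val (fun i => e (((F.map f ++ List.range' M (q - F.length)).map θ).getD
        (F.idxOf i) 0)) s u = val (fun i => e (θ (f i))) s u := by
      refine P1_val_congr _ _ s u fun x hx => ?_
      rw [hget (F.map f) (by rw [List.length_map]) x hx, hgetf x hx]
    rw [v1, v2] at k3
    rw [P1_val_map]
    exact k3

end Pool.Agent.H694R4.Law
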