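import Pool.Agent.H694R4.Law.Defs

set_option autoImplicit false

namespace Pool.Agent.H694R4.Law

/-- block of a letter -/
def P2blk (p : Fin 2 × Bool) : List ℕ := if p.2 then [(p.1 : ℕ) + 1, 0] else [0, (p.1 : ℕ) + 1]

theorem P2blk_length (p : Fin 2 × Bool) : (P2blk p).length = 2 := by
  unfold P2blk
  split_ifs <;> rfl

theorem P2blk_lt (p : Fin 2 × Bool) : ∀ i ∈ P2blk p, i < 3 := by
  intro i hi
  unfold P2blk at hi
  have := p.1.isLt
  split_ifs at hi <;> simp at hi <;> omega

theorem P2val {Γ : Type*} [Group Γ] (t : ℕ → Γ) (L : List (Fin 2 × Bool)) :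
    val t true (L.flatMap P2blk) =
      FreeGroup.lift (fun i : Fin 2 => t ((i : ℕ) + 1) * (t 0)⁻¹) (FreeGroup.mk L) := by
  rw [FreeGroup.lift_mk]
  induction L with
  | nil => rfl
  | cons p L ih =>
    rw [List.flatMap_cons, List.map_cons, List.prod_cons, ← ih]
    obtain ⟨i, b⟩ := p
    cases b
    · change val t true (([0, (i : ℕ) + 1] : List ℕ) ++ L.flatMap P2blk) = _
      simp only [List.cons_append, List.nil_append, val, cond_false]
      group
    · change val t true (([(i : ℕ) + 1, 0] : List ℕ) ++ L.flatMap P2blk) = _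
      simp only [List.cons_append, List.nil_append, val, cond_true]
      group

theorem p2 : StP2 := by
  intro w hw
  refine ⟨w.toWord.flatMap P2blk, ?_, ?_, ?_, ?_⟩
  · generalize w.toWord = L
    induction L with
    | nil => rfl
    | cons p L ih =>
      rw [List.flatMap_cons, List.length_append, P2blk_length, ih, List.length_cons]
      ring
  · intro i hi
    obtain ⟨p, -, hp⟩ := List.mem_flatMap.mp hi
    exact P2blk_lt p i hp
  · intro Γ _ h t
    rw [P2val, FreeGroup.mk_toWord]
    exact h _
  · intro h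
    rw [P2val, FreeGroup.mk_toWord] at h
    apply hw
    have h1 : (FreeGroup.lift (fun k : ℕ => if k = 0 then (1 : FreeGroup (Fin 2)) else
        if k = 1 then FreeGroup.of 0 else FreeGroup.of 1)).comp
        (FreeGroup.lift (fun i : Fin 2 => FreeGroup.of ((i : ℕ) + 1) * (FreeGroup.of 0)⁻¹)) =
        MonoidHom.id (FreeGroup (Fin 2)) := by
      apply FreeGroup.ext_hom
      intro i
      fin_cases i <;> simp
    have h2 := congrArg (FreeGroup.lift (fun k : ℕ => if k = 0 then (1 : FreeGroup (Fin 2)) else
        if k = 1 then FreeGroup.of 0 else FreeGroup.of 1)) h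
    rw [map_one] at h2
    have h3 := DFunLike.congr_fun h1 w
    rw [MonoidHom.comp_apply, MonoidHom.id_apply] at h3
    rw [← h3]
    exact h2

end Pool.Agent.H694R4.Law
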