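import Pool.Agent.H694R4.Law.Step
import Pool.Agent.H694R4.Law.P1
import Pool.Agent.H694R4.Law.P2

/-!
# Short relators
-/

set_option autoImplicit false

namespace Pool.Agent.H694R4.Law

/-- a closed word that is not trivial in the free group gives a closed cyclically reduced word -/
theorem exist_rel {Γ Δ : Type*} [Group Γ] [Group Δ] (t : ℕ → Γ) (t' : ℕ → Δ) : ∀ (n : ℕ) (s : Bool)
    (u : List ℕ), u.length = n → u.length % 2 = 0 → val t s u = 1 → val t' s u ≠ 1 →
    ∃ (s' : Bool) (a b : ℕ) (m : List ℕ), (a :: m ++ [b]).length ≤ u.length ∧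
      (a :: m ++ [b]).length % 2 = 0 ∧ Red (a :: m ++ [b]) ∧ a ≠ b ∧
      (∀ i ∈ a :: m ++ [b], i ∈ u) ∧ val t s' (a :: m ++ [b]) = 1 := by
  intro n
  induction n using Nat.strong_induction_on with
  | _ n ih =>
    intro s u hn he h1 h2
    by_cases hr : Red u
    · have hne : u ≠ [] := by
        rintro rfl
        exact h2 (val_nil _)
      obtain ⟨a, u1, rfl⟩ := List.exists_cons_of_ne_nil hne
      have h3 : u1 ≠ [] := by
        rintro rfl
        simp at he
      obtain ⟨m, b, rfl⟩ := List.eq_nil_or_concat' u1 |>.resolve_left h3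
      by_cases hab : a = b
      · subst hab
        have hme : m.length % 2 = 0 := by
          simp only [List.length_cons, List.length_append, List.length_nil] at he
          omega
        have key : ∀ {Λ : Type _} [Group Λ] (τ : ℕ → Λ),
            val τ s (a :: (m ++ [a])) = 1 ↔ val τ (!s) m = 1 := by
          intro Λ _ τ
          rw [val_cons, val_append, val_cons, val_nil, mul_one, sd_even _ _ hme, vl_not,
            ← mul_assoc, mul_inv_eq_one, mul_eq_left]
        have key' : ∀ {Λ : Type _} [Group Λ] (τ : ℕ → Λ),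
            val τ s (a :: (m ++ [a])) = 1 ↔ val τ (!s) m = 1 := by
          intro Λ _ τ
          rw [val_cons, val_append, val_cons, val_nil, mul_one, sd_even _ _ hme, vl_not,
            ← mul_assoc, mul_inv_eq_one, mul_eq_left]
        obtain ⟨s', c, d, m', h4, h5, h6, h7, h8, h9⟩ := ih m.length (by
          rw [← hn]; simp) (!s) m rfl hme ((key t).mp h1)
          (fun h => h2 ((key' t').mpr h))
        refine ⟨s', c, d, m', h4.trans (by simp; omega), h5, h6, h7, fun i hi => ?_, h9⟩
        have := h8 i hi
        simp [this]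
      · exact ⟨s, a, b, m, le_rfl, he, hr, hab, fun i hi => hi, h1⟩
    · obtain ⟨j, hj, hjj⟩ := List.exists_not_getElem_of_not_isChain hr
      rw [not_not] at hjj
      have hdec : u = u.take j ++ (u[j] :: u[j] :: u.drop (j + 2)) := by
        conv_lhs => rw [← List.take_append_drop j u]
        rw [List.drop_eq_getElem_cons (by omega), List.drop_eq_getElem_cons (by omega), ← hjj]
      obtain ⟨A, c, B, hA⟩ : ∃ A c B, u = A ++ (c :: c :: B) := ⟨_, _, _, hdec⟩
      have key : ∀ {Λ : Type _} [Group Λ] (τ : ℕ → Λ), val τ s u = val τ s (A ++ B) := by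
        intro Λ _ τ
        rw [hA, val_append, val_append, val_cons, val_cons, vl_not, Bool.not_not,
          mul_inv_cancel_left]
      have key' : ∀ {Λ : Type _} [Group Λ] (τ : ℕ → Λ), val τ s u = val τ s (A ++ B) := by
        intro Λ _ τ
        rw [hA, val_append, val_append, val_cons, val_cons, vl_not, Bool.not_not,
          mul_inv_cancel_left]
      have hlen : u.length = (A ++ B).length + 2 := by
        rw [hA]
        simp
        omega
      obtain ⟨s', c', d, m', h4, h5, h6, h7, h8, h9⟩ := ih (A ++ B).length (by omega) s (A ++ B) rfl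
        (by omega) (by rw [← key t]; exact h1) (by rw [← key' t']; exact h2)
      refine ⟨s', c', d, m', by omega, h5, h6, h7, fun i hi => ?_, h9⟩
      have := h8 i hi
      rw [hA]
      rw [List.mem_append] at this ⊢
      rcases this with h | h
      · exact Or.inl h
      · exact Or.inr (by simp [h])

open Classical in
/-- relators of minimal length -/
theorem exist_min {Γ : Type*} [Group Γ] (t : ℕ → Γ) (M q q0 n1 : ℕ) (hH : Homo t M q)
    (hinj : ∀ i < M, ∀ j < M, t i = t j → i = j) (hq : n1 ≤ q) (hq0 : n1 ≤ q0) (hM : q0 ≤ M)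
    (hex : ∃ (s : Bool) (a b : ℕ) (m : List ℕ), (a :: m ++ [b]).length ≤ n1 ∧
      (a :: m ++ [b]).length % 2 = 0 ∧ Red (a :: m ++ [b]) ∧ a ≠ b ∧
      (∀ i ∈ a :: m ++ [b], i < q0) ∧ val t s (a :: m ++ [b]) = 1) :
    ∃ h, 1 ≤ h ∧ 2 * h + 2 ≤ n1 ∧ NoShort t M (2 * h + 2) ∧ Rel t q0 h := by
  set P : ℕ → Prop := fun n => ∃ (s : Bool) (a b : ℕ) (m : List ℕ), (a :: m ++ [b]).length = n ∧
      (a :: m ++ [b]).length % 2 = 0 ∧ Red (a :: m ++ [b]) ∧ a ≠ b ∧
      (∀ i ∈ a :: m ++ [b], i < q0) ∧ val t s (a :: m ++ [b]) = 1 with hP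
  have hexP : ∃ n, P n := by
    obtain ⟨s, a, b, m, h1, h2, h3, h4, h5, h6⟩ := hex
    exact ⟨_, s, a, b, m, rfl, h2, h3, h4, h5, h6⟩
  obtain ⟨n, hn, hmin⟩ : ∃ n, P n ∧ ∀ j < n, ¬ P j :=
    ⟨Nat.find hexP, Nat.find_spec hexP, fun j hj => Nat.find_min hexP hj⟩
  have hnn1 : n ≤ n1 := by
    obtain ⟨s, a, b, m, h1, h2, h3, h4, h5, h6⟩ := hex
    by_contra hcon
    exact hmin _ (by omega) ⟨s, a, b, m, rfl, h2, h3, h4, h5, h6⟩
  obtain ⟨s, a, b, m, h1, h2, h3, h4, h5, h6⟩ := hn
  have hm : m ≠ [] := by
    rintro rfl
    simp only [List.cons_append, List.nil_append] at h6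
    rw [val_cons, val_cons, val_nil, mul_one, vl_not, mul_inv_eq_one] at h6
    have h7 : t a = t b := by
      cases s
      · exact inv_injective h6
      · exact h6
    exact h4 (hinj a ((h5 a (by simp)).trans_le hM) b ((h5 b (by simp)).trans_le hM) h7)
  have hml : 1 ≤ m.length := List.length_pos_iff.mpr hm
  have hlen : (a :: m ++ [b]).length = m.length + 2 := by simp
  obtain ⟨h, hh⟩ : ∃ h, n = 2 * h + 2 := ⟨(n - 2) / 2, by omega⟩
  refine ⟨h, by omega, by omega, ?_, ?_⟩
  · -- no short closed words
    intro s' a' b' u' hu1 hu2 hu3 hu4 hu5 hu6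
    set W := a' :: u' ++ [b'] with hW
    set F := W.toFinset with hF
    set f : ℕ → ℕ := fun i => (F.filter fun j => j < i).card with hf
    have hmono : ∀ i ∈ W, ∀ j ∈ W, i < j → f i < f j := by
      intro i hi j hj hij
      apply Finset.card_lt_card
      rw [Finset.ssubset_iff_of_subset]
      · refine ⟨i, ?_, ?_⟩
        · rw [Finset.mem_filter, hF, List.mem_toFinset]
          exact ⟨hi, hij⟩
        · simp
      · intro x hx
        rw [Finset.mem_filter] at hx ⊢
        exact ⟨hx.1, hx.2.trans hij⟩
    have hfb : ∀ i ∈ W, f i < q0 := by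
      intro i hi
      have h7 : f i < F.card := by
        apply Finset.card_lt_card
        rw [Finset.ssubset_iff_of_subset (Finset.filter_subset _ _)]
        refine ⟨i, ?_, by simp⟩
        rw [hF, List.mem_toFinset]
        exact hi
      have h8 : F.card ≤ W.length := List.toFinset_card_le _
      omega
    have h9 := (hH s' W f (by omega) hu5 (fun i hi => (hfb i hi).trans_le hM) hmono).mp hu6
    apply hmin W.length (by omega)
    refine ⟨s', f a', f b', u'.map f, ?_, ?_, ?_, ?_, ?_, ?_⟩
    · rw [hW]; simp
    · have : (f a' :: List.map f u' ++ [f b']).length = W.length := by rw [hW]; simp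
      rw [this]
      exact hu2
    · have : f a' :: List.map f u' ++ [f b'] = W.map f := by rw [hW]; simp
      rw [this]
      exact red_map hu3 hmono
    · intro h10
      rcases Nat.lt_or_gt_of_ne hu4 with h11 | h11
      · have := hmono a' (by rw [hW]; simp) b' (by rw [hW]; simp) h11
        omega
      · have := hmono b' (by rw [hW]; simp) a' (by rw [hW]; simp) h11
        omega
    · have : f a' :: List.map f u' ++ [f b'] = W.map f := by rw [hW]; simp
      rw [this]
      intro i hi
      obtain ⟨j, hj, rfl⟩ := List.mem_map.mp hi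
      exact hfb j hj
    · have : f a' :: List.map f u' ++ [f b'] = W.map f := by rw [hW]; simp
      rw [this]
      exact h9
  · -- both sides
    intro s'
    by_cases hs : s' = s
    · subst hs
      refine ⟨a, m ++ [b], by simp; omega, h3, ?_, h5, h6⟩
      intro x hx
      simp at hx
      rw [← hx]
      exact h4.symm
    · have hs' : s' = !s := by
        revert hs
        cases s <;> cases s' <;> simp
      subst hs'
      obtain ⟨c, m', rfl⟩ := List.exists_cons_of_ne_nil hm
      refine ⟨c, m' ++ [b] ++ [a], by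
        have h7 := h1
        simp only [List.length_cons, List.length_append, List.length_nil] at h7 ⊢
        omega, ?_, ?_, ?_, ?_⟩
      · unfold Red at h3 ⊢
        have h7 : c :: (m' ++ [b] ++ [a]) = (c :: m' ++ [b]) ++ [a] := by simp
        rw [h7, List.isChain_append]
        refine ⟨h3.tail, by simp, ?_⟩
        intro x hx y hy
        have hx' : (c :: m' ++ [b]).getLast? = some x := hx
        rw [List.getLast?_concat] at hx'
        simp at hx' hy
        rw [← hx', ← hy]
        exact h4.symm
      · intro x hx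
        have hx' : (m' ++ [b] ++ [a]).getLast? = some x := hx
        rw [List.getLast?_concat] at hx'
        simp at hx'
        rw [← hx']
        unfold Red at h3
        exact (List.isChain_cons_cons.mp h3).1
      · intro i hi
        apply h5
        simp at hi ⊢
        tauto
      · have h7 : c :: (m' ++ [b] ++ [a]) = (c :: m' ++ [b]) ++ [a] := by simp
        have h8 : a :: (c :: m') ++ [b] = a :: (c :: m' ++ [b]) := by simp
        rw [h8, val_cons] at h6
        rw [h7, val_append, eq_inv_of_mul_eq_one_right h6, val_cons, val_nil, mul_one,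
          sd_odd _ _ (by simp at h2 ⊢; omega), Bool.not_not, inv_mul_cancel]

end Pool.Agent.H694R4.Law
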