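import Pool.Agent.H694R4.Law.Ex
import Pool.Agent.H694R4.Key

/-!
# Even cycles in graphs built from groups that satisfy a law
-/

set_option autoImplicit false

namespace Pool.Agent.H694R4.Law

open SimpleGraph

/-- bound for the labels -/
def Bd (q0 : ℕ) : ℕ → ℕ
  | 0 => q0
  | a + 1 => 4 * q0 * (Bd q0 a + 2)

theorem Bd_le (q0 : ℕ) (h : 1 ≤ q0) (a : ℕ) : Bd q0 a ≤ Bd q0 (a + 1) := by
  rw [Bd]
  nlinarith

theorem Bd_mono (q0 : ℕ) (h : 1 ≤ q0) {a a' : ℕ} (haa : a ≤ a') : Bd q0 a ≤ Bd q0 a' := by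
  induction a', haa using Nat.le_induction with
  | base => exact le_rfl
  | succ n _ ih => exact ih.trans (Bd_le q0 h n)

theorem chain {Γ : Type*} [Group Γ] {t : ℕ → Γ} {M q q0 h : ℕ} (hh : 1 ≤ h) (hH : Homo t M q)
    (hN : NoShort t M (2 * h + 2)) (hR : Rel t q0 h) : ∀ a : ℕ, 2 + (1 + a) * (2 * h) + 2 ≤ q →
    Bd q0 a < M → ∃ (s : Bool) (z : ℕ) (R : List ℕ), (z :: R).length = 2 + (1 + a) * (2 * h) ∧
      (∀ i ∈ z :: R, i < Bd q0 a) ∧ val t s (z :: R) = 1 ∧ Simp t s (z :: R) := by
  intro a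
  have hq0 : 1 ≤ q0 := by
    obtain ⟨a, Q, _, _, _, h4, _⟩ := hR true
    have := h4 a List.mem_cons_self
    omega
  induction a with
  | zero =>
    intro _ hM
    obtain ⟨a, Q, h1, h2, h3, h4, h5⟩ := hR true
    refine ⟨true, a, Q, ?_, h4, h5, ?_⟩
    · rw [List.length_cons, h1]
      ring
    · intro C A E hd hA hAe hCE
      have hl := congrArg List.length hd
      have hCE' : 1 ≤ (C ++ E).length := List.length_pos_iff.mpr hCE
      simp only [List.length_append, List.length_cons] at hl hCE'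
      refine hN.ne _ _ A rfl hA (by omega) hAe ?_ ?_
      · unfold Red at h2 ⊢
        rw [hd] at h2
        exact h2.left_of_append.right_of_append
      · intro i hi
        have h6 := h4 i (by rw [hd]; simp [hi])
        rw [Bd] at hM
        omega
  | succ a ih =>
    intro hq hM
    have hqa : 2 + (1 + a) * (2 * h) + 2 + 2 * h ≤ q := by
      have : (1 + (a + 1)) * (2 * h) = (1 + a) * (2 * h) + 2 * h := by ring
      omega
    obtain ⟨s, z, R, h1, h2, h3, h4⟩ := ih (by omega) ((Bd_le q0 hq0 a).trans_lt hM)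
    obtain ⟨R', h5, h6, h7, h8⟩ := step hh hH hN hR s z (Bd q0 a) R (by
        rw [h1, Nat.add_mod, Nat.mul_mod]; simp) h2 h3 h4 (by rw [h1]; omega) (by
        rw [Bd] at hM; exact hM)
    have hne : R' ≠ [] := by
      rintro rfl
      simp at h5
      omega
    obtain ⟨z', R'', rfl⟩ := List.exists_cons_of_ne_nil hne
    refine ⟨!s, z', R'', ?_, ?_, h7, h8⟩
    · rw [h5, h1]
      ring
    · rw [Bd]
      exact h6

/-- The bipartite graph on two copies of the group `Γ`, where `(x, true)` is adjacent to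
`(x s, false)` for all `x ∈ Γ` and `s ∈ T`. -/
def haar {Γ : Type*} [Group Γ] (T : Set Γ) : SimpleGraph (Γ × Bool) where
  Adj x y := (x.2 = true ∧ y.2 = false ∧ x.1⁻¹ * y.1 ∈ T) ∨
    (y.2 = true ∧ x.2 = false ∧ y.1⁻¹ * x.1 ∈ T)
  symm := ⟨fun _ _ h => h.symm⟩
  loopless := ⟨fun x h => by rcases h with ⟨h1, h2, _⟩ | ⟨h1, h2, _⟩ <;> simp [h1] at h2⟩

theorem haar_adj {Γ : Type*} [Group Γ] (T : Set Γ) (t : ℕ → Γ) (x : Γ) (s : Bool) (i : ℕ)
    (hi : t i ∈ T) : (haar T).Adj (x, s) (x * vl t s i, !s) := by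
  cases s
  · right
    simp [vl, hi]
  · left
    simp [vl, hi]

/-- the cycle -/
theorem embed {Γ : Type*} [Group Γ] (T : Set Γ) (t : ℕ → Γ) (s : Bool) (R : List ℕ)
    (hn : 3 ≤ R.length) (he : R.length % 2 = 0) (hT : ∀ i ∈ R, t i ∈ T) (hv : val t s R = 1)
    (hS : Simp t s R) : cycleGraph R.length ⊑ haar T := by
  have hadj : ∀ i (hi : i < R.length), (haar T).Adj (val t s (R.take i), sd s i)
      (val t s (R.take (i + 1)), sd s (i + 1)) := by
    intro i hi
    have h1 : R.take (i + 1) = R.take i ++ [R[i]] := by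
      rw [List.take_append_getElem]
    have h2 : (R.take i).length = i := by
      rw [List.length_take]
      omega
    have h3 : sd s (i + 1) = !(sd s i) := by
      rw [sd_add]
      rfl
    rw [h1, val_append, h2, val_cons, val_nil, mul_one, h3]
    exact haar_adj T t _ _ _ (hT _ (List.getElem_mem _))
  refine cycle_of_fun (haar T) R.length hn (fun i => (val t s (R.take i), sd s i)) ?_ ?_ ?_
  · intro i hi
    exact hadj i (by omega)
  · have h1 := hadj (R.length - 1) (by omega)
    rw [Nat.sub_add_cancel (by omega), List.take_length, hv, sd_even _ _ he] at h1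
    simp only [List.take_zero, val_nil, sd]
    exact h1
  · intro i j hij hj heq
    rw [Prod.mk.injEq] at heq
    obtain ⟨h1, h2⟩ := heq
    have h3 : sd s j = sd (sd s i) (j - i) := by
      rw [← sd_add]
      congr 1
      omega
    have h4 : (j - i) % 2 = 0 := by
      by_contra hcon
      rw [sd_odd (sd s i) (j - i) (by omega), h2] at h3
      cases hx : sd s j <;> simp [hx] at h3
    have h5 : R.take j = R.take i ++ (R.take j).drop i := by
      conv_lhs => rw [← List.take_append_drop i (R.take j)]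
      rw [List.take_take, min_eq_left hij.le]
    have h6 : R = R.take i ++ (R.take j).drop i ++ R.drop j := by
      rw [← h5, List.take_append_drop]
    have h7 : (R.take i).length = i := by
      rw [List.length_take]
      omega
    have h8 : ((R.take j).drop i).length = j - i := by
      rw [List.length_drop, List.length_take]
      omega
    refine hS (R.take i) ((R.take j).drop i) (R.drop j) h6 ?_ (by rw [h8]; exact h4) ?_ ?_
    · intro h9
      rw [h9] at h8
      simp at h8
      omega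
    · intro h9
      have h10 := congrArg List.length h9
      simp only [List.length_append, List.length_drop, List.length_nil] at h10
      omega
    · rw [h5, val_append, h7] at h1
      rw [h7]
      exact (mul_eq_left.mp h1.symm)

/-- Even cycles in graphs built from groups that satisfy a law. -/
theorem law_cycles (w : FreeGroup (Fin 2)) (hw : w ≠ 1) (k : ℕ) (hk : 2 ≤ k)
    (hkq : (w.toWord.length).factorial ∣ k - 1) : ∃ D : ℕ, ∀ (Γ : Type) [Group Γ],
    (∀ φ : FreeGroup (Fin 2) →* Γ, φ w = 1) → ∀ T : Finset Γ, D ≤ T.card →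
    cycleGraph (2 * k) ⊑ haar (T : Set Γ) := by
  obtain ⟨u, hul, hub, huv, hun⟩ := p2 w hw
  set lam := w.toWord.length with hlam
  set q0 := 2 * lam + 3 with hq0
  obtain ⟨N, hN⟩ := p1 (Bd q0 k + q0 + 1) (2 * k + 2 * lam + 4)
  refine ⟨N, fun Γ _ hlaw T hT => ?_⟩
  obtain ⟨t, ht1, ht2, hH⟩ := hN Γ T hT
  obtain ⟨s', a, b, m, h1, h2, h3, h4, h5, h6⟩ := exist_rel t (fun i : ℕ => FreeGroup.of i)
    u.length true u rfl (by omega) (huv Γ hlaw t) hun
  obtain ⟨h, hh1, hh2, hNS, hR⟩ := exist_min t (Bd q0 k + q0 + 1) (2 * k + 2 * lam + 4) q0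
    (2 * lam) hH ht2 (by omega) (by omega) (by omega) ⟨s', a, b, m, by omega, h2, h3, h4,
      fun i hi => (hub i (h5 i hi)).trans_le (by omega), h6⟩
  have hdvd : h ∣ k - 1 := (Nat.dvd_factorial (n := lam) (by omega) (by omega)).trans hkq
  obtain ⟨c, hc⟩ := hdvd
  have hc1 : 1 ≤ c := by
    rcases Nat.eq_zero_or_pos c with h7 | h7
    · subst h7
      omega
    · exact h7
  obtain ⟨a', rfl⟩ : ∃ a', c = 1 + a' := ⟨c - 1, by omega⟩
  have hlen : 2 + (1 + a') * (2 * h) = 2 * k := by
    have : (1 + a') * (2 * h) = 2 * (h * (1 + a')) := by ring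
    omega
  have hak : a' ≤ k := by nlinarith
  obtain ⟨s, z, R, g1, g2, g3, g4⟩ := chain hh1 hH hNS hR a' (by omega)
    (lt_of_le_of_lt (Bd_mono q0 (by omega) hak) (by omega))
  rw [hlen] at g1
  rw [← g1]
  refine embed (T : Set Γ) t s (z :: R) (by omega) (by omega) (fun i hi => ?_) g3 g4
  have h7 := g2 i hi
  have h8 := Bd_mono q0 (by omega) hak
  exact ht1 i (by omega)

end Pool.Agent.H694R4.Law
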