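import Pool.Agent.H694R4.Law.Defs

/-!
# Laws in several variables give words with alternating exponents
-/

set_option autoImplicit false

namespace Pool.Agent.H694R4.Law

variable {m : ℕ}

/-- block of a letter -/
def mblk (p : Fin m × Bool) : List ℕ := if p.2 then [(p.1 : ℕ) + 1, 0] else [0, (p.1 : ℕ) + 1]

theorem mblk_length (p : Fin m × Bool) : (mblk p).length = 2 := by
  unfold mblk
  split_ifs <;> rfl

theorem mblk_lt (p : Fin m × Bool) : ∀ i ∈ mblk p, i < m + 1 := by
  intro i hi
  unfold mblk at hi
  have := p.1.isLt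
  split_ifs at hi <;> simp at hi <;> omega

theorem mval {Γ : Type*} [Group Γ] (t : ℕ → Γ) (L : List (Fin m × Bool)) :
    val t true (L.flatMap mblk) =
      FreeGroup.lift (fun i : Fin m => t ((i : ℕ) + 1) * (t 0)⁻¹) (FreeGroup.mk L) := by
  rw [FreeGroup.lift_mk]
  induction L with
  | nil => rfl
  | cons p L ih =>
    rw [List.flatMap_cons, List.map_cons, List.prod_cons, ← ih]
    obtain ⟨i, b⟩ := p
    cases b
    · change val t true (([0, (i : ℕ) + 1] : List ℕ) ++ L.flatMap mblk) = _
      simp only [List.cons_append, List.nil_append, val, cond_false]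
      group
    · change val t true (([(i : ℕ) + 1, 0] : List ℕ) ++ L.flatMap mblk) = _
      simp only [List.cons_append, List.nil_append, val, cond_true]
      group

theorem p2m (w : FreeGroup (Fin m)) (hw : w ≠ 1) : ∃ u : List ℕ,
    u.length = 2 * w.toWord.length ∧ (∀ i ∈ u, i < m + 1) ∧
    (∀ (Γ : Type) [Group Γ], (∀ φ : FreeGroup (Fin m) →* Γ, φ w = 1) →
      ∀ t : ℕ → Γ, val t true u = 1) ∧
    val (fun i : ℕ => FreeGroup.of i) true u ≠ 1 := by
  refine ⟨w.toWord.flatMap mblk, ?_, ?_, ?_, ?_⟩
  · generalize w.toWord = L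
    induction L with
    | nil => rfl
    | cons p L ih =>
      rw [List.flatMap_cons, List.length_append, mblk_length, ih, List.length_cons]
      ring
  · intro i hi
    obtain ⟨p, -, hp⟩ := List.mem_flatMap.mp hi
    exact mblk_lt p i hp
  · intro Γ _ h t
    rw [mval, FreeGroup.mk_toWord]
    exact h _
  · intro h
    rw [mval, FreeGroup.mk_toWord] at h
    apply hw
    set F : ℕ → FreeGroup (Fin m) := fun k => if hk : 0 < k ∧ k - 1 < m then
      FreeGroup.of ⟨k - 1, hk.2⟩ else 1 with hF
    have h1 : (FreeGroup.lift F).comp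
        (FreeGroup.lift (fun i : Fin m => FreeGroup.of ((i : ℕ) + 1) * (FreeGroup.of 0)⁻¹)) =
        MonoidHom.id (FreeGroup (Fin m)) := by
      apply FreeGroup.ext_hom
      intro i
      have hi := i.isLt
      have e1 : F ((i : ℕ) + 1) = FreeGroup.of i := by
        simp only [hF]
        rw [dif_pos ⟨by omega, by omega⟩]
        rfl
      have e2 : F 0 = 1 := by
        simp [hF]
      simp [e1, e2]
    have h2 := congrArg (FreeGroup.lift F) h
    rw [map_one] at h2
    have h3 := DFunLike.congr_fun h1 w
    rw [MonoidHom.comp_apply, MonoidHom.id_apply] at h3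
    rw [← h3]
    exact h2

end Pool.Agent.H694R4.Law
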