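import Pool.Agent.H694R4.Law.WDefs

/-!
# Three relators around a vertex: short ends
-/

set_option autoImplicit false

namespace Pool.Agent.H694R4.Law

theorem cr_take {Γ : Type*} [Group Γ] {t : ℕ → Γ} (s : Bool) (u : List ℕ) (n : ℕ) :
    val t s (u.take n) * val t (sd s (u.take n).length) (u.drop n) = val t s u := by
  rw [← val_append, List.take_append_drop]

theorem red_sub {u v : List ℕ} (h : u <:+: v) (hv : Red v) : Red u := by
  obtain ⟨a, b, rfl⟩ := h
  unfold Red at hv ⊢
  exact hv.left_of_append.right_of_append

theorem red_rev {u : List ℕ} (hu : Red u) : Red u.reverse := by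
  unfold Red at hu ⊢
  rw [List.isChain_reverse]
  exact hu.imp fun _ _ hh => hh.symm

theorem wh_cr : StCR := by
  intro Γ _ t M h g x1 x2 x3 m12 m23 m13 W X E hP hX hE
  obtain ⟨hh, ns, l12, l23, l13, c12, c23, c13, r12, r23, r13, b12, b23, b13, d1, d2, d3, n12,
    n23, n13⟩ := W
  obtain ⟨z, mt, rfl⟩ : ∃ z mt, m12 = z :: mt := by
    cases m12 with
    | nil => simp at l12; omega
    | cons z mt => exact ⟨z, mt, rfl⟩
  have lmt : mt.length = 2 * h - 1 := by simp at l12; omega
  rw [List.tail_cons] at hP
  have hn0 : 0 < X.length := List.length_pos_iff.mpr hX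
  have hE0 : 0 < E.length := List.length_pos_iff.mpr hE
  have hlen : X.length + E.length = 6 * h - 1 := by
    have := congrArg List.length hP
    simp only [List.length_append, List.length_reverse, l13, l23, lmt] at this
    omega
  have hXP : X = (m13 ++ (m23.reverse ++ mt.reverse)).take X.length := by
    rw [hP, List.take_left]
  generalize hn : X.length = n at hn0 hlen hXP
  -- heads
  obtain ⟨c1, k1, e1⟩ : ∃ c k, m13 = c :: k := by
    cases m13 with
    | nil => simp at l13; omega
    | cons z mt => exact ⟨z, mt, rfl⟩
  obtain ⟨c2, k2, e2⟩ : ∃ c k, m23 = c :: k := by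
    cases m23 with
    | nil => simp at l23; omega
    | cons z mt => exact ⟨z, mt, rfl⟩
  obtain ⟨c3, k3, e3⟩ : ∃ c k, mt = c :: k := by
    cases mt with
    | nil => simp at lmt; omega
    | cons z mt => exact ⟨z, mt, rfl⟩
  have hz1 : x1 ≠ z := by
    have := r12
    simp only [Red, List.cons_append, List.isChain_cons_cons] at this
    exact this.1
  have hz3 : z ≠ c3 := by
    have := r12
    rw [e3] at this
    simp only [Red, List.cons_append, List.isChain_cons_cons] at this
    exact this.2.1
  have h2c : x2 ≠ c2 := by
    have := r23
    rw [e2] at this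
    simp only [Red, List.cons_append, List.isChain_cons_cons] at this
    exact this.1
  have hzc1 : z ≠ c1 := by
    intro hh
    have := d1 z (by simp) (by rw [e1, hh]; simp)
    exact hz1 this.symm
  have hzx3 : z ≠ x3 := by
    intro hh
    have := d1 z (by simp) (by rw [hh]; simp)
    exact hz1 this.symm
  have hc2x1 : c2 ≠ x1 := by
    intro hh
    exact n12 (d2 x1 (by simp) (by rw [e2, hh]; simp))
  have hzc2 : z ≠ c2 := by
    intro hh
    have := d2 z (by simp) (by rw [e2, hh]; simp)
    exact h2c (by rw [← this, hh])
  -- values
  have v13 : val t (!g) m13 = (vl t g x1)⁻¹ * vl t g x3 := by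
    rw [val_cons, val_append, val_cons, val_nil, mul_one, sd_even _ _ (by omega), vl_not,
      ← mul_assoc, mul_inv_eq_one] at c13
    rw [← c13, inv_mul_cancel_left]
  have v23 : val t (!g) m23 = (vl t g x2)⁻¹ * vl t g x3 := by
    rw [val_cons, val_append, val_cons, val_nil, mul_one, sd_even _ _ (by omega), vl_not,
      ← mul_assoc, mul_inv_eq_one] at c23
    rw [← c23, inv_mul_cancel_left]
  have v12 : val t (!g) (z :: mt) = (vl t g x1)⁻¹ * vl t g x2 := by
    rw [val_cons, val_append, val_cons _ x2 [], val_nil, mul_one, sd_even _ _ (by omega), vl_not,
      ← mul_assoc, mul_inv_eq_one] at c12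
    rw [← c12, inv_mul_cancel_left]
  have v12' : val t g mt = vl t g z * ((vl t g x1)⁻¹ * vl t g x2) := by
    rw [val_cons, vl_not, Bool.not_not] at v12
    rw [← v12, mul_inv_cancel_left]
  have R13 : Red (m13 ++ [x3]) := r13.tail
  have R23 : Red (m23 ++ [x3]) := r23.tail
  have R12 : Red (mt ++ [x2]) := r12.tail.tail
  rcases le_or_gt n h with h1 | h1
  · -- case 1
    have hX1 : X = m13.take n := by
      rw [hXP, List.take_append_of_le_length (by omega)]
    have hX2 : X = c1 :: k1.take (n - 1) := by
      rw [hX1, e1]
      obtain ⟨k, rfl⟩ : ∃ k, n = k + 1 := ⟨n - 1, by omega⟩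
      rfl
    refine ⟨[], c1, k1.take (n - 1), ?_, ?_, ?_, by simp, by simp, ?_, ?_⟩
    · rw [← hX2]; rfl
    · rw [← hX2, hX1]
      exact red_sub ((List.take_prefix n m13).isInfix.trans (List.prefix_append _ _).isInfix) R13
    · rw [← hX2, hn]
      exact h1
    · simpa using hzc1
    · rw [← hX2, hX1]
      intro i hi
      right; right
      have : i ∈ m13 := List.mem_of_mem_take (by simpa using hi)
      simp [this]
  rcases le_or_gt n (2 * h) with h2 | h2
  · -- case 2
    have hX1 : X = m13.take n := by
      rw [hXP, List.take_append_of_le_length (by omega)]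
    have hlt : (m13.take n).length = n := by rw [List.length_take, l13]; omega
    refine ⟨[x1], x3, (m13.drop n).reverse, ?_, ?_, ?_, by simp, by simpa using n13.symm, ?_, ?_⟩
    · rw [hX1, List.singleton_append, val_cons, val_cons, Bool.not_not, vl_not]
      have h3 := cr_take (t := t) (!g) m13 n
      rw [hlt, v13] at h3
      have h4 := val_reverse (t := t) (sd (!g) n) (m13.drop n)
      rw [← sd_add, sd_even _ _ (by rw [List.length_drop, l13]; omega)] at h4
      rw [h4, ← mul_assoc, ← h3, mul_inv_cancel_right]
    · have : x3 :: (m13.drop n).reverse = (m13.drop n ++ [x3]).reverse := by simp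
      rw [this]
      apply red_rev
      refine red_sub (List.IsSuffix.isInfix ?_) R13
      refine ⟨m13.take n, ?_⟩
      rw [← List.append_assoc, List.take_append_drop]
    · simp only [List.length_cons, List.length_reverse, List.length_drop, l13]
      omega
    · simpa using hzx3
    · intro i hi
      right; right
      simp only [List.singleton_append, List.mem_cons, List.mem_reverse] at hi
      rcases hi with rfl | rfl | hi
      · simp
      · simp
      · have : i ∈ m13 := List.mem_of_mem_drop hi
        simp [this]
  rcases le_or_gt n (4 * h) with h3 | h3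
  · -- cases 3, 4, 5
    obtain ⟨i, hi⟩ : ∃ i, n = 2 * h + i := ⟨n - 2 * h, by omega⟩
    have hX1 : X = m13 ++ m23.reverse.take i := by
      rw [hXP, List.take_append, List.take_of_length_le (by omega), l13,
        List.take_append_of_le_length (by rw [List.length_reverse, l23]; omega)]
      congr 2
      omega
    have hvX : val t (!g) X = (vl t g x1)⁻¹ * (vl t g x3 * val t (!g) (m23.reverse.take i)) := by
      rw [hX1, val_append, v13, sd_even _ _ (by omega), mul_assoc]
    have hrt : m23.reverse.take i = (m23.drop (2 * h - i)).reverse := by
      rw [List.take_reverse, l23]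
    rcases lt_or_ge n (3 * h) with h4 | h4
    · -- case 3
      refine ⟨[x1], x3, m23.reverse.take i, ?_, ?_, ?_, by simp, by simpa using n13.symm, ?_, ?_⟩
      · rw [hvX, List.singleton_append, val_cons, val_cons, Bool.not_not, vl_not]
      · have : x3 :: m23.reverse.take i <+: x3 :: m23.reverse := by
          rw [List.cons_prefix_cons]
          exact ⟨rfl, List.take_prefix _ _⟩
        have h6 : x3 :: m23.reverse = (m23 ++ [x3]).reverse := by simp
        rw [h6] at this
        exact red_sub this.isInfix (red_rev R23)
      · simp only [List.length_cons, List.length_take, List.length_reverse, l23]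
        omega
      · simpa using hzx3
      · intro j hj
        simp only [List.singleton_append, List.mem_cons] at hj
        rcases hj with rfl | rfl | hj
        · left; simp
        · right; right; simp
        · right; left
          have : j ∈ m23 := List.mem_reverse.mp (List.mem_of_mem_take hj)
          simp [this]
    rcases eq_or_lt_of_le h3 with h5 | h5
    · -- case 5
      have h6 : m23.reverse.take i = m23.reverse := List.take_of_length_le (by
        rw [List.length_reverse, l23]; omega)
      refine ⟨[], x1, [x2], ?_, ?_, ?_, by simp, by simp, ?_, ?_⟩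
      · rw [hvX, h6, List.nil_append, val_cons, val_cons, val_nil, Bool.not_not, vl_not, mul_one]
        have h7 := val_reverse (t := t) (!g) m23
        rw [sd_even _ _ (by omega)] at h7
        rw [h7, v23]
        group
      · simp [Red, n12]
      · simp only [List.length_cons, List.length_nil]
        omega
      · simpa using hz1.symm
      · intro j hj
        simp only [List.nil_append, List.mem_cons, List.not_mem_nil, or_false] at hj
        rcases hj with rfl | rfl
        · left; simp
        · left; simp
    · -- case 4
      have h6 : m23.take (2 * h - i) = c2 :: k2.take (2 * h - i - 1) := by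
        rw [e2]
        obtain ⟨k, hk⟩ : ∃ k, 2 * h - i = k + 1 := ⟨2 * h - i - 1, by omega⟩
        rw [hk]
        rfl
      refine ⟨[x1, x2], c2, k2.take (2 * h - i - 1), ?_, ?_, ?_, by simp, ?_, ?_, ?_⟩
      · rw [hvX, hrt, ← h6]
        have h7 := cr_take (t := t) (!g) m23 (2 * h - i)
        rw [v23, List.length_take, l23, min_eq_left (by omega)] at h7
        have h8 := val_reverse (t := t) (sd (!g) (2 * h - i)) (m23.drop (2 * h - i))
        rw [← sd_add, sd_even _ _ (by rw [List.length_drop, l23]; omega)] at h8
        rw [h8]
        show _ = val t (!g) (x1 :: x2 :: m23.take (2 * h - i))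
        rw [val_cons, val_cons, Bool.not_not, vl_not]
        have h9 : vl t g x3 = vl t g x2 * (val t (!g) (m23.take (2 * h - i)) *
            val t (sd (!g) (2 * h - i)) (m23.drop (2 * h - i))) := by
          rw [h7]
          group
        rw [h9]
        group
      · rw [← h6]
        exact red_sub ((List.take_prefix _ m23).isInfix.trans (List.prefix_append _ _).isInfix) R23
      · rw [← h6, List.length_take, l23]
        omega
      · simp only [List.mem_cons, List.not_mem_nil, or_false, not_or]
        exact ⟨hc2x1, h2c.symm⟩
      · simpa using hzc2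
      · rw [← h6]
        intro j hj
        rw [List.mem_append] at hj
        rcases hj with hj | hj
        · left
          simp only [List.mem_cons, List.not_mem_nil, or_false] at hj
          rcases hj with rfl | rfl
          · simp
          · simp
        · right; left
          have : j ∈ m23 := List.mem_of_mem_take hj
          simp [this]
  · -- cases 6, 7
    obtain ⟨i, hi⟩ : ∃ i, n = 4 * h + i := ⟨n - 4 * h, by omega⟩
    have hX1 : X = m13 ++ (m23.reverse ++ mt.reverse.take i) := by
      rw [hXP, List.take_append, List.take_of_length_le (by omega), l13, List.take_append,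
        List.take_of_length_le (by rw [List.length_reverse, l23]; omega), List.length_reverse, l23]
      congr 3
      omega
    have hvX : val t (!g) X = (vl t g x1)⁻¹ * (vl t g x2 * val t (!g) (mt.reverse.take i)) := by
      rw [hX1, val_append, v13, sd_even _ _ (by omega), val_append]
      have h7 := val_reverse (t := t) (!g) m23
      rw [sd_even _ _ (by omega)] at h7
      rw [h7, v23, sd_even _ _ (by rw [List.length_reverse]; omega)]
      group
    have hrt : mt.reverse.take i = (mt.drop (2 * h - 1 - i)).reverse := by
      rw [List.take_reverse, lmt]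
    rcases le_or_gt (i + 2) h with h4 | h4
    · -- case 6
      refine ⟨[], x1, x2 :: mt.reverse.take i, ?_, ?_, ?_, by simp, by simp, ?_, ?_⟩
      · rw [hvX, List.nil_append, val_cons, val_cons, Bool.not_not, vl_not]
      · have : x2 :: mt.reverse.take i <+: x2 :: mt.reverse := by
          rw [List.cons_prefix_cons]
          exact ⟨rfl, List.take_prefix _ _⟩
        have h6 : x2 :: mt.reverse = (mt ++ [x2]).reverse := by simp
        rw [h6] at this
        have h7 : Red (x2 :: mt.reverse.take i) := red_sub this.isInfix (red_rev R12)
        unfold Red at h7 ⊢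
        rw [List.isChain_cons_cons]
        exact ⟨n12, h7⟩
      · simp only [List.length_cons, List.length_take, List.length_reverse, lmt]
        omega
      · simpa using hz1.symm
      · intro j hj
        left
        simp only [List.nil_append, List.mem_cons] at hj
        rcases hj with rfl | rfl | hj
        · simp
        · simp
        · have : j ∈ mt := List.mem_reverse.mp (List.mem_of_mem_take hj)
          simp [this]
    · -- case 7
      have h6 : mt.take (2 * h - 1 - i) = c3 :: k3.take (2 * h - 1 - i - 1) := by
        rw [e3]
        obtain ⟨k, hk⟩ : ∃ k, 2 * h - 1 - i = k + 1 := ⟨2 * h - 1 - i - 1, by omega⟩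
        rw [hk]
        rfl
      refine ⟨[z], c3, k3.take (2 * h - 1 - i - 1), ?_, ?_, ?_, by simp, ?_, ?_, ?_⟩
      · rw [hvX, hrt, ← h6]
        have h7 := cr_take (t := t) g mt (2 * h - 1 - i)
        rw [v12', List.length_take, lmt, min_eq_left (by omega)] at h7
        have h8 := val_reverse (t := t) (sd g (2 * h - 1 - i)) (mt.drop (2 * h - 1 - i))
        rw [← sd_add, sd_odd _ _ (by rw [List.length_drop, lmt]; omega)] at h8
        rw [h8]
        show _ = val t (!g) (z :: mt.take (2 * h - 1 - i))
        rw [val_cons, Bool.not_not, vl_not]
        have h9 : vl t g x2 = vl t g x1 * ((vl t g z)⁻¹ * (val t g (mt.take (2 * h - 1 - i)) *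
            val t (sd g (2 * h - 1 - i)) (mt.drop (2 * h - 1 - i)))) := by
          rw [h7]
          group
        rw [h9]
        group
      · rw [← h6]
        exact red_sub ((List.take_prefix _ mt).isInfix.trans (List.prefix_append _ _).isInfix) R12
      · rw [← h6, List.length_take, lmt]
        omega
      · simpa using hz3.symm
      · simpa using hz3
      · rw [← h6]
        intro j hj
        left
        rw [List.mem_append] at hj
        rcases hj with hj | hj
        · simp only [List.mem_cons, List.not_mem_nil, or_false] at hj
          rw [hj]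
          simp
        · have : j ∈ mt := List.mem_of_mem_take hj
          simp [this]

end Pool.Agent.H694R4.Law
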