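import Pool.Agent.H694R4.Law.WDefs

set_option autoImplicit false

namespace Pool.Agent.H694R4.Law

namespace WInaux

variable {Γ : Type} [Group Γ] {t : ℕ → Γ}

theorem rev (g : Bool) (x y : ℕ) (m : List ℕ) (hm : m.length % 2 = 0)
    (h : val t g (x :: (m ++ [y])) = 1) : val t g (y :: (m.reverse ++ [x])) = 1 := by
  have h1 := val_reverse (t := t) g (x :: (m ++ [y]))
  rw [h, inv_one, sd_even _ _ (by simp; omega)] at h1
  have e : (x :: (m ++ [y])).reverse = y :: (m.reverse ++ [x]) := by simp
  rw [e] at h1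
  exact h1

theorem close (g : Bool) (x y : ℕ) (m : List ℕ) (hm : m.length % 2 = 0)
    (h : val t g (x :: (m ++ [y])) = 1) (j : ℕ) (hj : j ≤ m.length) :
    val t g (x :: m.take j) = val t g (y :: m.reverse.take (m.length - j)) := by
  have e1 : x :: (m ++ [y]) = (x :: m.take j) ++ (m.drop j ++ [y]) := by
    rw [List.cons_append, ← List.append_assoc, List.take_append_drop]
  have h1 := val_reverse (t := t) (sd g (x :: m.take j).length) (m.drop j ++ [y])
  rw [e1, val_append] at h
  have h2 : val t g (x :: m.take j) =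
      (val t (sd g (x :: m.take j).length) (m.drop j ++ [y]))⁻¹ :=
    eq_inv_of_mul_eq_one_left h
  have e2 : (m.drop j ++ [y]).reverse = y :: m.reverse.take (m.length - j) := by
    rw [List.reverse_append, List.take_reverse, Nat.sub_sub_self hj]
    rfl
  rw [h2, ← h1, ← sd_add, e2]
  rw [sd_even]
  simp only [List.length_cons, List.length_append, List.length_take, List.length_drop,
    List.length_nil]
  omega

structure D (M h x : ℕ) (m : List ℕ) (a : ℕ) : Prop where
  len : m.length = 2 * h
  hd : ∃ r, m = a :: r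
  red : Red (x :: m)
  bd : ∀ i ∈ x :: m, i < M

theorem red_take {x : ℕ} {m : List ℕ} (h : Red (x :: m)) (i : ℕ) : Red (x :: m.take i) := by
  unfold Red at *
  have e : x :: m = (x :: m.take i) ++ m.drop i := by
    rw [List.cons_append, List.take_append_drop]
  rw [e] at h
  exact (List.isChain_append.mp h).1

theorem red_tail {x : ℕ} {m : List ℕ} (h : Red (x :: m)) : Red m := by
  unfold Red at *
  have := h.tail
  simpa using this

theorem key {M h : ℕ} (ns : NoShort t M (2 * h + 2)) {g : Bool} {x x' a a' : ℕ}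
    {m m' : List ℕ} {i i' : ℕ} (d : D M h x m a) (d' : D M h x' m' a') (hi : i ≤ h) (hi' : i' ≤ h)
    (hp : (i + i') % 2 = 0) (hs : i + i' < 2 * h ∨ x = x')
    (hv : val t g (x :: m.take i) = val t g (x' :: m'.take i')) :
    x = x' ∧ m.take i = m'.take i' := by
  have hl : (m.take i).length = i := by rw [List.length_take, d.len]; omega
  have hl' : (m'.take i').length = i' := by rw [List.length_take, d'.len]; omega
  have hb : ∀ j ∈ x :: m.take i, j < M := by
    intro j hj
    apply d.bd j
    rcases List.mem_cons.mp hj with h1 | h1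
    · rw [h1]; exact List.mem_cons_self
    · exact List.mem_cons_of_mem _ (List.mem_of_mem_take h1)
  have hb' : ∀ j ∈ x' :: m'.take i', j < M := by
    intro j hj
    apply d'.bd j
    rcases List.mem_cons.mp hj with h1 | h1
    · rw [h1]; exact List.mem_cons_self
    · exact List.mem_cons_of_mem _ (List.mem_of_mem_take h1)
  by_cases hx : x = x'
  · subst hx
    refine ⟨rfl, ?_⟩
    rw [val_cons, val_cons] at hv
    exact ns.eq _ _ _ (red_tail (red_take d.red i)) (red_tail (red_take d'.red i'))
      (by rw [hl, hl']; omega) (by rw [hl, hl']; omega)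
      (fun j hj => hb j (List.mem_cons_of_mem _ hj)) (fun j hj => hb' j (List.mem_cons_of_mem _ hj))
      (mul_left_cancel hv)
  · have hs' := hs.resolve_right hx
    have h1 := ns.eq _ _ _ (red_take d.red i) (red_take d'.red i')
      (by rw [List.length_cons, List.length_cons, hl, hl']; omega)
      (by rw [List.length_cons, List.length_cons, hl, hl']; omega) hb hb' hv
    exact ⟨(List.cons.inj h1).1, (List.cons.inj h1).2⟩

theorem same {M h : ℕ} (ns : NoShort t M (2 * h + 2)) {g : Bool} {x a : ℕ}
    {m : List ℕ} {i i' : ℕ} (d : D M h x m a) (hi : i ≤ h) (hi' : i' ≤ h)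
    (hp : (i + i') % 2 = 0)
    (hv : val t g (x :: m.take i) = val t g (x :: m.take i')) : i = i' := by
  have h1 := (key ns d d hi hi' hp (Or.inr rfl) hv).2
  have hl : (m.take i).length = i := by rw [List.length_take, d.len]; omega
  have hl' : (m.take i').length = i' := by rw [List.length_take, d.len]; omega
  rw [← hl, h1, hl']

theorem clash {M h : ℕ} (ns : NoShort t M (2 * h + 2)) {g : Bool} {x x' a a' : ℕ}
    {m m' : List ℕ} {i i' : ℕ} (d : D M h x m a) (d' : D M h x' m' a') (hi : i ≤ h) (hi' : i' ≤ h)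
    (hp : (i + i') % 2 = 0) (hs : i + i' < 2 * h ∨ x = x')
    (hc : x ≠ x' ∨ (a ≠ a' ∧ (1 ≤ i ∨ 1 ≤ i')))
    (hv : val t g (x :: m.take i) = val t g (x' :: m'.take i')) : False := by
  obtain ⟨h1, h2⟩ := key ns d d' hi hi' hp hs hv
  rcases hc with hc | ⟨hc, hii⟩
  · exact hc h1
  · have hl : (m.take i).length = i := by rw [List.length_take, d.len]; omega
    have hl' : (m'.take i').length = i' := by rw [List.length_take, d'.len]; omega
    have e : i = i' := by rw [← hl, h2, hl']
    subst e
    obtain ⟨r, hr⟩ := d.hd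
    obtain ⟨r', hr'⟩ := d'.hd
    obtain ⟨k, rfl⟩ : ∃ k, i = k + 1 := ⟨i - 1, by omega⟩
    rw [hr, hr', List.take_succ_cons, List.take_succ_cons] at h2
    exact hc (List.cons.inj h2).1

theorem mkD {M h x y : ℕ} {m : List ℕ} (hh : 2 ≤ h) (hl : m.length = 2 * h)
    (hr : Red (x :: (m ++ [y]))) (hb : ∀ i ∈ x :: (m ++ [y]), i < M) :
    ∃ a, D M h x m a ∧ a ≠ x ∧ a ∈ m := by
  rcases m with _ | ⟨a, r⟩
  · simp at hl; omega
  · refine ⟨a, ⟨hl, ⟨r, rfl⟩, ?_, ?_⟩, ?_, by simp⟩
    · unfold Red at *
      have e : x :: (a :: r ++ [y]) = (x :: a :: r) ++ [y] := rfl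
      rw [e] at hr
      exact (List.isChain_append.mp hr).1
    · intro i hi
      apply hb i
      rcases List.mem_cons.mp hi with h1 | h1
      · rw [h1]; exact List.mem_cons_self
      · exact List.mem_cons_of_mem _ (List.mem_append_left _ h1)
    · unfold Red at hr
      rw [List.cons_append, List.isChain_cons_cons] at hr
      exact hr.1.symm

theorem redrev {x y : ℕ} {m : List ℕ} (hr : Red (x :: (m ++ [y]))) :
    Red (y :: (m.reverse ++ [x])) := by
  have e : y :: (m.reverse ++ [x]) = (x :: (m ++ [y])).reverse := by simp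
  rw [e]
  unfold Red at *
  rw [List.isChain_reverse]
  exact hr.imp fun _ _ hh => hh.symm

theorem memrev {x y i : ℕ} {m : List ℕ} (h : i ∈ y :: (m.reverse ++ [x])) :
    i ∈ x :: (m ++ [y]) := by
  simp at h ⊢
  tauto

end WInaux

open WInaux in
theorem wh_in : StIN := by
  intro Γ _ t M h g x1 x2 x3 m12 m23 m13 W Y A E hP hA hAe hval
  have hh := W.hh
  have ns := W.ns
  obtain ⟨a13, hD1, a13x, a13m⟩ := mkD hh W.l13 W.r13 W.b13
  obtain ⟨e13, hD2, e13x, e13m⟩ := mkD hh (by rw [List.length_reverse]; exact W.l13)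
    (redrev W.r13) (fun i hi => W.b13 i (memrev hi))
  obtain ⟨e23, hD3, e23x, e23m⟩ := mkD hh (by rw [List.length_reverse]; exact W.l23)
    (redrev W.r23) (fun i hi => W.b23 i (memrev hi))
  obtain ⟨a23, hD4, a23x, a23m⟩ := mkD hh W.l23 W.r23 W.b23
  obtain ⟨e12, hD5, e12x, e12m⟩ := mkD hh (by rw [List.length_reverse]; exact W.l12)
    (redrev W.r12) (fun i hi => W.b12 i (memrev hi))
  obtain ⟨a12, hD6, a12x, a12m⟩ := mkD hh W.l12 W.r12 W.b12
  have n12 := W.n12
  have n21 := W.n12.symm
  have n23 := W.n23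
  have n32 := W.n23.symm
  have n13 := W.n13
  have n31 := W.n13.symm
  rw [List.mem_reverse] at e13m e23m e12m
  have hin : ∀ {i x y : ℕ} {m : List ℕ}, i ∈ m → i ∈ x :: (m ++ [y]) := by
    intro i x y m hi
    exact List.mem_cons_of_mem _ (List.mem_append_left _ hi)
  have aa : a13 ≠ a12 := by
    intro hc
    exact a12x (W.d1 a12 (hin a12m) (hc ▸ hin a13m))
  have ee : e13 ≠ e23 := by
    intro hc
    exact e13x (W.d3 e13 (hin e13m) (hc ▸ hin e23m))
  have ae : a23 ≠ e12 := by
    intro hc
    exact e12x (W.d2 e12 (hin e12m) (hc ▸ hin a23m))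
  have m13e : m13.length % 2 = 0 := by rw [W.l13]; omega
  have m23e : m23.length % 2 = 0 := by rw [W.l23]; omega
  have m12e : m12.length % 2 = 0 := by rw [W.l12]; omega
  have m23e' : m23.reverse.length % 2 = 0 := by rw [List.length_reverse]; exact m23e
  have m12e' : m12.reverse.length % 2 = 0 := by rw [List.length_reverse]; exact m12e
  have c32 := rev g x2 x3 m23 m23e W.c23
  have c21 := rev g x1 x2 m12 m12e W.c12
  -- the full boundary
  obtain ⟨V, hV⟩ : ∃ V : ℕ → Γ, ∀ n, V n =
      vl t g x1 * val t (!g) ((m13 ++ (m23.reverse ++ m12.reverse)).take n) := ⟨_, fun _ => rfl⟩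
  have l13 := W.l13
  have l23 : m23.reverse.length = 2 * h := by rw [List.length_reverse]; exact W.l23
  have l12 : m12.reverse.length = 2 * h := by rw [List.length_reverse]; exact W.l12
  have R1 : ∀ i ≤ 2 * h, V i = val t g (x1 :: m13.take i) := by
    intro i hi
    rw [hV, List.take_append_of_le_length (by omega), val_cons]
  have v13 : vl t g x1 * val t (!g) m13 = vl t g x3 := by
    have h1 := close g x1 x3 m13 m13e W.c13 m13.length le_rfl
    rw [List.take_length, Nat.sub_self, List.take_zero, val_cons, val_cons, val_nil, mul_one] at h1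
    exact h1
  have v32 : vl t g x3 * val t (!g) m23.reverse = vl t g x2 := by
    have h1 := close g x3 x2 m23.reverse m23e' c32 m23.reverse.length le_rfl
    rw [List.take_length, Nat.sub_self, List.take_zero, val_cons, val_cons, val_nil, mul_one] at h1
    exact h1
  have R2 : ∀ i ≤ 2 * h, V (2 * h - i) = val t g (x3 :: m13.reverse.take i) := by
    intro i hi
    rw [R1 _ (by omega), close g x1 x3 m13 m13e W.c13 (2 * h - i) (by omega), l13,
      Nat.sub_sub_self hi]
  have R3 : ∀ i ≤ 2 * h, V (2 * h + i) = val t g (x3 :: m23.reverse.take i) := by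
    intro i hi
    rw [hV, ← l13, List.take_length_add_append, List.take_append_of_le_length (by omega),
      val_append, sd_even _ _ m13e, ← mul_assoc, v13, val_cons]
  have R4 : ∀ i ≤ 2 * h, V (4 * h - i) = val t g (x2 :: m23.take i) := by
    intro i hi
    have e : 4 * h - i = 2 * h + (2 * h - i) := by omega
    rw [e, R3 _ (by omega), close g x3 x2 m23.reverse m23e' c32 (2 * h - i) (by omega), l23,
      Nat.sub_sub_self hi, List.reverse_reverse]
  have R5 : ∀ i ≤ 2 * h, V (4 * h + i) = val t g (x2 :: m12.reverse.take i) := by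
    intro i hi
    have e : 4 * h + i = m13.length + (m23.reverse.length + i) := by omega
    rw [hV, e, List.take_length_add_append, List.take_length_add_append,
      val_append, sd_even _ _ m13e, ← mul_assoc, v13, val_append, sd_even _ _ m23e', ← mul_assoc,
      v32, val_cons]
  have R6 : ∀ i ≤ 2 * h, V (6 * h - i) = val t g (x1 :: m12.take i) := by
    intro i hi
    have e : 6 * h - i = 4 * h + (2 * h - i) := by omega
    rw [e, R5 _ (by omega), close g x2 x1 m12.reverse m12e' c21 (2 * h - i) (by omega), l12,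
      Nat.sub_sub_self hi, List.reverse_reverse]
  -- the two positions
  have hlen : Y.length + A.length + E.length = 6 * h - 1 := by
    have h1 := congrArg List.length hP
    simp only [List.length_append, List.length_reverse, List.length_tail, W.l13, W.l23, W.l12]
      at h1
    omega
  have hA1 : 1 ≤ A.length := by
    rcases A with _ | ⟨a, A⟩
    · exact absurd rfl hA
    · simp
  have hfull : m13 ++ (m23.reverse ++ m12.reverse) = Y ++ A ++ (E ++ [a12]) := by
    obtain ⟨r, hr⟩ := hD6.hd
    have e : m12.reverse = m12.tail.reverse ++ [a12] := by rw [hr]; simp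
    rw [e, ← List.append_assoc (Y ++ A), ← hP]
    simp only [List.append_assoc]
  obtain ⟨n, hn⟩ : ∃ n, n = Y.length := ⟨_, rfl⟩
  obtain ⟨n', hn'⟩ : ∃ n', n' = Y.length + A.length := ⟨_, rfl⟩
  have hVV : V n = V n' := by
    rw [hV, hV, hfull]
    have e1 : (Y ++ A ++ (E ++ [a12])).take n = Y := by
      rw [hn, List.append_assoc, List.take_append_of_le_length le_rfl, List.take_length]
    have e2 : (Y ++ A ++ (E ++ [a12])).take n' = Y ++ A := by
      rw [hn', ← List.length_append, List.take_append_of_le_length le_rfl, List.take_length]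
    rw [e1, e2, val_append, hval, mul_one]
  have hlt : n < n' := by omega
  have hle : n' ≤ 6 * h - 1 := by omega
  have hpar : (n + n') % 2 = 0 := by omega
  clear hn hn' hlen hfull hval hP hV
  have cases6 : ∀ k ≤ 6 * h - 1, (k ≤ h ∧ V k = val t g (x1 :: m13.take k)) ∨
      ((h < k ∧ k ≤ 2 * h) ∧ V k = val t g (x3 :: m13.reverse.take (2 * h - k))) ∨
      ((2 * h < k ∧ k ≤ 3 * h) ∧ V k = val t g (x3 :: m23.reverse.take (k - 2 * h))) ∨
      ((3 * h < k ∧ k ≤ 4 * h) ∧ V k = val t g (x2 :: m23.take (4 * h - k))) ∨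
      ((4 * h < k ∧ k ≤ 5 * h) ∧ V k = val t g (x2 :: m12.reverse.take (k - 4 * h))) ∨
      ((5 * h < k ∧ k ≤ 6 * h - 1) ∧ V k = val t g (x1 :: m12.take (6 * h - k))) := by
    intro k hk
    have hk6 : k ≤ h ∨ (h < k ∧ k ≤ 2 * h) ∨ (2 * h < k ∧ k ≤ 3 * h) ∨ (3 * h < k ∧ k ≤ 4 * h) ∨
      (4 * h < k ∧ k ≤ 5 * h) ∨ (5 * h < k ∧ k ≤ 6 * h - 1) := by omega
    rcases hk6 with h1 | h1 | h1 | h1 | h1 | h1
    · exact Or.inl ⟨h1, R1 k (by omega)⟩
    · refine Or.inr (Or.inl ⟨h1, ?_⟩)
      rw [← R2 (2 * h - k) (by omega), show 2 * h - (2 * h - k) = k by omega]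
    · refine Or.inr (Or.inr (Or.inl ⟨h1, ?_⟩))
      rw [← R3 (k - 2 * h) (by omega), show 2 * h + (k - 2 * h) = k by omega]
    · refine Or.inr (Or.inr (Or.inr (Or.inl ⟨h1, ?_⟩)))
      rw [← R4 (4 * h - k) (by omega), show 4 * h - (4 * h - k) = k by omega]
    · refine Or.inr (Or.inr (Or.inr (Or.inr (Or.inl ⟨h1, ?_⟩))))
      rw [← R5 (k - 4 * h) (by omega), show 4 * h + (k - 4 * h) = k by omega]
    · refine Or.inr (Or.inr (Or.inr (Or.inr (Or.inr ⟨h1, ?_⟩))))
      rw [← R6 (6 * h - k) (by omega), show 6 * h - (6 * h - k) = k by omega]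
  by_cases hs : (n = h ∨ n = 3 * h) ∧ (n' = 3 * h ∨ n' = 5 * h)
  · obtain ⟨hs1, hs2⟩ := hs
    rcases hs1 with hs1 | hs1 <;> rcases hs2 with hs2 | hs2
    · -- h, 3h
      have e1 := R2 h (by omega)
      have e2 := R3 h (by omega)
      rw [show 2 * h - h = n by omega] at e1
      rw [show 2 * h + h = n' by omega] at e2
      exact clash ns hD2 hD3 le_rfl le_rfl (by omega) (Or.inr rfl) (Or.inr ⟨ee, by omega⟩)
        (e1.symm.trans (hVV.trans e2))
    · -- h, 5h
      have e1 := R1 h (by omega)
      have e2 := R6 h (by omega)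
      rw [show V h = V n by rw [hs1]] at e1
      rw [show 6 * h - h = n' by omega] at e2
      exact clash ns hD1 hD6 le_rfl le_rfl (by omega) (Or.inr rfl) (Or.inr ⟨aa, by omega⟩)
        (e1.symm.trans (hVV.trans e2))
    · omega
    · -- 3h, 5h
      have e1 := R4 h (by omega)
      have e2 := R5 h (by omega)
      rw [show 4 * h - h = n by omega] at e1
      rw [show 4 * h + h = n' by omega] at e2
      exact clash ns hD4 hD5 le_rfl le_rfl (by omega) (Or.inr rfl) (Or.inr ⟨ae, by omega⟩)
        (e1.symm.trans (hVV.trans e2))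
  · rcases cases6 n (by omega) with ⟨h1, e1⟩ | ⟨h1, e1⟩ | ⟨h1, e1⟩ | ⟨h1, e1⟩ | ⟨h1, e1⟩ | ⟨h1, e1⟩ <;>
    rcases cases6 n' hle with ⟨h2, e2⟩ | ⟨h2, e2⟩ | ⟨h2, e2⟩ | ⟨h2, e2⟩ | ⟨h2, e2⟩ | ⟨h2, e2⟩ <;>
    first
    | omega
    | (have hv := e1.symm.trans (hVV.trans e2)
       clear R1 R2 R3 R4 R5 R6 cases6 e1 e2 hVV
       first
       | (have hc := same ns hD1 (by omega) (by omega) (by omega) hv; omega)
       | (have hc := same ns hD2 (by omega) (by omega) (by omega) hv; omega)
       | (have hc := same ns hD3 (by omega) (by omega) (by omega) hv; omega)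
       | (have hc := same ns hD4 (by omega) (by omega) (by omega) hv; omega)
       | (have hc := same ns hD5 (by omega) (by omega) (by omega) hv; omega)
       | (have hc := same ns hD6 (by omega) (by omega) (by omega) hv; omega)
       | exact clash ns hD1 hD2 (by omega) (by omega) (by omega) (Or.inl (by omega)) (Or.inl n13) hv
       | exact clash ns hD1 hD3 (by omega) (by omega) (by omega) (Or.inl (by omega)) (Or.inl n13) hv
       | exact clash ns hD1 hD4 (by omega) (by omega) (by omega) (Or.inl (by omega)) (Or.inl n12) hv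
       | exact clash ns hD1 hD5 (by omega) (by omega) (by omega) (Or.inl (by omega)) (Or.inl n12) hv
       | exact clash ns hD1 hD6 (by omega) (by omega) (by omega) (Or.inr rfl)
          (Or.inr ⟨aa, by omega⟩) hv
       | exact clash ns hD2 hD3 (by omega) (by omega) (by omega) (Or.inr rfl)
          (Or.inr ⟨ee, by omega⟩) hv
       | exact clash ns hD2 hD4 (by omega) (by omega) (by omega) (Or.inl (by omega)) (Or.inl n32) hv
       | exact clash ns hD2 hD5 (by omega) (by omega) (by omega) (Or.inl (by omega)) (Or.inl n32) hv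
       | exact clash ns hD2 hD6 (by omega) (by omega) (by omega) (Or.inl (by omega)) (Or.inl n31) hv
       | exact clash ns hD3 hD4 (by omega) (by omega) (by omega) (Or.inl (by omega)) (Or.inl n32) hv
       | exact clash ns hD3 hD5 (by omega) (by omega) (by omega) (Or.inl (by omega)) (Or.inl n32) hv
       | exact clash ns hD3 hD6 (by omega) (by omega) (by omega) (Or.inl (by omega)) (Or.inl n31) hv
       | exact clash ns hD4 hD5 (by omega) (by omega) (by omega) (Or.inr rfl)
          (Or.inr ⟨ae, by omega⟩) hv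
       | exact clash ns hD4 hD6 (by omega) (by omega) (by omega) (Or.inl (by omega)) (Or.inl n21) hv
       | exact clash ns hD5 hD6 (by omega) (by omega) (by omega) (Or.inl (by omega)) (Or.inl n21) hv)

end Pool.Agent.H694R4.Law
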