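import Pool.Agent.H694R4.Law.Fin
import Pool.Agent.H694R4.Law.Wheel
import Pool.Agent.H694R4.Law.WIn
import Pool.Agent.H694R4.Law.WCr
import Pool.Agent.H694R4.Law.P2m

/-!
# All large even cycles in graphs built from groups that satisfy a law
-/

set_option autoImplicit false

namespace Pool.Agent.H694R4.Law

open SimpleGraph

/-- bound for the labels -/
def Be (q0 : ℕ) : ℕ → ℕ
  | 0 => q0
  | j + 1 => 16 * q0 * (q0 + 1) * (Be q0 j + 2)

theorem Be_le (q0 : ℕ) (h : 1 ≤ q0) (a : ℕ) : Be q0 a ≤ Be q0 (a + 1) := by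
  rw [Be]
  have h1 : 1 ≤ 16 * q0 * (q0 + 1) := by nlinarith
  calc Be q0 a ≤ Be q0 a + 2 := by omega
    _ = 1 * (Be q0 a + 2) := (one_mul _).symm
    _ ≤ _ := Nat.mul_le_mul_right _ h1

theorem Be_mono (q0 : ℕ) (h : 1 ≤ q0) {a a' : ℕ} (haa : a ≤ a') : Be q0 a ≤ Be q0 a' := by
  induction a', haa using Nat.le_induction with
  | base => exact le_rfl
  | succ n _ ih => exact ih.trans (Be_le q0 h n)

theorem Bd_le_Be (q0 a : ℕ) : Bd q0 a ≤ Be q0 a := by
  induction a with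
  | zero => exact le_rfl
  | succ n ih =>
    rw [Bd, Be]
    refine Nat.mul_le_mul ?_ (by omega)
    nlinarith

/-- a closed simple word of length `n` with labels less than `B` -/
def Cyc {Γ : Type*} [Group Γ] (t : ℕ → Γ) (B n : ℕ) : Prop :=
  ∃ (s : Bool) (z : ℕ) (R : List ℕ), (z :: R).length = n ∧ (∀ i ∈ z :: R, i < B) ∧
    val t s (z :: R) = 1 ∧ Simp t s (z :: R)

theorem wheels {Γ : Type} [Group Γ] {t : ℕ → Γ} {M q q0 h : ℕ} (_hh : 1 ≤ h) (hH : Homo t M q)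
    (hN : NoShort t M (2 * h + 2)) (hR : Rel t q0 h) (hq0 : 1 ≤ q0) (j n : ℕ) (hn : n % 2 = 0)
    (hc : Cyc t (Be q0 j) n) : ∀ W : ℕ, (W = 0 ∨ 2 ≤ h) → n + W * (6 * h - 2) + 6 * h ≤ q →
    Be q0 (j + W) < M → Cyc t (Be q0 (j + W)) (n + W * (6 * h - 2)) := by
  intro W
  induction W with
  | zero =>
    intro _ _ _
    simpa using hc
  | succ W ih =>
    intro h2 h3 h4
    have hh2 : 2 ≤ h := by
      rcases h2 with h2 | h2
      · omega
      · exact h2
    have h5 : (W + 1) * (6 * h - 2) = W * (6 * h - 2) + (6 * h - 2) := by ring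
    rw [← add_assoc] at h4 ⊢
    obtain ⟨s, z, R, g1, g2, g3, g4⟩ := ih (Or.inr hh2) (by omega)
      ((Be_le q0 hq0 (j + W)).trans_lt h4)
    have hev : (W * (6 * h - 2)) % 2 = 0 := by
      rw [Nat.mul_mod, show (6 * h - 2) % 2 = 0 by omega]
      simp
    obtain ⟨R', r1, r2, r3, r4⟩ := wheel wh_in wh_cr hh2 hH hN hR (!s) z (Be q0 (j + W)) R
      (by rw [g1]; omega) g2 (by rw [Bool.not_not]; exact g3) (by rw [Bool.not_not]; exact g4)
      (by rw [g1]; omega) (by rw [Be] at h4; exact h4)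
    have hne : R' ≠ [] := by
      rintro rfl
      simp at r1
      omega
    obtain ⟨z', R'', rfl⟩ := List.exists_cons_of_ne_nil hne
    refine ⟨!s, z', R'', ?_, ?_, r3, r4⟩
    · rw [r1, g1, h5]
      ring
    · rw [Be]
      exact r2

/-- Even cycles in graphs built from groups that satisfy a law. -/
theorem law_cycles_all {r : ℕ} (w : FreeGroup (Fin r)) (hw : w ≠ 1) (k : ℕ)
    (hk : 3 * w.toWord.length ^ 2 ≤ k) : ∃ D : ℕ, ∀ (Γ : Type) [Group Γ],
    (∀ φ : FreeGroup (Fin r) →* Γ, φ w = 1) → ∀ T : Finset Γ, D ≤ T.card →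
    cycleGraph (2 * k) ⊑ haar (T : Set Γ) := by
  obtain ⟨u, hul, hub, huv, hun⟩ := p2m w hw
  set lam := w.toWord.length with hlam
  set q0 := 2 * lam + r + 3 with hq0
  obtain ⟨N, hN⟩ := p1 (Be q0 k + q0 + 1) (2 * k + 8 * lam + 4)
  refine ⟨N, fun Γ _ hlaw T hT => ?_⟩
  obtain ⟨t, ht1, ht2, hH⟩ := hN Γ T hT
  obtain ⟨s', a, b, m, h1, h2, h3, h4, h5, h6⟩ := exist_rel t (fun i : ℕ => FreeGroup.of i)
    u.length true u rfl (by omega) (huv Γ hlaw t) hun
  obtain ⟨h, hh1, hh2, hNS, hR⟩ := exist_min t (Be q0 k + q0 + 1) (2 * k + 8 * lam + 4) q0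
    (2 * lam) hH ht2 (by omega) (by omega) (by omega) ⟨s', a, b, m, by omega, h2, h3, h4,
      fun i hi => (hub i (h5 i hi)).trans_le (by omega), h6⟩
  have hhl : h + 1 ≤ lam := by omega
  have hk1 : 3 * h ^ 2 + 1 ≤ k := by nlinarith
  have hk2 : 1 ≤ h ^ 2 := Nat.one_le_pow _ _ hh1
  obtain ⟨c, W, hcW, hW⟩ : ∃ c W : ℕ, c * h = k - 1 + W ∧ W < h := by
    have e1 := Nat.div_add_mod (k - 1 + (h - 1)) h
    have e2 := Nat.mod_lt (k - 1 + (h - 1)) (show 0 < h by omega)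
    refine ⟨(k - 1 + (h - 1)) / h, h - 1 - (k - 1 + (h - 1)) % h, ?_, by omega⟩
    rw [mul_comm]
    omega
  have hc1 : 1 + 3 * W ≤ c := by
    have e3 : (1 + 3 * W) * h ≤ c * h := by
      rw [hcW]
      have e4 : W + 1 ≤ h := hW
      have e5 : (1 + 3 * W) * h ≤ 3 * h ^ 2 := by nlinarith
      omega
    exact Nat.le_of_mul_le_mul_right e3 (by omega)
  obtain ⟨a', rfl⟩ : ∃ a', c = 1 + a' + 3 * W := ⟨c - 1 - 3 * W, by omega⟩
  have hlen : 2 + (1 + a') * (2 * h) + W * (6 * h - 2) = 2 * k := by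
    have e6 : W * (6 * h - 2) + W * 2 = W * (6 * h) := by
      rw [← mul_add]
      congr 1
      omega
    have e7 : (1 + a') * (2 * h) + W * (6 * h) = 2 * ((1 + a' + 3 * W) * h) := by ring
    omega
  have hak : a' + W ≤ k := by nlinarith
  have hc : Cyc t (Be q0 a') (2 + (1 + a') * (2 * h)) := by
    obtain ⟨s, z, R, g1, g2, g3, g4⟩ := chain hh1 hH hNS hR a' (by omega)
      (lt_of_le_of_lt ((Bd_le_Be q0 a').trans (Be_mono q0 (by omega)
        (show a' ≤ k by omega))) (by omega))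
    exact ⟨s, z, R, g1, fun i hi => (g2 i hi).trans_le (Bd_le_Be q0 a'), g3, g4⟩
  have hBk := Be_mono q0 (by omega) hak
  obtain ⟨s, z, R, g1, g2, g3, g4⟩ := wheels hh1 hH hNS hR (by omega) a' _ (by
      rw [Nat.add_mod, Nat.mul_mod]; simp) hc W (by omega) (by rw [hlen]; omega) (by omega)
  rw [hlen] at g1
  rw [← g1]
  refine embed (T : Set Γ) t s (z :: R) (by omega) (by omega) (fun i hi => ?_) g3 g4
  have h7 := g2 i hi
  exact ht1 i (by omega)

/-- Even cycles in graphs built from groups that satisfy a law. -/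
theorem law_cycles_div {r : ℕ} (w : FreeGroup (Fin r)) (hw : w ≠ 1) (k : ℕ) (hk : 2 ≤ k)
    (hkq : (w.toWord.length).factorial ∣ k - 1) : ∃ D : ℕ, ∀ (Γ : Type) [Group Γ],
    (∀ φ : FreeGroup (Fin r) →* Γ, φ w = 1) → ∀ T : Finset Γ, D ≤ T.card →
    cycleGraph (2 * k) ⊑ haar (T : Set Γ) := by
  obtain ⟨u, hul, hub, huv, hun⟩ := p2m w hw
  set lam := w.toWord.length with hlam
  set q0 := 2 * lam + r + 3 with hq0
  obtain ⟨N, hN⟩ := p1 (Bd q0 k + q0 + 1) (2 * k + 2 * lam + 4)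
  refine ⟨N, fun Γ _ hlaw T hT => ?_⟩
  obtain ⟨t, ht1, ht2, hH⟩ := hN Γ T hT
  obtain ⟨s', a, b, m, h1, h2, h3, h4, h5, h6⟩ := exist_rel t (fun i : ℕ => FreeGroup.of i)
    u.length true u rfl (by omega) (huv Γ hlaw t) hun
  obtain ⟨h, hh1, hh2, hNS, hR⟩ := exist_min t (Bd q0 k + q0 + 1) (2 * k + 2 * lam + 4) q0
    (2 * lam) hH ht2 (by omega) (by omega) (by omega) ⟨s', a, b, m, by omega, h2, h3, h4,
      fun i hi => (hub i (h5 i hi)).trans_le (by omega), h6⟩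
  have hdvd : h ∣ k - 1 := (Nat.dvd_factorial (n := lam) (by omega) (by omega)).trans hkq
  obtain ⟨c, hc⟩ := hdvd
  have hc1 : 1 ≤ c := by
    rcases Nat.eq_zero_or_pos c with h7 | h7
    · subst h7
      omega
    · exact h7
  obtain ⟨a', rfl⟩ : ∃ a', c = 1 + a' := ⟨c - 1, by omega⟩
  have hlen : 2 + (1 + a') * (2 * h) = 2 * k := by
    have : (1 + a') * (2 * h) = 2 * (h * (1 + a')) := by ring
    omega
  have hak : a' ≤ k := by nlinarith
  obtain ⟨s, z, R, g1, g2, g3, g4⟩ := chain hh1 hH hNS hR a' (by omega)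
    (lt_of_le_of_lt (Bd_mono q0 (by omega) hak) (by omega))
  rw [hlen] at g1
  rw [← g1]
  refine embed (T : Set Γ) t s (z :: R) (by omega) (by omega) (fun i hi => ?_) g3 g4
  have h7 := g2 i hi
  have h8 := Bd_mono q0 (by omega) hak
  exact ht1 i (by omega)

end Pool.Agent.H694R4.Law
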