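import Pool.Agent.H694R4.Law.CDefs

/-!
# The base word has no closed part
-/

set_option autoImplicit false

namespace Pool.Agent.H694R4.Law

theorem baseA_short {Γ : Type*} [Group Γ] {t : ℕ → Γ} {M q h : ℕ} (hc : CritP t M q h)
    (ht1 : ∀ i < M, t i ≠ 1) (hq : 2 * h + 2 ≤ q) (s : Bool) (U : List ℕ) (hU : U ≠ [])
    (hl : U.length ≤ h + 1) (hr : Red U) (hlab : ∀ i ∈ U, i % 2 = 0 ∧ i + 1 < M) :
    val t s U ≠ 1 := by
  rcases U with _ | ⟨x, _ | ⟨c, Q⟩⟩
  · exact absurd rfl hU
  · rw [val_cons, val_nil, mul_one]
    have h1 := (hlab x (by simp)).2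
    have h2 := ht1 x (by omega)
    cases s
    · simpa [vl] using h2
    · simpa [vl] using h2
  · have h1 := hc s [x] Q c hr.tail (by simp at hl ⊢; omega) ?_ (by simpa using hlab)
      (by simp at hl ⊢; omega)
    · simpa using h1
    · intro h2
      rw [List.mem_singleton] at h2
      unfold Red at hr
      rw [List.isChain_cons_cons] at hr
      exact hr.1 h2.symm

theorem baseA : StBaseA := by
  intro Γ _ t M q q0 h hh hH hN hR ht1 hM hq
  obtain ⟨a, Q, hQl, hQr, hQlast, hQb, hQv⟩ := hR true
  have hmono : ∀ i ∈ a :: Q, ∀ j ∈ a :: Q, i < j → 2 * i < 2 * j := by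
    intro i _ j _ hij
    omega
  have hval : val t true ((a :: Q).map fun i => 2 * i) = 1 := by
    refine (hH true (a :: Q) (fun i => 2 * i) ?_ ?_ ?_ hmono).mp hQv
    · simp only [List.length_cons, hQl]; omega
    · intro i hi
      have := hQb i hi
      omega
    · intro i hi
      have := hQb i hi
      show 2 * i < M
      omega
  have hred : Red ((a :: Q).map fun i => 2 * i) := red_map hQr hmono
  have hlab : ∀ i ∈ (a :: Q).map (fun i => 2 * i), i % 2 = 0 ∧ i + 1 < M ∧ i < 4 * q0 := by
    intro i hi
    obtain ⟨j, hj, rfl⟩ := List.mem_map.1 hi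
    have := hQb j hj
    omega
  have hlen : ((a :: Q).map fun i => 2 * i).length = 2 * h + 2 := by
    simp only [List.length_map, List.length_cons, hQl]
  rw [List.map_cons] at hval hred hlab hlen
  refine ⟨2 * a, Q.map fun i => 2 * i, hlen, fun i hi => (hlab i hi).2.2, hval, ?_⟩
  intro C A E hW hA hCE hv
  have hc := critP hH hN
  have hlen2 : C.length + A.length + E.length = 2 * h + 2 := by
    rw [hW] at hlen
    simpa only [List.length_append] using hlen
  have hCE' : 1 ≤ C.length + E.length := by
    have : (C ++ E).length ≠ 0 := fun h0 => hCE (List.length_eq_zero_iff.1 h0)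
    rw [List.length_append] at this
    omega
  have hredW := hred
  rw [hW] at hredW
  unfold Red at hredW
  rw [List.isChain_append, List.isChain_append] at hredW
  obtain ⟨⟨rC, rA, _⟩, rE, _⟩ := hredW
  have hlabW := hlab
  rw [hW] at hlabW
  rcases Nat.lt_or_ge A.length (h + 2) with hl | hl
  · refine baseA_short hc ht1 hq _ A hA (by omega) rA (fun i hi => ?_) hv
    have := hlabW i (by simp [hi])
    exact ⟨this.1, this.2.1⟩
  · have hval2 := hval
    rw [hW, val_append, val_append, hv, mul_one, List.length_append] at hval2
    have hval3 : val t (sd true (C.length + A.length)) (E ++ C) = 1 := by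
      rw [val_append, ← sd_add, hlen2, sd_even true (2 * h + 2) (by omega)]
      exact mul_eq_one_comm.1 hval2
    refine baseA_short hc ht1 hq _ (E ++ C) ?_ ?_ ?_ ?_ hval3
    · intro h0
      rw [List.append_eq_nil_iff] at h0
      rw [h0.1, h0.2] at hCE'
      simp at hCE'
    · rw [List.length_append]; omega
    · unfold Red
      rw [List.isChain_append]
      refine ⟨rE, rC, ?_⟩
      intro x hx y hy
      rcases C with _ | ⟨c, C'⟩
      · simp at hy
      · rw [List.head?_cons, Option.mem_some_iff] at hy
        rw [Option.mem_def, List.getLast?_eq_some_iff] at hx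
        obtain ⟨E', rfl⟩ := hx
        rw [List.cons_append, List.cons_append, List.cons.injEq] at hW
        obtain ⟨h1, h2⟩ := hW
        have h3 : (Q.map fun i => 2 * i).getLast? = some x := by
          rw [h2, ← List.append_assoc, List.getLast?_append]
          simp
        rw [List.getLast?_map, Option.map_eq_some_iff] at h3
        obtain ⟨w, hw, hwx⟩ := h3
        have h4 := hQlast w hw
        rw [← hwx, ← hy, ← h1]
        omega
    · intro i hi
      have hi' : i ∈ C ++ A ++ E := by
        rw [List.mem_append] at hi
        rcases hi with hi | hi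
        · exact List.mem_append_right _ hi
        · exact List.mem_append_left _ (List.mem_append_left _ hi)
      have := hlabW i hi'
      exact ⟨this.1, this.2.1⟩

end Pool.Agent.H694R4.Law
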