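import Pool.Agent.H694R4.Law.CDefs
import Pool.Agent.H694R4.Law.WIn

/-!
# The boundary of the wheel has no closed part of any parity
-/

set_option autoImplicit false

namespace Pool.Agent.H694R4.Law

namespace WInA

open WInaux

variable {Γ : Type} [Group Γ] {t : ℕ → Γ}

/-- a relator -/
structure Rl (t : ℕ → Γ) (M h : ℕ) (g : Bool) (y : ℕ) (m : List ℕ) (x : ℕ) : Prop where
  l : m.length = 2 * h
  c : val t g (y :: (m ++ [x])) = 1
  r : Red (y :: (m ++ [x]))
  b : ∀ i ∈ y :: (m ++ [x]), i % 2 = 0 ∧ i + 1 < M
  n : y ≠ x

theorem Rl.rv {M h : ℕ} {g : Bool} {y x : ℕ} {m : List ℕ} (R : Rl t M h g y m x) :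
    Rl t M h g x m.reverse y where
  l := by rw [List.length_reverse]; exact R.l
  c := rev g y x m (by rw [R.l]; omega) R.c
  r := redrev R.r
  b := fun i hi => R.b i (memrev hi)
  n := R.n.symm

theorem comb (g : Bool) (U W : List ℕ) (h : val t g U = val t g W) :
    val t (sd g U.length) (U.reverse ++ W) = 1 := by
  rw [val_append, val_reverse, List.length_reverse, ← sd_add, sd_even _ _ (by omega), h,
    inv_mul_cancel]

theorem redle {M q h : ℕ} (hc : CritP t M q h) (ht1 : ∀ i < M, t i ≠ 1) (hq : 4 * h + 4 ≤ q)
    (s : Bool) (w : List ℕ) (hw : w ≠ []) (hl : w.length ≤ h + 1) (hr : Red w)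
    (hb : ∀ i ∈ w, i % 2 = 0 ∧ i + 1 < M) : val t s w ≠ 1 := by
  rcases w with _ | ⟨x, _ | ⟨c, Q⟩⟩
  · exact absurd rfl hw
  · have h1 := (hb x (by simp)).2
    have h2 := ht1 x (by omega)
    rw [val_cons, val_nil, mul_one]
    cases s
    · intro h3
      apply h2
      simpa [vl] using h3
    · exact h2
  · have hxc : x ≠ c := by
      unfold Red at hr
      rw [List.isChain_cons_cons] at hr
      exact hr.1
    have hr2 : Red (c :: Q) := by
      unfold Red at hr ⊢
      rw [List.isChain_cons_cons] at hr
      exact hr.2
    simp only [List.length_cons] at hl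
    refine hc s [x] Q c hr2 ?_ (by simpa using hxc.symm) hb ?_
    · simp only [List.length_cons]
      omega
    · simp only [List.length_append, List.length_cons, List.length_nil]
      omega

theorem L1 {M q h : ℕ} (hc : CritP t M q h) (ht1 : ∀ i < M, t i ≠ 1) (hq : 4 * h + 4 ≤ q)
    {g : Bool} {y x : ℕ} {m : List ℕ} (R : Rl t M h g y m x) {i i' : ℕ} (hi : i < i')
    (hi' : i' ≤ 2 * h) (hv : val t g (y :: m.take i) = val t g (y :: m.take i')) : False := by
  have hl := R.l
  obtain ⟨B, hB⟩ : ∃ B, B = (m.take i').drop i := ⟨_, rfl⟩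
  have e1 : m.take i' = m.take i ++ B := by
    rw [hB, ← List.take_append_drop i (m.take i'), List.take_take, List.drop_append_of_le_length
      (by rw [List.length_take]; omega)]
    simp [Nat.min_eq_left hi.le]
  have hBl : B.length = i' - i := by
    rw [hB, List.length_drop, List.length_take]
    omega
  have e2 : y :: (m ++ [x]) = (y :: m.take i) ++ B ++ (m.drop i' ++ [x]) := by
    rw [List.cons_append, List.cons_append, ← e1, ← List.append_assoc, List.take_append_drop]
  have e3 : y :: m.take i' = (y :: m.take i) ++ B := by rw [e1]; rfl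
  have hBv : val t (sd g (y :: m.take i).length) B = 1 := by
    rw [e3, val_append] at hv
    exact (mul_eq_left.1 hv.symm)
  have hBne : B ≠ [] := by
    rintro h0
    rw [h0] at hBl
    simp at hBl
    omega
  have hr := R.r
  have hb := R.b
  have hc0 := R.c
  rw [e2] at hr hb hc0
  have hr1 : Red ((y :: m.take i) ++ B) := by
    unfold Red at hr ⊢
    exact (List.isChain_append.mp hr).1
  have hrB : Red B := by
    unfold Red at hr1 ⊢
    exact (List.isChain_append.mp hr1).2.1
  have hrD : Red (m.drop i' ++ [x]) := by
    unfold Red at hr ⊢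
    exact (List.isChain_append.mp hr).2.1
  have hrY : Red (y :: m.take i) := by
    unfold Red at hr1 ⊢
    exact (List.isChain_append.mp hr1).1
  by_cases hd : i' - i ≤ h + 1
  · exact redle hc ht1 hq _ B hBne (by omega) hrB
      (fun j hj => hb j (by simp only [List.mem_append]; tauto)) hBv
  · have hs : sd (sd g ((y :: m.take i) ++ B).length) (m.drop i' ++ [x]).length = g := by
      rw [← sd_add, ← List.length_append, ← e2, sd_even]
      simp only [List.length_cons, List.length_append, List.length_nil]
      omega
    have h1 : val t (sd g ((y :: m.take i) ++ B).length) ((m.drop i' ++ [x]) ++ (y :: m.take i))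
        = 1 := by
      rw [val_append, hs]
      rw [val_append, val_append, hBv, mul_one] at hc0
      exact mul_eq_one_comm.1 hc0
    refine redle hc ht1 hq _ _ (by simp) ?_ ?_ ?_ h1
    · simp only [List.length_cons, List.length_append, List.length_nil, List.length_take,
        List.length_drop]
      omega
    · unfold Red at hrD hrY ⊢
      rw [List.isChain_append]
      refine ⟨hrD, hrY, ?_⟩
      intro a ha b hb'
      rw [List.getLast?_concat] at ha
      simp only [Option.mem_def, Option.some.injEq, List.head?_cons] at ha hb'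
      rw [← ha, ← hb']
      exact R.n.symm
    · intro j hj
      apply hb j
      simp only [List.mem_append] at hj ⊢
      tauto

theorem L2a {M q h : ℕ} (hc : CritP t M q h) (hq : 4 * h + 4 ≤ q)
    {g : Bool} {y x x' : ℕ} {m m' : List ℕ} (R : Rl t M h g y m x) (R' : Rl t M h g y m' x')
    (hd : ∀ i, i ∈ y :: (m ++ [x]) → i ∈ y :: (m' ++ [x']) → i = y) {i i' : ℕ} (hi1 : 1 ≤ i)
    (hi : i ≤ 2 * h) (hi' : i' ≤ 2 * h)
    (hv : val t g (y :: m.take i) = val t g (y :: m'.take i')) : False := by
  have hl := R.l
  have hl' := R'.l
  by_cases hih : i ≤ h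
  · obtain ⟨k, rfl⟩ : ∃ k, i = k + 1 := ⟨i - 1, by omega⟩
    obtain ⟨c, r, hm⟩ : ∃ c r, m = c :: r := List.exists_cons_of_ne_nil (by
      rintro rfl
      simp at hl
      omega)
    have hcy : c ≠ y := by
      have hr := R.r
      rw [hm] at hr
      unfold Red at hr
      rw [List.cons_append, List.isChain_cons_cons] at hr
      exact hr.1.symm
    have hmem : ∀ j ∈ c :: r.take k, j ∈ m := by
      intro j hj
      rw [hm]
      rcases List.mem_cons.1 hj with h1 | h1
      · rw [h1]; exact List.mem_cons_self
      · exact List.mem_cons_of_mem _ (List.mem_of_mem_take h1)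
    have hrd : Red (c :: r.take k) := by
      have h1 := red_take R.r (k + 1)
      have h2 : y :: (m ++ [x]).take (k + 1) = y :: c :: r.take k := by
        rw [List.take_append_of_le_length (by omega), hm, List.take_succ_cons]
      rw [h2] at h1
      exact red_tail h1
    rw [val_cons, val_cons, hm, List.take_succ_cons] at hv
    have h3 := comb (!g) (m'.take i') (c :: r.take k) (mul_left_cancel hv).symm
    refine hc _ _ (r.take k) c hrd ?_ ?_ ?_ ?_ h3
    · simp only [List.length_cons, List.length_take]
      omega
    · intro h4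
      rw [List.mem_reverse] at h4
      have h5 := List.mem_of_mem_take h4
      exact hcy (hd c (by rw [hm]; simp) (by simp [h5]))
    · intro j hj
      rcases List.mem_append.1 hj with h4 | h4
      · rw [List.mem_reverse] at h4
        have h5 := List.mem_of_mem_take h4
        exact R'.b j (by simp [h5])
      · exact R.b j (by simp [hmem j h4])
    · simp only [List.length_append, List.length_reverse, List.length_cons, List.length_take]
      omega
  · rw [close g y x m (by omega) R.c i (by omega), hl] at hv
    have h3 := comb g (y :: m'.take i') (x :: m.reverse.take (2 * h - i)) hv.symm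
    have hrd : Red (x :: m.reverse.take (2 * h - i)) := by
      have h1 := red_take R.rv.r (2 * h - i)
      rw [List.take_append_of_le_length (by rw [List.length_reverse]; omega)] at h1
      exact h1
    refine hc _ _ (m.reverse.take (2 * h - i)) x hrd ?_ ?_ ?_ ?_ h3
    · simp only [List.length_cons, List.length_take, List.length_reverse]
      omega
    · intro h4
      rw [List.mem_reverse] at h4
      rcases List.mem_cons.1 h4 with h5 | h5
      · exact R.n h5.symm
      · have h6 := List.mem_of_mem_take h5
        exact R.n (hd x (by simp) (by simp [h6])).symm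
    · intro j hj
      rcases List.mem_append.1 hj with h4 | h4
      · rw [List.mem_reverse] at h4
        rcases List.mem_cons.1 h4 with h5 | h5
        · exact R.b j (by simp [h5])
        · have h6 := List.mem_of_mem_take h5
          exact R'.b j (by simp [h6])
      · rcases List.mem_cons.1 h4 with h5 | h5
        · exact R.b j (by simp [h5])
        · have h6 := List.mem_of_mem_take h5
          rw [List.mem_reverse] at h6
          exact R.b j (by simp [h6])
    · simp only [List.length_append, List.length_reverse, List.length_cons, List.length_take]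
      omega

theorem L2 {M q h : ℕ} (hc : CritP t M q h) (hq : 4 * h + 4 ≤ q)
    {g : Bool} {y x x' : ℕ} {m m' : List ℕ} (R : Rl t M h g y m x) (R' : Rl t M h g y m' x')
    (hd : ∀ i, i ∈ y :: (m ++ [x]) → i ∈ y :: (m' ++ [x']) → i = y) {i i' : ℕ}
    (hi1 : 1 ≤ i ∨ 1 ≤ i') (hi : i ≤ 2 * h) (hi' : i' ≤ 2 * h)
    (hv : val t g (y :: m.take i) = val t g (y :: m'.take i')) : False := by
  rcases hi1 with h1 | h1
  · exact L2a hc hq R R' hd h1 hi hi' hv
  · exact L2a hc hq R' R (fun i a b => hd i b a) h1 hi' hi hv.symm

end WInA

open WInaux WInA in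
theorem wh_inA : StINA := by
  intro Γ _ t M q h g x1 x2 x3 m12 m23 m13 W hc ht1 hq hb Y A E hP hA hval
  have hh := W.hh
  have Q13 : Rl t M h g x1 m13 x3 := ⟨W.l13, W.c13, W.r13, fun i hi => hb i (Or.inr (Or.inr hi)),
    W.n13⟩
  have Q23 : Rl t M h g x2 m23 x3 := ⟨W.l23, W.c23, W.r23, fun i hi => hb i (Or.inr (Or.inl hi)),
    W.n23⟩
  have Q12 : Rl t M h g x1 m12 x2 := ⟨W.l12, W.c12, W.r12, fun i hi => hb i (Or.inl hi), W.n12⟩
  obtain ⟨a12, r12, hr12⟩ : ∃ a r, m12 = a :: r := List.exists_cons_of_ne_nil (by
    intro h0
    have := W.l12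
    rw [h0] at this
    simp at this
    omega)
  have m13e : m13.length % 2 = 0 := by rw [W.l13]; omega
  have m23e : m23.length % 2 = 0 := by rw [W.l23]; omega
  have m12e : m12.length % 2 = 0 := by rw [W.l12]; omega
  have m23e' : m23.reverse.length % 2 = 0 := by rw [List.length_reverse]; exact m23e
  have m12e' : m12.reverse.length % 2 = 0 := by rw [List.length_reverse]; exact m12e
  have c32 := rev g x2 x3 m23 m23e W.c23
  have c21 := rev g x1 x2 m12 m12e W.c12
  -- the full boundary
  obtain ⟨V, hV⟩ : ∃ V : ℕ → Γ, ∀ n, V n =
      vl t g x1 * val t (!g) ((m13 ++ (m23.reverse ++ m12.reverse)).take n) := ⟨_, fun _ => rfl⟩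
  have l13 := W.l13
  have l23 : m23.reverse.length = 2 * h := by rw [List.length_reverse]; exact W.l23
  have l12 : m12.reverse.length = 2 * h := by rw [List.length_reverse]; exact W.l12
  have R1 : ∀ i ≤ 2 * h, V i = val t g (x1 :: m13.take i) := by
    intro i hi
    rw [hV, List.take_append_of_le_length (by omega), val_cons]
  have v13 : vl t g x1 * val t (!g) m13 = vl t g x3 := by
    have h1 := close g x1 x3 m13 m13e W.c13 m13.length le_rfl
    rw [List.take_length, Nat.sub_self, List.take_zero, val_cons, val_cons, val_nil, mul_one] at h1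
    exact h1
  have v32 : vl t g x3 * val t (!g) m23.reverse = vl t g x2 := by
    have h1 := close g x3 x2 m23.reverse m23e' c32 m23.reverse.length le_rfl
    rw [List.take_length, Nat.sub_self, List.take_zero, val_cons, val_cons, val_nil, mul_one] at h1
    exact h1
  have R2 : ∀ i ≤ 2 * h, V (2 * h - i) = val t g (x3 :: m13.reverse.take i) := by
    intro i hi
    rw [R1 _ (by omega), close g x1 x3 m13 m13e W.c13 (2 * h - i) (by omega), l13,
      Nat.sub_sub_self hi]
  have R3 : ∀ i ≤ 2 * h, V (2 * h + i) = val t g (x3 :: m23.reverse.take i) := by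
    intro i hi
    rw [hV, ← l13, List.take_length_add_append, List.take_append_of_le_length (by omega),
      val_append, sd_even _ _ m13e, ← mul_assoc, v13, val_cons]
  have R4 : ∀ i ≤ 2 * h, V (4 * h - i) = val t g (x2 :: m23.take i) := by
    intro i hi
    have e : 4 * h - i = 2 * h + (2 * h - i) := by omega
    rw [e, R3 _ (by omega), close g x3 x2 m23.reverse m23e' c32 (2 * h - i) (by omega), l23,
      Nat.sub_sub_self hi, List.reverse_reverse]
  have R5 : ∀ i ≤ 2 * h, V (4 * h + i) = val t g (x2 :: m12.reverse.take i) := by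
    intro i hi
    have e : 4 * h + i = m13.length + (m23.reverse.length + i) := by omega
    rw [hV, e, List.take_length_add_append, List.take_length_add_append,
      val_append, sd_even _ _ m13e, ← mul_assoc, v13, val_append, sd_even _ _ m23e', ← mul_assoc,
      v32, val_cons]
  have R6 : ∀ i ≤ 2 * h, V (6 * h - i) = val t g (x1 :: m12.take i) := by
    intro i hi
    have e : 6 * h - i = 4 * h + (2 * h - i) := by omega
    rw [e, R5 _ (by omega), close g x2 x1 m12.reverse m12e' c21 (2 * h - i) (by omega), l12,
      Nat.sub_sub_self hi, List.reverse_reverse]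
  -- the two positions
  have hlen : Y.length + A.length + E.length = 6 * h - 1 := by
    have h1 := congrArg List.length hP
    simp only [List.length_append, List.length_reverse, List.length_tail, W.l13, W.l23, W.l12]
      at h1
    omega
  have hA1 : 1 ≤ A.length := by
    rcases A with _ | ⟨a, A⟩
    · exact absurd rfl hA
    · simp
  have hfull : m13 ++ (m23.reverse ++ m12.reverse) = Y ++ A ++ (E ++ [a12]) := by
    have e : m12.reverse = m12.tail.reverse ++ [a12] := by rw [hr12]; simp
    rw [e, ← List.append_assoc (Y ++ A), ← hP]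
    simp only [List.append_assoc]
  obtain ⟨n, hn⟩ : ∃ n, n = Y.length := ⟨_, rfl⟩
  obtain ⟨n', hn'⟩ : ∃ n', n' = Y.length + A.length := ⟨_, rfl⟩
  have hVV : V n = V n' := by
    rw [hV, hV, hfull]
    have e1 : (Y ++ A ++ (E ++ [a12])).take n = Y := by
      rw [hn, List.append_assoc, List.take_append_of_le_length le_rfl, List.take_length]
    have e2 : (Y ++ A ++ (E ++ [a12])).take n' = Y ++ A := by
      rw [hn', ← List.length_append, List.take_append_of_le_length le_rfl, List.take_length]
    rw [e1, e2, val_append, hval, mul_one]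
  have hlt : n < n' := by omega
  have hle : n' ≤ 6 * h - 1 := by omega
  clear hn hn' hlen hfull hval hP hV
  rcases Nat.lt_or_ge (2 * h) n' with k1 | k1
  · rcases Nat.lt_or_ge (4 * h) n' with k2 | k2
    · -- `n'` in the third segment
      rcases Nat.lt_or_ge n (2 * h) with k3 | k3
      · -- `n` in the first one
        have e1 := R1 n (by omega)
        have e2 := R6 (6 * h - n') (by omega)
        rw [show 6 * h - (6 * h - n') = n' by omega] at e2
        exact L2 hc hq Q13 Q12 (fun i a b => W.d1 i b a) (Or.inr (by omega)) (by omega) (by omega)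
          (e1.symm.trans (hVV.trans e2))
      · rcases Nat.lt_or_ge n (4 * h) with k4 | k4
        · have e1 := R4 (4 * h - n) (by omega)
          have e2 := R5 (n' - 4 * h) (by omega)
          rw [show 4 * h - (4 * h - n) = n by omega] at e1
          rw [show 4 * h + (n' - 4 * h) = n' by omega] at e2
          exact L2 hc hq Q23 Q12.rv (fun i a b => W.d2 i (memrev b) a) (Or.inr (by omega))
            (by omega) (by omega) (e1.symm.trans (hVV.trans e2))
        · have e1 := R5 (n - 4 * h) (by omega)
          have e2 := R5 (n' - 4 * h) (by omega)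
          rw [show 4 * h + (n - 4 * h) = n by omega] at e1
          rw [show 4 * h + (n' - 4 * h) = n' by omega] at e2
          exact L1 hc ht1 hq Q12.rv (by omega) (by omega) (e1.symm.trans (hVV.trans e2))
    · rcases Nat.lt_or_ge n (2 * h) with k3 | k3
      · have e1 := R2 (2 * h - n) (by omega)
        have e2 := R3 (n' - 2 * h) (by omega)
        rw [show 2 * h - (2 * h - n) = n by omega] at e1
        rw [show 2 * h + (n' - 2 * h) = n' by omega] at e2
        exact L2 hc hq Q13.rv Q23.rv (fun i a b => W.d3 i (memrev a) (memrev b))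
          (Or.inr (by omega)) (by omega) (by omega) (e1.symm.trans (hVV.trans e2))
      · have e1 := R3 (n - 2 * h) (by omega)
        have e2 := R3 (n' - 2 * h) (by omega)
        rw [show 2 * h + (n - 2 * h) = n by omega] at e1
        rw [show 2 * h + (n' - 2 * h) = n' by omega] at e2
        exact L1 hc ht1 hq Q23.rv (by omega) (by omega) (e1.symm.trans (hVV.trans e2))
  · exact L1 hc ht1 hq Q13 hlt k1 ((R1 n (by omega)).symm.trans (hVV.trans (R1 n' (by omega))))

end Pool.Agent.H694R4.Law
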