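import Pool.Agent.H694R4.Law.CDefs
import Pool.Agent.H694R4.Law.Wheel

/-!
# Glueing the boundary of three relators around a vertex, closed parts of any parity
-/

set_option autoImplicit false

namespace Pool.Agent.H694R4.Law

theorem glueA {Γ : Type*} [Group Γ] {t : ℕ → Γ} (s : Bool) (z : ℕ) (R P : List ℕ)
    (hcl : val t s (z :: R) = 1) (hodd : R.length % 2 = 1) (hPodd : P.length % 2 = 1)
    (hS : SimpA t s (z :: R)) (hPv : val t s P = vl t s z)
    (hIN : ∀ Y A E : List ℕ, P = Y ++ A ++ E → A ≠ [] →
      val t (sd s Y.length) A ≠ 1)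
    (hCR : ∀ X E : List ℕ, P = X ++ E → X ≠ [] → E ≠ [] → ∀ Y C : List ℕ, R = C ++ Y →
      val t (sd (!s) C.length) (Y ++ X) ≠ 1) :
    val t (!s) (R ++ P) = 1 ∧ SimpA t (!s) (R ++ P) := by
  have hsR : sd (!s) R.length = s := by rw [sd_odd _ _ hodd, Bool.not_not]
  have hcl2 : val t (!s) (R ++ P) = 1 := by
    rw [val_append, hsR, hPv]
    rw [val_cons] at hcl
    rw [eq_inv_of_mul_eq_one_right hcl, inv_mul_cancel]
  refine ⟨hcl2, ?_⟩
  have caseI : ∀ C A X : List ℕ, R = C ++ A ++ X → A ≠ [] →
      val t (sd (!s) C.length) A ≠ 1 := by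
    intro C A X hd hA
    exact hS (z :: C) A X (by rw [hd]; simp) hA (by simp)
  intro C A E hd hA hCE hval
  rcases List.append_eq_append_iff.mp hd with ⟨X, h1, h2⟩ | ⟨X, h1, h2⟩
  · rcases List.append_eq_append_iff.mp h1 with ⟨Y, h3, h4⟩ | ⟨Y, h3, h4⟩
    · by_cases hX : X = []
      · subst hX
        rw [List.append_nil] at h4
        subst h4
        exact caseI C A [] (by rw [h3]; simp) hA hval
      by_cases hE : E = []
      · subst hE
        have h7 := congrArg List.length hd
        simp only [List.length_append, List.length_nil] at h7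
        have hC1 : val t (!s) C = 1 := by
          have h8 := hcl2
          rw [hd, List.append_nil, val_append, hval, mul_one] at h8
          exact h8
        refine caseI [] C Y (by rw [h3]; simp) (by rintro rfl; simp at hCE) hC1
      · rw [h4] at hval
        exact hCR X E h2 hX hE Y C h3 hval
    · refine hIN Y A E (by rw [h2, h4]) hA ?_
      rw [h3, List.length_append, sd_add, hsR] at hval
      exact hval
  · exact caseI C A X (by rw [h1]) hA hval

theorem wheelA : StWheelA := by
  intro hINs hCRs Γ _ t M q q0 h hh hH hN hR ht1 g z B R1 hn hB hcl hS hq hM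
  obtain ⟨a, b, m, hab, hml, hmr, hmb, hmc⟩ := hR.lt g
  have ha : a < q0 := hmb a (by simp)
  have hb : b < q0 := hmb b (by simp)
  have hq0 : 1 ≤ q0 := by omega
  obtain ⟨m0, mt, rfl⟩ : ∃ m0 mt, m = m0 :: mt := List.exists_cons_of_ne_nil (by
    rintro rfl
    simp at hml
    omega)
  have hm0 : m0 < q0 := hmb m0 (by simp)
  obtain ⟨K, hK⟩ : ∃ K, K = 16 * q0 * (q0 + 1) := ⟨_, rfl⟩
  rw [← hK] at hM ⊢
  obtain ⟨V, hV⟩ : ∃ V, V = 4 * q0 := ⟨_, rfl⟩
  obtain ⟨Z, hZ⟩ : ∃ Z, Z = K * (z + 1) := ⟨_, rfl⟩
  have hVlt : ∀ i j : ℕ, i < j → V * i + V ≤ V * j := by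
    intro i j hij
    nlinarith
  have hVq : ∀ i, i < q0 → V * i + V ≤ V * q0 := fun i hi => hVlt i q0 hi
  have hKV : K = 4 * (V * q0) + 16 * q0 := by
    rw [hK, hV]
    ring
  have hKlt : ∀ i j : ℕ, i < j → K * (i + 1) + K ≤ K * (j + 1) := by
    intro i j hij
    nlinarith
  have hzB : z < B := hB z List.mem_cons_self
  have hZK : K ≤ Z := by
    rw [hZ]
    nlinarith
  have hZB : Z + K ≤ K * (B + 1) := by
    rw [hZ]
    exact hKlt z B hzB
  have hB2 : K * (B + 2) = K * (B + 1) + K := by ring
  have hKpos : 16 ≤ K := by omega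
  have hBK : B ≤ K * (B + 1) := by nlinarith
  have hVe : ∀ i, ∃ e, V * i = 2 * e := by
    intro i
    exact ⟨2 * q0 * i, by rw [hV]; ring⟩
  have hKe : ∀ i, ∃ e, K * i = 2 * e := by
    intro i
    exact ⟨8 * q0 * (q0 + 1) * i, by rw [hK]; ring⟩
  have hZe : ∃ e, Z = 2 * e := by
    rw [hZ]
    exact hKe _
  set f : ℕ → ℕ := fun i => K * (i + 1) with hf
  set p12 : ℕ → ℕ := fun i => Z + 2 * i - 2 * m0 with h12
  set p13 : ℕ → ℕ := fun i => Z + 2 * i + V * i - 2 * m0 - V * a with h13
  set p23 : ℕ → ℕ := fun i => Z + 2 * b + V * i - 2 * m0 - V * a with h23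
  have hVa := hVq a ha
  have hVb := hVq b hb
  have e12 : p12 m0 = Z := by
    simp only [h12]
    omega
  have e13 : p13 a = p12 a := by
    simp only [h12, h13]
    omega
  have e23 : p23 a = p12 b := by
    simp only [h12, h23]
    omega
  have e33 : p13 b = p23 b := by
    simp only [h13, h23]
  have mono12 : ∀ i j : ℕ, i < j → p12 i < p12 j := by
    intro i j hij
    simp only [h12]
    omega
  have mono13 : ∀ i j : ℕ, i < j → p13 i < p13 j := by
    intro i j hij
    have := hVlt i j hij
    simp only [h13]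
    omega
  have mono23 : ∀ i j : ℕ, i < j → p23 i < p23 j := by
    intro i j hij
    have := hVlt i j hij
    simp only [h23]
    omega
  -- bounds: all labels are close to `Z` and even
  have b12 : ∀ i, i < q0 → p12 i < Z + K ∧ Z < p12 i + K ∧ p12 i % 2 = 0 := by
    intro i hi
    obtain ⟨e, he⟩ := hZe
    simp only [h12]
    omega
  have b13 : ∀ i, i < q0 → p13 i < Z + K ∧ Z < p13 i + K ∧ p13 i % 2 = 0 := by
    intro i hi
    obtain ⟨e, he⟩ := hZe
    obtain ⟨e1, he1⟩ := hVe i
    obtain ⟨e2, he2⟩ := hVe a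
    have := hVq i hi
    simp only [h13]
    omega
  have b23 : ∀ i, i < q0 → p23 i < Z + K ∧ Z < p23 i + K ∧ p23 i % 2 = 0 := by
    intro i hi
    obtain ⟨e, he⟩ := hZe
    obtain ⟨e1, he1⟩ := hVe i
    obtain ⟨e2, he2⟩ := hVe a
    have := hVq i hi
    simp only [h23]
    omega
  have hmap : ∀ p : ℕ → ℕ, (∀ i j : ℕ, i < j → p i < p j) →
      (∀ i, i < q0 → p i < Z + K ∧ Z < p i + K ∧ p i % 2 = 0) →
      val t g (p a :: ((m0 :: mt).map p ++ [p b])) = 1 ∧
      Red (p a :: ((m0 :: mt).map p ++ [p b])) ∧
      ∀ i ∈ p a :: ((m0 :: mt).map p ++ [p b]), ∃ j, j < q0 ∧ i = p j := by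
    intro p hp1 hp2
    have h1 : p a :: ((m0 :: mt).map p ++ [p b]) = (a :: ((m0 :: mt) ++ [b])).map p := by simp
    rw [h1]
    refine ⟨?_, red_map hmr (fun i _ j _ hij => hp1 i j hij), ?_⟩
    · refine (hH g _ p ?_ (fun i hi => ?_) (fun i hi => ?_)
        (fun i _ j _ hij => hp1 i j hij)).mp hmc
      · simp only [List.length_cons, List.length_append, List.length_nil] at hml ⊢
        omega
      · have := hmb i hi
        omega
      · have := (hp2 i (hmb i hi)).1
        omega
    · intro i hi
      obtain ⟨j, hj, rfl⟩ := List.mem_map.mp hi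
      exact ⟨j, hmb j hj, rfl⟩
  obtain ⟨c12, r12, l12⟩ := hmap p12 mono12 b12
  obtain ⟨c13, r13, l13⟩ := hmap p13 mono13 b13
  obtain ⟨c23, r23, l23⟩ := hmap p23 mono23 b23
  rw [e13, e33] at c13 r13 l13
  rw [e23] at c23 r23 l23
  have W : Wh t M h g (p12 a) (p12 b) (p23 b) ((m0 :: mt).map p12) ((m0 :: mt).map p23)
      ((m0 :: mt).map p13) := by
    refine ⟨hh, hN, by rw [List.length_map, hml], by rw [List.length_map, hml],
      by rw [List.length_map, hml], c12, c23, c13, r12, r23, r13, ?_, ?_, ?_, ?_, ?_, ?_, ?_, ?_,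
      ?_⟩
    · intro i hi
      obtain ⟨j, hj, rfl⟩ := l12 i hi
      have := b12 j hj
      omega
    · intro i hi
      obtain ⟨j, hj, rfl⟩ := l23 i hi
      have := b23 j hj
      omega
    · intro i hi
      obtain ⟨j, hj, rfl⟩ := l13 i hi
      have := b13 j hj
      omega
    · intro i hi hi'
      obtain ⟨j, hj, rfl⟩ := l12 i hi
      obtain ⟨k, hk, hjk⟩ := l13 _ hi'
      have h1 := hVq k hk
      rcases Nat.lt_trichotomy k a with h2 | h2 | h2
      · have h3 := hVlt k a h2
        simp only [h12, h13] at hjk ⊢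
        omega
      · subst h2
        rw [hjk, e13]
      · have h3 := hVlt a k h2
        simp only [h12, h13] at hjk ⊢
        omega
    · intro i hi hi'
      obtain ⟨j, hj, rfl⟩ := l12 i hi
      obtain ⟨k, hk, hjk⟩ := l23 _ hi'
      have h1 := hVq k hk
      rcases Nat.lt_trichotomy k a with h2 | h2 | h2
      · have h3 := hVlt k a h2
        simp only [h12, h23] at hjk ⊢
        omega
      · subst h2
        rw [hjk, e23]
      · have h3 := hVlt a k h2
        simp only [h12, h23] at hjk ⊢
        omega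
    · intro i hi hi'
      obtain ⟨j, hj, rfl⟩ := l13 i hi
      obtain ⟨k, hk, hjk⟩ := l23 _ hi'
      have h1 := hVq k hk
      have h4 := hVq j hj
      rcases Nat.lt_trichotomy k j with h2 | h2 | h2
      · have h3 := hVlt k j h2
        simp only [h13, h23] at hjk ⊢
        omega
      · subst h2
        have h5 : k = b := by
          simp only [h13, h23] at hjk
          omega
        rw [h5, e33]
      · have h3 := hVlt j k h2
        simp only [h13, h23] at hjk ⊢
        omega
    · have := mono12 a b hab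
      omega
    · rw [← e23]
      have := mono23 a b hab
      omega
    · rw [← e13, ← e33]
      have := mono13 a b hab
      omega
  -- the old cycle, relabelled
  have fB : ∀ i, i < B → f i < K * (B + 1) + 1 := by
    intro i hi
    have := hKlt i B hi
    simp only [hf]
    omega
  have hRf : ∀ (s' : Bool) (u : List ℕ), (∀ i ∈ u, i ∈ z :: R1) → u.length ≤ q →
      (val t s' u = 1 ↔ val t s' (u.map f) = 1) := by
    intro s' u hu hul
    refine hH s' u f hul (fun i hi => ?_) (fun i hi => ?_) (fun i _ j _ hij => ?_)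
    · have := hB i (hu i hi)
      omega
    · have := fB i (hB i (hu i hi))
      omega
    · have := hKlt i j hij
      simp only [hf]
      omega
  have hfz : f z = Z := by
    rw [hZ]
  have hcl' : val t (!g) (Z :: R1.map f) = 1 := by
    have h1 := (hRf (!g) (z :: R1) (fun i hi => hi) (by omega)).mp hcl
    rw [List.map_cons, hfz] at h1
    exact h1
  have hS' : SimpA t (!g) (Z :: R1.map f) := by
    intro C A E hd hA hCE hv
    have hd' : (z :: R1).map f = C ++ A ++ E := by
      rw [List.map_cons, hfz]
      exact hd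
    obtain ⟨CA, E0, h1, h2, h3⟩ := List.map_eq_append_iff.mp hd'
    obtain ⟨C0, A0, h4, h5, h6⟩ := List.map_eq_append_iff.mp h2
    subst h4
    refine hS C0 A0 E0 h1 (by rintro rfl; exact hA (by simp [← h6])) ?_ ?_
    · rintro h7
      apply hCE
      rw [← h5, ← h3]
      rw [List.append_eq_nil_iff] at h7
      rw [h7.1, h7.2]
      simp
    · rw [← h5, ← h6, List.length_map] at hv
      refine (hRf _ A0 (fun i hi => ?_) ?_).mpr hv
      · rw [h1]
        simp [hi]
      · have h7 := congrArg List.length h1
        simp only [List.length_cons, List.length_append] at h7 hq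
        omega
  set m12 := (m0 :: mt).map p12 with hm12
  set m23 := (m0 :: mt).map p23 with hm23
  set m13 := (m0 :: mt).map p13 with hm13
  have hl12 : m12 = Z :: mt.map p12 := by
    rw [hm12, List.map_cons, e12]
  have hmtl : mt.length = 2 * h - 1 := by
    rw [List.length_cons] at hml
    omega
  obtain ⟨P, hP⟩ : ∃ P, P = m13 ++ (m23.reverse ++ m12.tail.reverse) := ⟨_, rfl⟩
  have hPlen : P.length = 6 * h - 1 := by
    rw [hP]
    simp only [List.length_append, List.length_reverse, List.length_tail]
    rw [W.l12, W.l13, W.l23]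
    omega
  have hRodd : (R1.map f).length % 2 = 1 := by
    rw [List.length_cons] at hn
    rw [List.length_map]
    omega
  have hPv : val t (!g) P = vl t (!g) Z := by
    have k12 := W.c12
    have k23 := W.c23
    have k13 := W.c13
    have n12 : sd (!g) m12.length = !g := sd_even _ _ (by rw [W.l12]; omega)
    have n23 : sd (!g) m23.length = !g := sd_even _ _ (by rw [W.l23]; omega)
    have n13 : sd (!g) m13.length = !g := sd_even _ _ (by rw [W.l13]; omega)
    rw [val_cons, val_append, val_cons, val_nil, mul_one, n12, vl_not] at k12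
    rw [val_cons, val_append, val_cons, val_nil, mul_one, n23, vl_not] at k23
    rw [val_cons, val_append, val_cons, val_nil, mul_one, n13, vl_not] at k13
    have v12 : val t (!g) m12 = (vl t g (p12 a))⁻¹ * vl t g (p12 b) := by
      rw [← mul_assoc, mul_inv_eq_one] at k12
      rw [← k12, inv_mul_cancel_left]
    have v23 : val t (!g) m23 = (vl t g (p12 b))⁻¹ * vl t g (p23 b) := by
      rw [← mul_assoc, mul_inv_eq_one] at k23
      rw [← k23, inv_mul_cancel_left]
    have v13 : val t (!g) m13 = (vl t g (p12 a))⁻¹ * vl t g (p23 b) := by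
      rw [← mul_assoc, mul_inv_eq_one] at k13
      rw [← k13, inv_mul_cancel_left]
    have r23v : val t (!g) m23.reverse = (val t (!g) m23)⁻¹ := by
      have := val_reverse (t := t) (!g) m23
      rwa [n23] at this
    have rtv : val t (!g) m12.tail.reverse = (val t g m12.tail)⁻¹ := by
      have := val_reverse (t := t) g m12.tail
      rwa [sd_odd _ _ (by rw [List.length_tail, W.l12]; omega)] at this
    have v12' : val t (!g) m12 = vl t (!g) Z * val t g m12.tail := by
      rw [hl12, val_cons, Bool.not_not, List.tail_cons]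
    rw [hP, val_append, n13, val_append, List.length_reverse, n23, r23v, rtv, v13, v23]
    have h9 : (val t g m12.tail)⁻¹ = (val t (!g) m12)⁻¹ * vl t (!g) Z := by
      rw [v12', mul_inv_rev, mul_assoc, inv_mul_cancel, mul_one]
    rw [h9, v12]
    group
  have hnear : ∀ i, (i ∈ p12 a :: (m12 ++ [p12 b]) ∨ i ∈ p12 b :: (m23 ++ [p23 b]) ∨
      i ∈ p12 a :: (m13 ++ [p23 b])) → i < Z + K ∧ Z < i + K ∧ i % 2 = 0 := by
    rintro i (hi | hi | hi)
    · obtain ⟨j, hj, rfl⟩ := l12 i hi
      exact b12 j hj
    · obtain ⟨j, hj, rfl⟩ := l23 i hi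
      exact b23 j hj
    · obtain ⟨j, hj, rfl⟩ := l13 i hi
      exact b13 j hj
  have hPnear : ∀ i ∈ P, i < Z + K := by
    intro i hi
    rw [hP] at hi
    simp only [List.mem_append, List.mem_reverse] at hi
    have h10 : i ∈ p12 a :: (m12 ++ [p12 b]) ∨ i ∈ p12 b :: (m23 ++ [p23 b]) ∨
        i ∈ p12 a :: (m13 ++ [p23 b]) := by
      rcases hi with hi | hi | hi
      · right; right
        simp [hi]
      · right; left
        simp [hi]
      · left
        simp [List.mem_of_mem_tail hi]
    exact (hnear i h10).1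
  have hRn : ∀ i ∈ R1.map f, i < K * (B + 1) + 1 ∧ i % 2 = 0 ∧ ∃ y, i = K * (y + 1) := by
    intro i hi
    obtain ⟨j, hj, rfl⟩ := List.mem_map.mp hi
    refine ⟨fB j (hB j (List.mem_cons_of_mem _ hj)), ?_, j, rfl⟩
    obtain ⟨e, he⟩ := hKe (j + 1)
    simp only [hf]
    omega
  obtain ⟨g1, g2⟩ := glueA (!g) Z (R1.map f) P hcl' hRodd (by rw [hPlen]; omega) hS' hPv
    (fun Y A E hd hA => hINs Γ t M q h g _ _ _ _ _ _ W (critP hH hN) ht1
      (by rw [List.length_cons] at hq; omega)
      (fun i hi => by
        have := hnear i hi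
        omega) Y A E (by rw [← hP]; exact hd) hA)
    (by
      intro X E hd hX hE Y C hC hv
      obtain ⟨X0, c, Q, q1, q2, q3, q4, q5, q6, q7⟩ := hCRs Γ t M h g _ _ _ _ _ _ W X E
        (by rw [← hP]; exact hd) hX hE
      have hside : sd (sd (!!g) C.length) Y.length = !g := by
        rw [← sd_add, ← List.length_append, ← hC, sd_odd _ _ hRodd, Bool.not_not]
      have hCl := congrArg List.length hC
      rw [List.length_map, List.length_append] at hCl
      have hv2 : val t (sd (!!g) C.length) ((Y ++ X0) ++ (c :: Q)) = 1 := by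
        rw [List.append_assoc, val_append, hside, ← q1]
        rw [val_append, hside] at hv
        exact hv
      have hYR : ∀ i ∈ Y, i ∈ R1.map f := by
        intro i hi
        rw [hC]
        simp [hi]
      have hcn := hnear c (q7 c (by simp))
      have hev : ∀ i ∈ (Y ++ X0) ++ (c :: Q), i % 2 = 0 ∧ i + 1 < M := by
        intro i hi
        rw [List.append_assoc, List.mem_append] at hi
        rcases hi with hi | hi
        · have := hRn i (hYR i hi)
          omega
        · have := hnear i (q7 i hi)
          omega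
      refine crit hH hN _ (Y ++ X0) Q c q2 (by omega) ?_ ?_ ?_ ?_ ?_ hv2
      · rw [List.mem_append, not_or]
        refine ⟨fun hcY => ?_, q5⟩
        obtain ⟨_, _, y, hy⟩ := hRn c (hYR c hcY)
        rcases Nat.lt_trichotomy y z with h2 | h2 | h2
        · have := hKlt y z h2
          omega
        · apply q6
          rw [hl12, hy, h2, ← hZ]
          rfl
        · have := hKlt z y h2
          omega
      · intro hc1
        have := (hev _ hc1).1
        omega
      · rw [List.length_append, List.length_append]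
        rw [List.length_cons] at hq
        omega
      · intro i hi
        have := (hev i hi).2
        omega
      · omega)
  rw [Bool.not_not] at g1 g2
  refine ⟨R1.map f ++ P, ?_, ?_, g1, g2⟩
  · rw [List.length_append, List.length_map, hPlen, List.length_cons]
    omega
  · intro i hi
    rw [List.mem_append] at hi
    rcases hi with hi | hi
    · have := (hRn i hi).1
      omega
    · have := hPnear i hi
      omega

end Pool.Agent.H694R4.Law
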