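import Pool.Agent.H694R4.Law.Orbs
import Pool.Agent.H694R4.Law.CDefs
import Pool.Agent.H694R4.Law.WStepA
import Pool.Agent.H694R4.Law.WBaseA
import Pool.Agent.H694R4.Law.WWheelA
import Pool.Agent.H694R4.Law.WInA

/-!
# All large even cycles in graphs with a free action of a group that satisfies a law
-/

set_option autoImplicit false

namespace Pool.Agent.H694R4.Law

open SimpleGraph

/-- bound for the labels -/
def Bf (q0 : ℕ) : ℕ → ℕ
  | 0 => 4 * q0
  | j + 1 => 16 * q0 * (q0 + 1) * (Bf q0 j + 2)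

theorem Bf_le (q0 : ℕ) (h : 1 ≤ q0) (a : ℕ) : Bf q0 a ≤ Bf q0 (a + 1) := by
  rw [Bf]
  have h1 : 1 ≤ 16 * q0 * (q0 + 1) := by nlinarith
  calc Bf q0 a ≤ Bf q0 a + 2 := by omega
    _ = 1 * (Bf q0 a + 2) := (one_mul _).symm
    _ ≤ _ := Nat.mul_le_mul_right _ h1

theorem Bf_mono (q0 : ℕ) (h : 1 ≤ q0) {a a' : ℕ} (haa : a ≤ a') : Bf q0 a ≤ Bf q0 a' := by
  induction a', haa using Nat.le_induction with
  | base => exact le_rfl
  | succ n _ ih => exact ih.trans (Bf_le q0 h n)

theorem four_le_Bf (q0 a : ℕ) : 4 * q0 * (Bf q0 a + 2) ≤ Bf q0 (a + 1) := by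
  rw [Bf]
  refine Nat.mul_le_mul ?_ le_rfl
  nlinarith

/-- a closed word of length `n` without closed parts, with labels less than `B` -/
def CycA {Γ : Type*} [Group Γ] (t : ℕ → Γ) (B n : ℕ) : Prop :=
  ∃ (s : Bool) (z : ℕ) (R : List ℕ), (z :: R).length = n ∧ (∀ i ∈ z :: R, i < B) ∧
    val t s (z :: R) = 1 ∧ SimpA t s (z :: R)

theorem chainA {Γ : Type} [Group Γ] {t : ℕ → Γ} {M q q0 h : ℕ} (hh : 1 ≤ h) (hH : Homo t M q)
    (hN : NoShort t M (2 * h + 2)) (hR : Rel t q0 h) (ht1 : ∀ i < M, t i ≠ 1) (hq0 : 1 ≤ q0) :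
    ∀ a : ℕ, 2 + (1 + a) * (2 * h) + 2 ≤ q → Bf q0 a < M →
      CycA t (Bf q0 a) (2 + (1 + a) * (2 * h)) := by
  intro a
  induction a with
  | zero =>
    intro hq hM
    rw [Bf] at hM
    obtain ⟨z, R, g1, g2, g3, g4⟩ := baseA Γ t M q q0 h hh hH hN hR ht1 hM (by omega)
    exact ⟨true, z, R, by rw [g1]; ring, g2, g3, g4⟩
  | succ a ih =>
    intro hq hM
    have hqa : 2 + (1 + a) * (2 * h) + 2 + 2 * h ≤ q := by
      have : (1 + (a + 1)) * (2 * h) = (1 + a) * (2 * h) + 2 * h := by ring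
      omega
    obtain ⟨s, z, R, h1, h2, h3, h4⟩ := ih (by omega) ((Bf_le q0 hq0 a).trans_lt hM)
    have h44 := four_le_Bf q0 a
    obtain ⟨R', h5, h6, h7, h8⟩ := stepA Γ t M q q0 h hh hH hN hR ht1 s z (Bf q0 a) R (by
        rw [h1, Nat.add_mod, Nat.mul_mod]; simp) h2 h3 h4 (by rw [h1]; omega) (by omega)
    have hne : R' ≠ [] := by
      rintro rfl
      simp at h5
      omega
    obtain ⟨z', R'', rfl⟩ := List.exists_cons_of_ne_nil hne
    refine ⟨!s, z', R'', ?_, fun i hi => (h6 i hi).trans_le h44, h7, h8⟩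
    rw [h5, h1]
    ring

theorem wheelsA {Γ : Type} [Group Γ] {t : ℕ → Γ} {M q q0 h : ℕ} (hH : Homo t M q)
    (hN : NoShort t M (2 * h + 2)) (hR : Rel t q0 h) (ht1 : ∀ i < M, t i ≠ 1) (hq0 : 1 ≤ q0)
    (j n : ℕ) (hn : n % 2 = 0) (hc : CycA t (Bf q0 j) n) : ∀ W : ℕ, (W = 0 ∨ 2 ≤ h) →
    n + W * (6 * h - 2) + 6 * h ≤ q → Bf q0 (j + W) < M →
    CycA t (Bf q0 (j + W)) (n + W * (6 * h - 2)) := by
  intro W
  induction W with
  | zero =>
    intro _ _ _
    simpa using hc
  | succ W ih =>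
    intro h2 h3 h4
    have hh2 : 2 ≤ h := by
      rcases h2 with h2 | h2
      · omega
      · exact h2
    have h5 : (W + 1) * (6 * h - 2) = W * (6 * h - 2) + (6 * h - 2) := by ring
    rw [← add_assoc] at h4 ⊢
    obtain ⟨s, z, R, g1, g2, g3, g4⟩ := ih (Or.inr hh2) (by omega)
      ((Bf_le q0 hq0 (j + W)).trans_lt h4)
    have hev : (W * (6 * h - 2)) % 2 = 0 := by
      rw [Nat.mul_mod, show (6 * h - 2) % 2 = 0 by omega]
      simp
    obtain ⟨R', r1, r2, r3, r4⟩ := wheelA wh_inA wh_cr Γ t M q q0 h hh2 hH hN hR ht1 (!s) z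
      (Bf q0 (j + W)) R (by rw [g1]; omega) g2 (by rw [Bool.not_not]; exact g3)
      (by rw [Bool.not_not]; exact g4) (by rw [g1]; omega) (by rw [Bf] at h4; exact h4)
    have hne : R' ≠ [] := by
      rintro rfl
      simp at r1
      omega
    obtain ⟨z', R'', rfl⟩ := List.exists_cons_of_ne_nil hne
    refine ⟨!s, z', R'', ?_, ?_, r3, r4⟩
    · rw [r1, g1, h5]
      ring
    · rw [Bf]
      exact r2

/-- closed words of length `2 k` without closed parts -/
theorem law_core {r : ℕ} (w : FreeGroup (Fin r)) (hw : w ≠ 1) (k : ℕ) (hk0 : 2 ≤ k)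
    (hk : 3 * w.toWord.length ^ 2 ≤ k ∨ (w.toWord.length).factorial ∣ k - 1) :
    ∃ D : ℕ, ∀ (Γ : Type) [Group Γ], (∀ φ : FreeGroup (Fin r) →* Γ, φ w = 1) →
    ∀ T : Finset Γ, D ≤ T.card → 1 ∉ T → ∃ (t : ℕ → Γ) (s : Bool) (R : List ℕ),
      R.length = 2 * k ∧ (∀ i ∈ R, t i ∈ T) ∧ val t s R = 1 ∧ SimpA t s R := by
  obtain ⟨u, hul, hub, huv, hun⟩ := p2m w hw
  set lam := w.toWord.length with hlam
  set q0 := 2 * lam + r + 3 with hq0
  obtain ⟨N, hN⟩ := p1 (Bf q0 k + q0 + 1) (2 * k + 8 * lam + 4)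
  refine ⟨N, fun Γ _ hlaw T hT hT1 => ?_⟩
  obtain ⟨t, ht1, ht2, hH⟩ := hN Γ T hT
  have ht3 : ∀ i < Bf q0 k + q0 + 1, t i ≠ 1 := fun i hi h => hT1 (h ▸ ht1 i hi)
  obtain ⟨s', a, b, m, h1, h2, h3, h4, h5, h6⟩ := exist_rel t (fun i : ℕ => FreeGroup.of i)
    u.length true u rfl (by omega) (huv Γ hlaw t) hun
  obtain ⟨h, hh1, hh2, hNS, hR⟩ := exist_min t (Bf q0 k + q0 + 1) (2 * k + 8 * lam + 4) q0
    (2 * lam) hH ht2 (by omega) (by omega) (by omega) ⟨s', a, b, m, by omega, h2, h3, h4,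
      fun i hi => (hub i (h5 i hi)).trans_le (by omega), h6⟩
  have hhl : h + 1 ≤ lam := by omega
  obtain ⟨c, W, hcW, hW, hc1⟩ : ∃ c W : ℕ, c * h = k - 1 + W ∧ W < h ∧ 1 + 3 * W ≤ c := by
    rcases hk with hk | hk
    · have hk1 : 3 * h ^ 2 + 1 ≤ k := by nlinarith
      obtain ⟨c, W, hcW, hW⟩ : ∃ c W : ℕ, c * h = k - 1 + W ∧ W < h := by
        have e1 := Nat.div_add_mod (k - 1 + (h - 1)) h
        have e2 := Nat.mod_lt (k - 1 + (h - 1)) (show 0 < h by omega)
        refine ⟨(k - 1 + (h - 1)) / h, h - 1 - (k - 1 + (h - 1)) % h, ?_, by omega⟩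
        rw [mul_comm]
        omega
      refine ⟨c, W, hcW, hW, ?_⟩
      have e3 : (1 + 3 * W) * h ≤ c * h := by
        rw [hcW]
        have e4 : W + 1 ≤ h := hW
        have e5 : (1 + 3 * W) * h ≤ 3 * h ^ 2 := by nlinarith
        omega
      exact Nat.le_of_mul_le_mul_right e3 (by omega)
    · have hdvd : h ∣ k - 1 := (Nat.dvd_factorial (n := lam) (by omega) (by omega)).trans hk
      obtain ⟨c, hc⟩ := hdvd
      refine ⟨c, 0, by rw [hc]; ring, by omega, ?_⟩
      rcases Nat.eq_zero_or_pos c with h7 | h7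
      · subst h7
        omega
      · omega
  obtain ⟨a', rfl⟩ : ∃ a', c = 1 + a' + 3 * W := ⟨c - 1 - 3 * W, by omega⟩
  have hlen : 2 + (1 + a') * (2 * h) + W * (6 * h - 2) = 2 * k := by
    have e6 : W * (6 * h - 2) + W * 2 = W * (6 * h) := by
      rw [← mul_add]
      congr 1
      omega
    have e7 : (1 + a') * (2 * h) + W * (6 * h) = 2 * ((1 + a' + 3 * W) * h) := by ring
    omega
  have hak : a' + W ≤ k := by nlinarith
  have hc : CycA t (Bf q0 a') (2 + (1 + a') * (2 * h)) :=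
    chainA hh1 hH hNS hR ht3 (by omega) a' (by omega)
      (lt_of_le_of_lt (Bf_mono q0 (by omega) (show a' ≤ k by omega)) (by omega))
  have hBk := Bf_mono q0 (by omega) hak
  obtain ⟨s, z, R, g1, g2, g3, g4⟩ := wheelsA hH hNS hR ht3 (by omega) a' _ (by
      rw [Nat.add_mod, Nat.mul_mod]; simp) hc W (by omega) (by rw [hlen]; omega) (by omega)
  rw [hlen] at g1
  refine ⟨t, s, z :: R, g1, fun i hi => ?_, g3, g4⟩
  have h7 := g2 i hi
  exact ht1 i (by omega)

/-- the cycle in a graph, in one orbit -/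
theorem embedA {Γ V : Type*} [Group Γ] [MulAction Γ V] (X : SimpleGraph V)
    (haut : ∀ (g : Γ) (a c : V), X.Adj a c → X.Adj (g • a) (g • c))
    (hfree : ∀ (g : Γ) (a : V), g • a = a → g = 1) (u : V) (t : ℕ → Γ) (s : Bool) (R : List ℕ)
    (hn : 3 ≤ R.length) (hT : ∀ i ∈ R, X.Adj u (t i • u)) (hv : val t s R = 1)
    (hS : SimpA t s R) : cycleGraph R.length ⊑ X := by
  have hvl : ∀ (s' : Bool) (i : ℕ), i ∈ R → X.Adj u (vl t s' i • u) := by
    intro s' i hi
    cases s'
    · have h1 := haut (t i)⁻¹ _ _ (hT i hi)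
      rw [inv_smul_smul] at h1
      simpa [vl] using h1.symm
    · simpa [vl] using hT i hi
  have hadj : ∀ i (hi : i < R.length), X.Adj (val t s (R.take i) • u)
      (val t s (R.take (i + 1)) • u) := by
    intro i hi
    have h1 : R.take (i + 1) = R.take i ++ [R[i]] := by
      rw [List.take_append_getElem]
    rw [h1, val_append, val_cons, val_nil, mul_one, mul_smul]
    exact haut _ _ _ (hvl _ _ (List.getElem_mem _))
  refine cycle_of_fun X R.length hn (fun i => val t s (R.take i) • u) ?_ ?_ ?_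
  · intro i hi
    exact hadj i (by omega)
  · have h1 := hadj (R.length - 1) (by omega)
    rw [Nat.sub_add_cancel (by omega), List.take_length, hv] at h1
    simp only [List.take_zero, val_nil]
    exact h1
  · intro i j hij hj heq
    have h1 : val t s (R.take i) = val t s (R.take j) := by
      have h2 : ((val t s (R.take j))⁻¹ * val t s (R.take i)) • u = u := by
        rw [mul_smul, heq, inv_smul_smul]
      exact (inv_mul_eq_one.mp (hfree _ _ h2)).symm
    have h5 : R.take j = R.take i ++ (R.take j).drop i := by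
      conv_lhs => rw [← List.take_append_drop i (R.take j)]
      rw [List.take_take, min_eq_left hij.le]
    have h6 : R = R.take i ++ (R.take j).drop i ++ R.drop j := by
      rw [← h5, List.take_append_drop]
    have h7 : (R.take i).length = i := by
      rw [List.length_take]
      omega
    have h8 : ((R.take j).drop i).length = j - i := by
      rw [List.length_drop, List.length_take]
      omega
    refine hS (R.take i) ((R.take j).drop i) (R.drop j) h6 ?_ ?_ ?_
    · intro h9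
      rw [h9] at h8
      simp at h8
      omega
    · intro h9
      have h10 := congrArg List.length h9
      simp only [List.length_append, List.length_drop, List.length_nil] at h10
      omega
    · rw [h5, val_append, h7] at h1
      rw [h7]
      exact (mul_eq_left.mp h1.symm)

open Classical in
theorem loc_same {Γ V : Type*} [Group Γ] [MulAction Γ V] (X : SimpleGraph V)
    (haut : ∀ (g : Γ) (a c : V), X.Adj a c → X.Adj (g • a) (g • c))
    (hfree : ∀ (g : Γ) (a : V), g • a = a → g = 1) (u : V)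
    (D n : ℕ) (hn : 3 ≤ n) (hD : ∀ T : Finset Γ, D ≤ T.card → 1 ∉ T →
      ∃ (t : ℕ → Γ) (s : Bool) (R : List ℕ), R.length = n ∧ (∀ i ∈ R, t i ∈ T) ∧
        val t s R = 1 ∧ SimpA t s R)
    (hN : (D : ℕ∞) ≤ (X.neighborSet u ∩ MulAction.orbit Γ u).encard) : cycleGraph n ⊑ X := by
  obtain ⟨F, hF1, hF2⟩ := Set.exists_subset_encard_eq hN
  have hfin : F.Finite := Set.finite_of_encard_eq_coe hF2
  have hex : ∀ y ∈ F, ∃ g : Γ, g • u = y := fun y hy => (hF1 hy).2
  choose! g hg using hex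
  have hcard : (hfin.toFinset.image g).card = D := by
    rw [Finset.card_image_of_injOn, ← Set.ncard_eq_toFinset_card _ hfin, Set.ncard, hF2]
    · rfl
    · intro y hy y' hy' h
      rw [Finset.mem_coe, Set.Finite.mem_toFinset] at hy hy'
      rw [← hg y hy, ← hg y' hy', h]
  have hadj : ∀ s ∈ hfin.toFinset.image g, X.Adj u (s • u) := by
    intro s hs
    rw [Finset.mem_image] at hs
    obtain ⟨y, hy, rfl⟩ := hs
    rw [Set.Finite.mem_toFinset] at hy
    rw [hg y hy]
    exact (hF1 hy).1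
  obtain ⟨t, s, R, h1, h2, h3, h4⟩ := hD _ hcard.ge (fun h1 => by
    have := hadj 1 h1
    rw [one_smul] at this
    exact this.ne rfl)
  rw [← h1]
  exact embedA X haut hfree u t s R (by omega) (fun i hi => hadj _ (h2 i hi)) h3 h4

open Classical in
/-- few edges if there are few orbits -/
theorem edges_loc {G V : Type*} [Group G] [MulAction G V] [Finite V] (X : SimpleGraph V)
    (D n : ℕ) (hloc : ∀ u v : V,
      (D : ℕ∞) ≤ (X.neighborSet u ∩ MulAction.orbit G v).encard → cycleGraph n ⊑ X)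
    (hX : (cycleGraph n).Free X) :
    X.edgeSet.ncard ≤ D * Nat.card (MulAction.orbitRel.Quotient G V) * Nat.card V := by
  have := Fintype.ofFinite V
  have := Fintype.ofFinite (MulAction.orbitRel.Quotient G V)
  set L : Finset (V × V) := Finset.univ.filter fun q => X.Adj q.1 q.2 ∧
    (X.neighborSet q.1 ∩ MulAction.orbit G q.2).ncard < D with hL
  have h1 : X.edgeSet ⊆ ((L.image fun q => s(q.1, q.2) : Finset (Sym2 V)) : Set (Sym2 V)) := by
    intro e he
    induction e with
    | _ u v =>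
      rw [SimpleGraph.mem_edgeSet] at he
      rw [Finset.coe_image]
      by_cases hu : (X.neighborSet u ∩ MulAction.orbit G v).ncard < D
      · exact ⟨(u, v), by simpa [hL] using ⟨he, hu⟩, rfl⟩
      · refine absurd (hloc u v ?_) hX
        rw [← Set.Finite.cast_ncard_eq (Set.toFinite _)]
        exact_mod_cast not_lt.mp hu
  have h2 : X.edgeSet.ncard ≤ L.card := by
    refine (Set.ncard_le_ncard h1 (Finset.finite_toSet _)).trans ?_
    rw [Set.ncard_coe_finset]
    exact Finset.card_image_le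
  refine h2.trans ?_
  have h3 : ∀ q ∈ L, ((q.1, (Quotient.mk'' q.2 : MulAction.orbitRel.Quotient G V)) :
      V × MulAction.orbitRel.Quotient G V) ∈
      (Finset.univ : Finset (V × MulAction.orbitRel.Quotient G V)) := fun q _ =>
    Finset.mem_univ _
  rw [Finset.card_eq_sum_card_fiberwise h3]
  have h4 : ∀ y ∈ (Finset.univ : Finset (V × MulAction.orbitRel.Quotient G V)),
      (L.filter fun q => ((q.1, (Quotient.mk'' q.2 : MulAction.orbitRel.Quotient G V)) :
        V × MulAction.orbitRel.Quotient G V) = y).card ≤ D := by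
    rintro ⟨x, w⟩ _
    rcases Finset.eq_empty_or_nonempty (L.filter fun q =>
      ((q.1, (Quotient.mk'' q.2 : MulAction.orbitRel.Quotient G V)) :
        V × MulAction.orbitRel.Quotient G V) = (x, w)) with h | ⟨⟨u, v⟩, h⟩
    · rw [h]
      simp
    · rw [Finset.mem_filter] at h
      obtain ⟨h5, h6⟩ := h
      rw [Prod.mk.injEq] at h6
      obtain ⟨rfl, rfl⟩ := h6
      have h7 := (Finset.mem_filter.mp h5).2.2
      refine le_trans ?_ h7.le
      rw [Set.ncard_eq_toFinset_card _ (Set.toFinite _)]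
      refine Finset.card_le_card_of_injOn (fun q => q.2) ?_ ?_
      · rintro ⟨a, e⟩ hq
        rw [Finset.mem_coe, Finset.mem_filter] at hq
        obtain ⟨h8, h9⟩ := hq
        rw [Prod.mk.injEq] at h9
        obtain ⟨h9, h10⟩ := h9
        simp only at h9
        subst h9
        have h11 := (Finset.mem_filter.mp h8).2.1
        simp only [Set.Finite.coe_toFinset]
        refine ⟨h11, ?_⟩
        exact (MulAction.orbitRel_apply).mp (Quotient.exact h10)
      · rintro ⟨a, e⟩ hq ⟨a', e'⟩ hq' hee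
        rw [Finset.mem_coe, Finset.mem_filter] at hq hq'
        have h9 := hq.2
        have h9' := hq'.2
        rw [Prod.mk.injEq] at h9 h9'
        simp only at h9 h9' hee
        rw [h9.1, h9'.1, hee]
  refine (Finset.sum_le_sum h4).trans ?_
  rw [Finset.sum_const, smul_eq_mul, Finset.card_univ, Fintype.card_prod, Nat.card_eq_fintype_card,
    Nat.card_eq_fintype_card]
  apply le_of_eq
  ring

end Pool.Agent.H694R4.Law
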