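import Pool.Agent.H694R4.Law.Base

/-!
# Three relators around a vertex: statements
-/

set_option autoImplicit false

namespace Pool.Agent.H694R4.Law

/-- Three closed words `x1 m12 x2`, `x2 m23 x3`, `x1 m13 x3` of length `2 h + 2`, starting at side
`g`; the words with different index sets have only the label of the common `x i` in common. -/
structure Wh {Γ : Type} [Group Γ] (t : ℕ → Γ) (M h : ℕ) (g : Bool) (x1 x2 x3 : ℕ)
    (m12 m23 m13 : List ℕ) : Prop where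
  hh : 2 ≤ h
  ns : NoShort t M (2 * h + 2)
  l12 : m12.length = 2 * h
  l23 : m23.length = 2 * h
  l13 : m13.length = 2 * h
  c12 : val t g (x1 :: (m12 ++ [x2])) = 1
  c23 : val t g (x2 :: (m23 ++ [x3])) = 1
  c13 : val t g (x1 :: (m13 ++ [x3])) = 1
  r12 : Red (x1 :: (m12 ++ [x2]))
  r23 : Red (x2 :: (m23 ++ [x3]))
  r13 : Red (x1 :: (m13 ++ [x3]))
  b12 : ∀ i ∈ x1 :: (m12 ++ [x2]), i < M
  b23 : ∀ i ∈ x2 :: (m23 ++ [x3]), i < M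
  b13 : ∀ i ∈ x1 :: (m13 ++ [x3]), i < M
  d1 : ∀ i ∈ x1 :: (m12 ++ [x2]), i ∈ x1 :: (m13 ++ [x3]) → i = x1
  d2 : ∀ i ∈ x1 :: (m12 ++ [x2]), i ∈ x2 :: (m23 ++ [x3]) → i = x2
  d3 : ∀ i ∈ x1 :: (m13 ++ [x3]), i ∈ x2 :: (m23 ++ [x3]) → i = x3
  n12 : x1 ≠ x2
  n23 : x2 ≠ x3
  n13 : x1 ≠ x3

/-- IN: the boundary without the first edge of `m12` is a path -/
def StIN : Prop := ∀ (Γ : Type) [Group Γ] (t : ℕ → Γ) (M h : ℕ) (g : Bool) (x1 x2 x3 : ℕ)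
  (m12 m23 m13 : List ℕ), Wh t M h g x1 x2 x3 m12 m23 m13 → ∀ Y A E : List ℕ,
  m13 ++ (m23.reverse ++ m12.tail.reverse) = Y ++ A ++ E → A ≠ [] → A.length % 2 = 0 →
  val t (sd (!g) Y.length) A ≠ 1

/-- CR: paths from the start that end with a short part with a new label -/
def StCR : Prop := ∀ (Γ : Type) [Group Γ] (t : ℕ → Γ) (M h : ℕ) (g : Bool) (x1 x2 x3 : ℕ)
  (m12 m23 m13 : List ℕ), Wh t M h g x1 x2 x3 m12 m23 m13 → ∀ X E : List ℕ,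
  m13 ++ (m23.reverse ++ m12.tail.reverse) = X ++ E → X ≠ [] → E ≠ [] →
  ∃ (X0 : List ℕ) (c : ℕ) (Q : List ℕ), val t (!g) X = val t (!g) (X0 ++ (c :: Q)) ∧
    Red (c :: Q) ∧ (c :: Q).length ≤ h ∧ X0.length ≤ 2 ∧ c ∉ X0 ∧ m12.head? ≠ some c ∧
    ∀ i ∈ X0 ++ (c :: Q), i ∈ x1 :: (m12 ++ [x2]) ∨ i ∈ x2 :: (m23 ++ [x3]) ∨
      i ∈ x1 :: (m13 ++ [x3])

end Pool.Agent.H694R4.Law
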