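import Pool.Agent.H694R4.Law.Step
import Pool.Agent.H694R4.Law.WDefs

/-!
# Glueing a path
-/

set_option autoImplicit false

namespace Pool.Agent.H694R4.Law

theorem glue {Γ : Type*} [Group Γ] {t : ℕ → Γ} (s : Bool) (z : ℕ) (R P : List ℕ)
    (hcl : val t s (z :: R) = 1) (hodd : R.length % 2 = 1) (hPodd : P.length % 2 = 1)
    (hS : Simp t s (z :: R)) (hPv : val t s P = vl t s z)
    (hIN : ∀ Y A E : List ℕ, P = Y ++ A ++ E → A ≠ [] → A.length % 2 = 0 →
      val t (sd s Y.length) A ≠ 1)
    (hCR : ∀ X E : List ℕ, P = X ++ E → X ≠ [] → E ≠ [] → ∀ Y C : List ℕ, R = C ++ Y →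
      val t (sd (!s) C.length) (Y ++ X) ≠ 1) :
    val t (!s) (R ++ P) = 1 ∧ Simp t (!s) (R ++ P) := by
  have hsR : sd (!s) R.length = s := by rw [sd_odd _ _ hodd, Bool.not_not]
  have hcl2 : val t (!s) (R ++ P) = 1 := by
    rw [val_append, hsR, hPv]
    rw [val_cons] at hcl
    rw [eq_inv_of_mul_eq_one_right hcl, inv_mul_cancel]
  refine ⟨hcl2, ?_⟩
  have caseI : ∀ C A X : List ℕ, R = C ++ A ++ X → A ≠ [] → A.length % 2 = 0 →
      val t (sd (!s) C.length) A ≠ 1 := by
    intro C A X hd hA hAe
    exact hS (z :: C) A X (by rw [hd]; simp) hA hAe (by simp)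
  intro C A E hd hA hAe hCE hval
  rcases List.append_eq_append_iff.mp hd with ⟨X, h1, h2⟩ | ⟨X, h1, h2⟩
  · rcases List.append_eq_append_iff.mp h1 with ⟨Y, h3, h4⟩ | ⟨Y, h3, h4⟩
    · by_cases hX : X = []
      · subst hX
        rw [List.append_nil] at h4
        subst h4
        exact caseI C A [] (by rw [h3]; simp) hA hAe hval
      by_cases hE : E = []
      · subst hE
        have h7 := congrArg List.length hd
        simp only [List.length_append, List.length_nil] at h7
        have hC1 : val t (!s) C = 1 := by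
          have h8 := hcl2
          rw [hd, List.append_nil, val_append, hval, mul_one] at h8
          exact h8
        refine caseI [] C Y (by rw [h3]; simp) (by rintro rfl; simp at hCE) (by omega) hC1
      · rw [h4] at hval
        exact hCR X E h2 hX hE Y C h3 hval
    · refine hIN Y A E (by rw [h2, h4]) hA hAe ?_
      rw [h3, List.length_append, sd_add, hsR] at hval
      exact hval
  · exact caseI C A X (by rw [h1]) hA hAe hval

/-- oriented relators -/
theorem Rel.lt {Γ : Type*} [Group Γ] {t : ℕ → Γ} {q0 h : ℕ} (hR : Rel t q0 h) (s : Bool) :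
    ∃ (a b : ℕ) (m : List ℕ), a < b ∧ m.length = 2 * h ∧ Red (a :: (m ++ [b])) ∧
      (∀ i ∈ a :: (m ++ [b]), i < q0) ∧ val t s (a :: (m ++ [b])) = 1 := by
  obtain ⟨a, Q, h1, h2, h3, h4, h5⟩ := hR s
  obtain ⟨m, b, rfl⟩ : ∃ m b, Q = m ++ [b] := by
    rcases List.eq_nil_or_concat' Q with h6 | ⟨m, b, h6⟩
    · rw [h6] at h1
      simp at h1
    · exact ⟨m, b, h6⟩
  have hml : m.length = 2 * h := by
    simp only [List.length_append, List.length_cons, List.length_nil] at h1
    omega
  have hba : b ≠ a := h3 b (by rw [List.getLast?_concat]; rfl)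
  rcases Nat.lt_or_gt_of_ne hba with h6 | h6
  · have hrev : b :: (m.reverse ++ [a]) = (a :: (m ++ [b])).reverse := by simp
    refine ⟨b, a, m.reverse, h6, by simpa using hml, ?_, ?_, ?_⟩
    · unfold Red at h2 ⊢
      rw [hrev, List.isChain_reverse]
      exact h2.imp fun _ _ h7 => h7.symm
    · intro i hi
      rw [hrev, List.mem_reverse] at hi
      exact h4 i hi
    · have h7 := val_reverse (t := t) s (a :: (m ++ [b]))
      rw [h5, inv_one, sd_even _ _ (by
        simp only [List.length_append, List.length_cons, List.length_nil]; omega)] at h7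
      rw [hrev]
      exact h7
  · exact ⟨a, b, m, h6, hml, h2, h4, h5⟩

end Pool.Agent.H694R4.Law
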