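import Pool.Agent.H694R4.Law.Fin2

/-!
# Graphs with a free action of a group that satisfies a law
-/

set_option autoImplicit false

namespace Pool.Agent.H694R4.Law

open SimpleGraph

theorem haar_hom {Γ V : Type*} [Group Γ] [MulAction Γ V] (X : SimpleGraph V)
    (haut : ∀ (g : Γ) (a c : V), X.Adj a c → X.Adj (g • a) (g • c))
    (hfree : ∀ (g : Γ) (a : V), g • a = a → g = 1) (u v : V) (huv : v ∉ MulAction.orbit Γ u)
    (T : Set Γ) (hT : ∀ g ∈ T, X.Adj u (g • v)) : haar T ⊑ X := by
  refine ⟨⟨⟨fun x => x.1 • (if x.2 then u else v), ?_⟩, ?_⟩⟩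
  · rintro ⟨x, s⟩ ⟨y, s'⟩ h
    rcases h with ⟨h1, h2, h3⟩ | ⟨h1, h2, h3⟩
    · simp only at h1 h2 h3
      subst h1 h2
      have h4 := haut x _ _ (hT _ h3)
      rw [smul_smul, mul_inv_cancel_left] at h4
      simpa using h4
    · simp only at h1 h2 h3
      subst h1 h2
      have h4 := haut y _ _ (hT _ h3)
      rw [smul_smul, mul_inv_cancel_left] at h4
      simpa using h4.symm
  · have h0 : ∀ (x y : Γ) (a : V), x • a = y • a → x = y := by
      intro x y a h
      have h1 : (y⁻¹ * x) • a = a := by rw [mul_smul, h, inv_smul_smul]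
      exact (inv_mul_eq_one.mp (hfree _ _ h1)).symm
    rintro ⟨x, s⟩ ⟨y, s'⟩ h
    cases s <;> cases s'
    · have h1 : x • v = y • v := by simpa using h
      rw [h0 _ _ _ h1]
    · have h1 : x • v = y • u := by simpa using h
      exact absurd ⟨x⁻¹ * y, by
        change (x⁻¹ * y) • u = v
        rw [mul_smul, ← h1, inv_smul_smul]⟩ huv
    · have h1 : x • u = y • v := by simpa using h
      exact absurd ⟨y⁻¹ * x, by
        change (y⁻¹ * x) • u = v
        rw [mul_smul, h1, inv_smul_smul]⟩ huv
    · have h1 : x • u = y • u := by simpa using h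
      rw [h0 _ _ _ h1]

open Classical in
theorem loc_cycle {Γ V : Type*} [Group Γ] [MulAction Γ V] (X : SimpleGraph V)
    (haut : ∀ (g : Γ) (a c : V), X.Adj a c → X.Adj (g • a) (g • c))
    (hfree : ∀ (g : Γ) (a : V), g • a = a → g = 1) (u v : V) (huv : v ∉ MulAction.orbit Γ u)
    (D n : ℕ) (hD : ∀ T : Finset Γ, D ≤ T.card → cycleGraph n ⊑ haar (T : Set Γ))
    (hN : (D : ℕ∞) ≤ (X.neighborSet u ∩ MulAction.orbit Γ v).encard) : cycleGraph n ⊑ X := by
  obtain ⟨F, hF1, hF2⟩ := Set.exists_subset_encard_eq hN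
  have hfin : F.Finite := Set.finite_of_encard_eq_coe hF2
  have hex : ∀ y ∈ F, ∃ g : Γ, g • v = y := fun y hy => (hF1 hy).2
  choose! g hg using hex
  have hcard : (hfin.toFinset.image g).card = D := by
    rw [Finset.card_image_of_injOn, ← Set.ncard_eq_toFinset_card _ hfin, Set.ncard, hF2]
    · rfl
    · intro y hy y' hy' h
      rw [Finset.mem_coe, Set.Finite.mem_toFinset] at hy hy'
      rw [← hg y hy, ← hg y' hy', h]
  refine (hD _ hcard.ge).trans (haar_hom X haut hfree u v huv _ ?_)
  intro s hs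
  rw [Finset.mem_coe, Finset.mem_image] at hs
  obtain ⟨y, hy, rfl⟩ := hs
  rw [Set.Finite.mem_toFinset] at hy
  rw [hg y hy]
  exact (hF1 hy).1

open Classical in
/-- few edges if there are few orbits -/
theorem edges_free {G V : Type*} [Group G] [MulAction G V] [Finite V] (X : SimpleGraph V)
    (haut : ∀ (g : G) (a c : V), X.Adj a c → X.Adj (g • a) (g • c))
    (hfree : ∀ (g : G) (a : V), g • a = a → g = 1) (hind : ∀ (g : G) (a : V), ¬ X.Adj a (g • a))
    (D n : ℕ) (hD : ∀ T : Finset G, D ≤ T.card → cycleGraph n ⊑ haar (T : Set G))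
    (hX : (cycleGraph n).Free X) :
    X.edgeSet.ncard ≤ D * Nat.card (MulAction.orbitRel.Quotient G V) * Nat.card V := by
  have := Fintype.ofFinite V
  have := Fintype.ofFinite (MulAction.orbitRel.Quotient G V)
  set L : Finset (V × V) := Finset.univ.filter fun q => X.Adj q.1 q.2 ∧
    (X.neighborSet q.1 ∩ MulAction.orbit G q.2).ncard < D with hL
  have h1 : X.edgeSet ⊆ ((L.image fun q => s(q.1, q.2) : Finset (Sym2 V)) : Set (Sym2 V)) := by
    intro e he
    induction e with
    | _ u v =>
      rw [SimpleGraph.mem_edgeSet] at he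
      rw [Finset.coe_image]
      by_cases hu : (X.neighborSet u ∩ MulAction.orbit G v).ncard < D
      · exact ⟨(u, v), by simpa [hL] using ⟨he, hu⟩, rfl⟩
      · refine absurd (loc_cycle X haut hfree u v ?_ D n hD ?_) hX
        · rintro ⟨g, hg⟩
          refine hind g u ?_
          have hg' : g • u = v := hg
          rw [hg']
          exact he
        · rw [← Set.Finite.cast_ncard_eq (Set.toFinite _)]
          exact_mod_cast not_lt.mp hu
  have h2 : X.edgeSet.ncard ≤ L.card := by
    refine (Set.ncard_le_ncard h1 (Finset.finite_toSet _)).trans ?_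
    rw [Set.ncard_coe_finset]
    exact Finset.card_image_le
  refine h2.trans ?_
  have h3 : ∀ q ∈ L, ((q.1, (Quotient.mk'' q.2 : MulAction.orbitRel.Quotient G V)) :
      V × MulAction.orbitRel.Quotient G V) ∈
      (Finset.univ : Finset (V × MulAction.orbitRel.Quotient G V)) := fun q _ =>
    Finset.mem_univ _
  rw [Finset.card_eq_sum_card_fiberwise h3]
  have h4 : ∀ y ∈ (Finset.univ : Finset (V × MulAction.orbitRel.Quotient G V)),
      (L.filter fun q => ((q.1, (Quotient.mk'' q.2 : MulAction.orbitRel.Quotient G V)) :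
        V × MulAction.orbitRel.Quotient G V) = y).card ≤ D := by
    rintro ⟨x, w⟩ _
    rcases Finset.eq_empty_or_nonempty (L.filter fun q =>
      ((q.1, (Quotient.mk'' q.2 : MulAction.orbitRel.Quotient G V)) :
        V × MulAction.orbitRel.Quotient G V) = (x, w)) with h | ⟨⟨u, v⟩, h⟩
    · rw [h]
      simp
    · rw [Finset.mem_filter] at h
      obtain ⟨h5, h6⟩ := h
      rw [Prod.mk.injEq] at h6
      obtain ⟨rfl, rfl⟩ := h6
      have h7 := (Finset.mem_filter.mp h5).2.2
      refine le_trans ?_ h7.le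
      rw [Set.ncard_eq_toFinset_card _ (Set.toFinite _)]
      refine Finset.card_le_card_of_injOn (fun q => q.2) ?_ ?_
      · rintro ⟨a, e⟩ hq
        rw [Finset.mem_coe, Finset.mem_filter] at hq
        obtain ⟨h8, h9⟩ := hq
        rw [Prod.mk.injEq] at h9
        obtain ⟨h9, h10⟩ := h9
        simp only at h9
        subst h9
        have h11 := (Finset.mem_filter.mp h8).2.1
        simp only [Set.Finite.coe_toFinset]
        refine ⟨h11, ?_⟩
        exact (MulAction.orbitRel_apply).mp (Quotient.exact h10)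
      · rintro ⟨a, e⟩ hq ⟨a', e'⟩ hq' hee
        rw [Finset.mem_coe, Finset.mem_filter] at hq hq'
        have h9 := hq.2
        have h9' := hq'.2
        rw [Prod.mk.injEq] at h9 h9'
        simp only at h9 h9' hee
        rw [h9.1, h9'.1, hee]
  refine (Finset.sum_le_sum h4).trans ?_
  rw [Finset.sum_const, smul_eq_mul, Finset.card_univ, Fintype.card_prod, Nat.card_eq_fintype_card,
    Nat.card_eq_fintype_card]
  apply le_of_eq
  ring

end Pool.Agent.H694R4.Law
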