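import Pool.Agent.H694R4.Law.Base

/-!
# Glueing a short cycle to a cycle
-/

set_option autoImplicit false

namespace Pool.Agent.H694R4.Law

variable {Γ : Type*} [Group Γ] {t : ℕ → Γ}

/-- no proper part of even length of `R` is closed -/
def Simp (t : ℕ → Γ) (s : Bool) (R : List ℕ) : Prop :=
  ∀ C A E : List ℕ, R = C ++ A ++ E → A ≠ [] → A.length % 2 = 0 → C ++ E ≠ [] →
    val t (sd s C.length) A ≠ 1

/-- the relators: for both sides a closed cyclically reduced word of length `2 h + 2` -/
def Rel (t : ℕ → Γ) (q0 h : ℕ) : Prop :=
  ∀ s : Bool, ∃ (a : ℕ) (Q : List ℕ), Q.length = 2 * h + 1 ∧ Red (a :: Q) ∧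
    (∀ x ∈ Q.getLast?, x ≠ a) ∧ (∀ i ∈ a :: Q, i < q0) ∧ val t s (a :: Q) = 1

theorem step {M q q0 h : ℕ} (hh : 1 ≤ h) (hH : Homo t M q) (hN : NoShort t M (2 * h + 2))
    (hR : Rel t q0 h) (s : Bool) (z B : ℕ) (R1 : List ℕ) (hn : (z :: R1).length % 2 = 0)
    (hB : ∀ i ∈ z :: R1, i < B) (hcl : val t s (z :: R1) = 1) (hS : Simp t s (z :: R1))
    (hq : (z :: R1).length + (2 * h + 2) ≤ q) (hM : 4 * q0 * (B + 2) < M) :
    ∃ R' : List ℕ, R'.length = (z :: R1).length + 2 * h ∧ (∀ i ∈ R', i < 4 * q0 * (B + 2)) ∧
      val t (!s) R' = 1 ∧ Simp t (!s) R' := by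
  obtain ⟨a, Qv, hQl, hQr, hQlast, hQb, hQv⟩ := hR s
  have ha : a < q0 := hQb a List.mem_cons_self
  have hq0 : 1 ≤ q0 := by omega
  set f : ℕ → ℕ := fun i => 4 * q0 * (i + 1) with hf
  set g : ℕ → ℕ := fun i => 4 * q0 * (z + 1) + 2 * i - 2 * a with hg
  have hzB : z < B := hB z List.mem_cons_self
  have hge : 4 * q0 ≤ 4 * q0 * (z + 1) := by nlinarith
  have hzle : 4 * q0 * (z + 1) + 4 * q0 ≤ 4 * q0 * (B + 1) := by nlinarith
  have hB2 : 4 * q0 * (B + 2) = 4 * q0 * (B + 1) + 4 * q0 := by ring
  have hBM : B ≤ 4 * q0 * (B + 1) := by nlinarith
  have hfz : g a = f z := by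
    simp only [hf, hg]
    omega
  have fmono : ∀ i j : ℕ, i < j → f i + 4 * q0 ≤ f j := by
    intro i j hij
    simp only [hf]
    nlinarith
  have fB : ∀ i, i < B → f i < 4 * q0 * (B + 2) := by
    intro i hi
    simp only [hf]
    nlinarith
  have gB : ∀ i, i < q0 → g i < 4 * q0 * (B + 2) := by
    intro i hi
    simp only [hg]
    omega
  have gmono : ∀ i j : ℕ, i < j → g i < g j := by
    intro i j hij
    simp only [hg]
    omega
  have gf : ∀ i y : ℕ, i < q0 → i ≠ a → g i ≠ f y := by
    intro i y hi hia hgf
    rcases Nat.lt_trichotomy y z with h1 | h1 | h1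
    · have h2 := fmono y z h1
      simp only [hf, hg] at hgf h2
      omega
    · subst h1
      simp only [hf, hg] at hgf
      omega
    · have h2 := fmono z y h1
      simp only [hf, hg] at hgf h2
      omega
  have feven : ∀ i, f i % 2 = 0 := by
    intro i
    simp only [hf]
    rw [mul_assoc, Nat.mul_mod]
    norm_num
  have geven : ∀ i, g i % 2 = 0 := by
    intro i
    have h1 := feven z
    simp only [hf] at h1
    simp only [hg]
    omega
  -- the translates
  have hRf : ∀ (s' : Bool) (u : List ℕ), (∀ i ∈ u, i ∈ z :: R1) → u.length ≤ q →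
      (val t s' u = 1 ↔ val t s' (u.map f) = 1) := by
    intro s' u hu hul
    refine hH s' u f hul (fun i hi => ?_) (fun i hi => ?_) (fun i _ j _ hij => ?_)
    · have := hB i (hu i hi)
      omega
    · exact (fB i (hB i (hu i hi))).trans hM
    · have := fmono i j hij
      omega
  have hcl' : val t s ((z :: R1).map f) = 1 := (hRf s _ (fun i hi => hi) (by omega)).mp hcl
  have hQv' : val t s ((a :: Qv).map g) = 1 := by
    refine (hH s (a :: Qv) g (by simp only [List.length_cons]; omega) (fun i hi => ?_)
      (fun i hi => ?_) (fun i _ j _ hij => gmono i j hij)).mp hQv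
    · have := hQb i hi
      omega
    · exact (gB i (hQb i hi)).trans hM
  have hGr : Red ((a :: Qv).map g) := red_map hQr (fun i _ j _ hij => gmono i j hij)
  have hP : Red (Qv.map g).reverse := by
    unfold Red at hGr ⊢
    rw [List.isChain_reverse]
    exact (hGr.tail).imp fun _ _ h1 => h1.symm
  obtain ⟨P, hPdef⟩ : ∃ P, P = (Qv.map g).reverse := ⟨_, rfl⟩
  obtain ⟨b, m, hbm⟩ : ∃ b m, Qv = b :: m := List.exists_cons_of_ne_nil (by
    rintro rfl
    simp at hQl)
  obtain ⟨m', b', hbm'⟩ : ∃ m' b', Qv = m' ++ [b'] := by
    rcases List.eq_nil_or_concat' Qv with h1 | ⟨m', b', h1⟩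
    · rw [h1] at hQl
      simp at hQl
    · exact ⟨m', b', h1⟩
  have hba : b ≠ a := by
    rw [hbm] at hQr
    have := (List.isChain_cons_cons.mp hQr).1
    exact fun h1 => this h1.symm
  have hb'a : b' ≠ a := hQlast b' (by rw [hbm']; simp)
  have hbq : b < q0 := hQb b (by rw [hbm]; simp)
  have hb'q : b' < q0 := hQb b' (by rw [hbm']; simp)
  have hPl : P = (m.map g).reverse ++ [g b] := by rw [hPdef, hbm]; simp
  have hPh : P = g b' :: (m'.map g).reverse := by rw [hPdef, hbm']; simp
  have hPlen : P.length = 2 * h + 1 := by rw [hPdef]; simp [hQl]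
  have hPred : Red P := hPdef ▸ hP
  have hPeven : ∀ i ∈ P, i % 2 = 0 := by
    intro i hi
    rw [hPdef, List.mem_reverse, List.mem_map] at hi
    obtain ⟨j, _, rfl⟩ := hi
    exact geven j
  have hPB : ∀ i ∈ P, i < 4 * q0 * (B + 2) := by
    intro i hi
    rw [hPdef, List.mem_reverse, List.mem_map] at hi
    obtain ⟨j, hj, rfl⟩ := hi
    exact gB j (hQb j (List.mem_cons_of_mem _ hj))
  have hRB : ∀ i ∈ R1.map f, i < 4 * q0 * (B + 2) := by
    intro i hi
    obtain ⟨j, hj, rfl⟩ := List.mem_map.mp hi
    exact fB j (hB j (List.mem_cons_of_mem _ hj))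
  have hReven : ∀ i ∈ R1.map f, i % 2 = 0 := by
    intro i hi
    obtain ⟨j, _, rfl⟩ := List.mem_map.mp hi
    exact feven j
  have hRodd : R1.length % 2 = 1 := by
    rw [List.length_cons] at hn
    omega
  have hcl2 : val t (!s) (R1.map f ++ P) = 1 := by
    rw [List.map_cons, val_cons] at hcl' hQv'
    rw [hfz] at hQv'
    have h1 := mul_left_cancel (hcl'.trans hQv'.symm)
    have h2 := val_reverse (t := t) (!s) (Qv.map g)
    rw [val_append, List.length_map, hPdef, h1]
    have h3 : sd (!s) R1.length = sd (!s) (Qv.map g).length := by
      rw [List.length_map, sd_odd _ _ hRodd, sd_odd _ _ (by omega)]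
    rw [h3, h2, mul_inv_cancel]
  refine ⟨R1.map f ++ P, ?_, ?_, hcl2, ?_⟩
  · rw [List.length_append, List.length_map, hPlen, List.length_cons]
    omega
  · intro i hi
    rw [List.mem_append] at hi
    exact hi.elim (hRB i) (hPB i)
  · -- no proper part is closed
    have caseI : ∀ C A X : List ℕ, R1.map f = C ++ A ++ X → A ≠ [] → A.length % 2 = 0 →
        val t (sd (!s) C.length) A ≠ 1 := by
      intro C A X hd hA hAe
      obtain ⟨CA, X0, h1, h2, h3⟩ := List.map_eq_append_iff.mp hd
      obtain ⟨C0, A0, h4, h5, h6⟩ := List.map_eq_append_iff.mp h2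
      subst h4
      have h7 := hS (z :: C0) A0 X0 (by rw [h1]; simp) (by rintro rfl; exact hA (by simp [← h6]))
        (by rw [← h6, List.length_map] at hAe; exact hAe) (by simp)
      rw [← h5, ← h6, List.length_map]
      intro h8
      refine h7 ?_
      refine (hRf _ A0 (fun i hi => ?_) ?_).mpr h8
      · rw [h1]
        simp [hi]
      · rw [h1] at hq
        simp only [List.length_cons, List.length_append] at hq
        omega
    have hlenq : (R1.map f).length + P.length ≤ q := by
      rw [List.length_map, hPlen]
      rw [List.length_cons] at hq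
      omega
    intro C A E hd hA hAe hCE hval
    have hcrit : ∀ (s' : Bool) (A' : List ℕ) (c : ℕ) (Q' : List ℕ), Red (c :: Q') →
        (c :: Q').length ≤ h → c ∉ A' → (∀ i ∈ A' ++ (c :: Q'), i ∈ R1.map f ++ P) →
        (A' ++ (c :: Q')).length ≤ q → val t s' (A' ++ (c :: Q')) ≠ 1 := by
      intro s' A' c Q' h1 h2 h3 h4 h5
      have h6 : ∀ i ∈ A' ++ (c :: Q'), i % 2 = 0 ∧ i < 4 * q0 * (B + 2) := by
        intro i hi
        have := h4 i hi
        rw [List.mem_append] at this
        rcases this with h7 | h7
        · exact ⟨hReven i h7, hRB i h7⟩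
        · exact ⟨hPeven i h7, hPB i h7⟩
      have h7 := h6 c (by simp)
      refine crit hH hN s' A' Q' c h1 (by omega) h3 (fun h8 => ?_) h5 (fun i hi => ?_) (by omega)
      · have := (h6 _ h8).1
        omega
      · have := (h6 _ hi).2
        omega
    rcases List.append_eq_append_iff.mp hd with ⟨X, h1, h2⟩ | ⟨X, h1, h2⟩
    · rcases List.append_eq_append_iff.mp h1 with ⟨Y, h3, h4⟩ | ⟨Y, h3, h4⟩
      · by_cases hX : X = []
        · subst hX
          rw [List.append_nil] at h4
          subst h4
          exact caseI C A [] (by rw [h3]; simp) hA hAe hval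
        have hYR : ∀ i ∈ Y, i ∈ R1.map f := by
          intro i hi
          rw [h3]
          simp [hi]
        have hCR : ∀ i ∈ C, i ∈ R1.map f := by
          intro i hi
          rw [h3]
          simp [hi]
        by_cases hXl : X.length ≤ h
        · obtain ⟨x, X', rfl⟩ := List.exists_cons_of_ne_nil hX
          have hx : x = g b' := by
            rw [hPh] at h2
            exact (List.cons.inj h2).1.symm
          refine hcrit (sd (!s) C.length) Y x X' ?_ hXl ?_ ?_ ?_ (h4 ▸ hval)
          · unfold Red at hPred ⊢
            rw [h2] at hPred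
            exact hPred.left_of_append
          · intro hxY
            obtain ⟨j, _, hj⟩ := List.mem_map.mp (hYR x hxY)
            exact gf b' j hb'q hb'a (by rw [← hx, hj])
          · intro i hi
            rw [List.mem_append] at hi ⊢
            rcases hi with hi | hi
            · exact Or.inl (hYR i hi)
            · exact Or.inr (by rw [h2]; exact List.mem_append_left _ hi)
          · have h5 := congrArg List.length h3
            have h6 := congrArg List.length h2
            rw [List.length_append] at h5 h6 ⊢
            omega
        · have h5 := congrArg List.length h3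
          have h6 := congrArg List.length h2
          have h7 := congrArg List.length hd
          simp only [List.length_append, List.length_map] at h5 h6 h7
          have hEl : E.length ≤ h := by omega
          have hside : sd (!s) (C.length + A.length) = sd (!s) C.length := by
            rw [sd_add, sd_even _ _ hAe]
          have hCE1 : val t (!s) C * val t (sd (!s) C.length) E = 1 := by
            rw [hd, val_append, val_append, hval, mul_one, List.length_append, hside] at hcl2
            exact hcl2
          have hCEe : (C.length + E.length) % 2 = 0 := by omega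
          by_cases hEn : E = []
          · subst hEn
            rw [val_nil, mul_one] at hCE1
            refine caseI [] C Y (by rw [h3]; simp) (by rintro rfl; simp at hCE) ?_ hCE1
            simpa using hCEe
          · obtain ⟨E', e, rfl⟩ : ∃ E' e, E = E' ++ [e] := by
              rcases List.eq_nil_or_concat' E with h8 | ⟨E', e, h8⟩
              · exact absurd h8 hEn
              · exact ⟨E', e, h8⟩
            have he : e = g b := by
              rw [hPl] at h2
              have h8 : (List.map g m).reverse ++ [g b] = (X ++ E') ++ [e] := by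
                rw [h2]; simp
              have h9 := (List.append_inj' h8 rfl).2
              simpa using h9.symm
            have hrot : val t (sd (!s) C.length) ((E' ++ [e]) ++ C) = 1 := by
              rw [val_append, ← sd_add, sd_even _ _ hCEe, eq_inv_of_mul_eq_one_right hCE1,
                inv_mul_cancel]
            have hrev : val t (sd (!s) C.length) (C.reverse ++ (e :: E'.reverse)) = 1 := by
              have h8 := val_reverse (t := t) (sd (!s) C.length) ((E' ++ [e]) ++ C)
              rw [hrot, inv_one, sd_even _ ((E' ++ [e]) ++ C).length (by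
                rw [List.length_append]; omega)] at h8
              simpa using h8
            refine hcrit _ _ _ _ ?_ ?_ ?_ ?_ ?_ hrev
            · unfold Red at hPred ⊢
              rw [h2] at hPred
              have h8 := hPred.right_of_append
              have h9 : (e :: E'.reverse) = (E' ++ [e]).reverse := by simp
              rw [h9, List.isChain_reverse]
              exact h8.imp fun _ _ h10 => h10.symm
            · simpa using hEl
            · intro heC
              rw [List.mem_reverse] at heC
              obtain ⟨j, _, hj⟩ := List.mem_map.mp (hCR e heC)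
              exact gf b j hbq hba (by rw [← he, hj])
            · intro i hi
              simp only [List.mem_append, List.mem_reverse, List.mem_cons] at hi ⊢
              rcases hi with hi | hi | hi
              · exact Or.inl (hCR i hi)
              · right
                rw [h2, hi]
                simp
              · right
                rw [h2]
                simp [hi]
            · simp only [List.length_append, List.length_cons, List.length_nil,
                List.length_reverse] at h6 h7 hlenq ⊢
              rw [List.length_map] at hlenq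
              omega
      · refine hN.ne _ _ A rfl hA ?_ hAe ?_ ?_ hval
        · have h5 := congrArg List.length h2
          have h6 := congrArg List.length h4
          simp only [List.length_append] at h5 h6
          omega
        · unfold Red at hPred ⊢
          rw [h2, h4] at hPred
          exact hPred.left_of_append.right_of_append
        · intro i hi
          have := hPB i (by rw [h2, h4]; simp [hi])
          omega
    · exact caseI C A X (by rw [h1]) hA hAe hval

end Pool.Agent.H694R4.Law
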